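import Pool.Agent.Lib.MP_06b9d2_tln.Defs

/-!
Module TLN-TNa. The Hecke operators `T_n` on power series: `T_1`, `T_l`, products of coprime numbers.

`TN_one`: `gcd m 1 = 1`, `divisors 1 = {1}`, `m * 1 / 1 = m`. `TN_prime`: `Tl l k f = U l f + (l ^ k / l) • V l f`; `gcd m l = l` if `l ∣ m` (also `m = 0`), else `1`; `divisors l = {1, l}`; `m * l / l ^ 2 = m / l` if `l ∣ m` (compare the proof of `q_T` in
`MP_06b9d2_tls/KerG.lean`). `U l f = mk (coeff (l * m) f)`, `V l f = mk (if l ∣ m then coeff (m / l) f else 0)`.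
`TN_mul`: coefficient `j`. Right side: `∑_{d₁ ∣ gcd j m} ∑_{d₂ ∣ gcd (j m / d₁ ^ 2) n} (d₁ ^ k / d₁) (d₂ ^ k / d₂) f_{(j m / d₁ ^ 2) n / d₂ ^ 2}`. As `d₁ ∣ j`, `d₁ ∣ m`: `j m / d₁ ^ 2 = (j / d₁) (m / d₁)`, and `d₁`, `m / d₁` are coprime to `n`, so
`gcd (j m / d₁ ^ 2) n = gcd j n` (for `j = 0` both are `n`). Left side: `gcd j (m n) = gcd j m * gcd j n` (`Nat.Coprime.gcd_mul`), coprime factors, so the divisors of it are the products `d₁ d₂` in a unique way (`Nat.divisors_mul`, `Nat.Coprime.sum_divisors_mul...`, or `Finset.sum_bij'` with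
`d ↦ (gcd d m, gcd d n)`; Mathlib: `Nat.Coprime.sum_divisors_mul_of_isMultiplicative`.. or the proof of `ArithmeticFunction` multiplicativity); `j m n / (d₁ d₂) ^ 2 = (j m / d₁ ^ 2) n / d₂ ^ 2` (`d₁ ^ 2 ∣ j m`).
-/

namespace Pool.Agent.Lib.MP_06b9d2_tln

open PowerSeries Pool.Agent.L1
open Pool.Agent.Lib.MP_06b9d2_ssp (PO)
open Pool.Agent.Lib.MP_06b9d2_tls (Lv2 mo2 Two Tl U V)

theorem TN_coeff (n k : ℕ) (f : ℂ⟦X⟧) (m : ℕ) : coeff m (TN n k f) =
    ∑ d ∈ (Nat.gcd m n).divisors, ((d : ℂ) ^ k / d) * coeff (m * n / d ^ 2) f := by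
  exact coeff_mk m fun m => ∑ d ∈ (Nat.gcd m n).divisors, ((d : ℂ) ^ k / d) * coeff (m * n / d ^ 2) f

theorem TN_one (k : ℕ) : TN 1 k = LinearMap.id := by
  refine LinearMap.ext fun f => PowerSeries.ext fun m => ?_
  rw [TN_coeff, Nat.gcd_one_right, Nat.divisors_one, Finset.sum_singleton, Nat.cast_one, one_pow,
    div_one, one_mul, one_pow, Nat.div_one, mul_one, LinearMap.id_apply]

theorem TN_prime (l k : ℕ) (hl : l.Prime) (f : ℂ⟦X⟧) : TN l k f = Tl l k f := by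
  refine PowerSeries.ext fun m => ?_
  rw [TN_coeff]
  unfold Tl U V
  rw [map_add, coeff_smul, coeff_mk, coeff_mk, smul_eq_mul]
  by_cases hlm : l ∣ m
  · have e1 : (Nat.gcd m l).divisors = {1, l} := by
      rw [Nat.gcd_eq_right hlm, hl.divisors]
    rw [e1, Finset.sum_pair hl.one_lt.ne, if_pos hlm, Nat.cast_one, one_pow, div_one, one_mul, one_pow,
      Nat.div_one, mul_comm m l]
    congr 2
    obtain ⟨r, rfl⟩ := hlm
    rw [Nat.mul_div_cancel_left _ hl.pos, show l * (l * r) = r * l ^ 2 by ring,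
      Nat.mul_div_cancel _ (pow_pos hl.pos 2)]
  · have e1 : (Nat.gcd m l).divisors = {1} := by
      have : Nat.gcd m l = 1 := by
        rw [Nat.gcd_comm]
        exact (Nat.Prime.coprime_iff_not_dvd hl).2 hlm
      rw [this, Nat.divisors_one]
    rw [e1, Finset.sum_singleton, if_neg hlm, Nat.cast_one, one_pow, div_one, one_mul, one_pow,
      Nat.div_one, mul_zero, add_zero, mul_comm m l]

theorem TN_mul (m n k : ℕ) (hm : m ≠ 0) (hn : n ≠ 0) (hc : m.Coprime n) :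
    TN (m * n) k = TN m k ∘ₗ TN n k := by
  refine LinearMap.ext fun f => PowerSeries.ext fun j => ?_
  have hg : (Nat.gcd j m).Coprime (Nat.gcd j n) :=
    Nat.Coprime.of_dvd_left (Nat.gcd_dvd_right j m) (Nat.Coprime.of_dvd_right (Nat.gcd_dvd_right j n) hc)
  rw [LinearMap.comp_apply, TN_coeff, TN_coeff, Nat.Coprime.gcd_mul j hc, Nat.divisors_mul,
    Finset.mul_def, Finset.sum_image hg.mul_injOn_divisors, Finset.sum_product]
  refine Finset.sum_congr rfl fun d₁ h1 => ?_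
  have h1' := Nat.dvd_of_mem_divisors h1
  obtain ⟨a, ha⟩ := h1'.trans (Nat.gcd_dvd_left j m)
  obtain ⟨b, hb⟩ := h1'.trans (Nat.gcd_dvd_right j m)
  have hd0 : 0 < d₁ := Nat.pos_of_ne_zero fun h => hm (by rw [hb, h, Nat.zero_mul])
  have hd1 : Nat.Coprime d₁ n := Nat.Coprime.of_dvd_left ⟨b, hb⟩ hc
  have hb1 : Nat.Coprime b n := Nat.Coprime.of_dvd_left ⟨d₁, by rw [hb, Nat.mul_comm]⟩ hc
  have hq : j * m / d₁ ^ 2 = a * b := by
    rw [ha, hb, show d₁ * a * (d₁ * b) = a * b * d₁ ^ 2 by ring, Nat.mul_div_cancel _ (pow_pos hd0 2)]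
  have hgcd : Nat.gcd (j * m / d₁ ^ 2) n = Nat.gcd j n := by
    rw [hq, ha, Nat.Coprime.gcd_mul_right_cancel a hb1, Nat.Coprime.gcd_mul_left_cancel a hd1]
  rw [TN_coeff, Finset.mul_sum, hgcd]
  refine Finset.sum_congr rfl fun d₂ h2 => ?_
  have hi : j * (m * n) / (d₁ * d₂) ^ 2 = j * m / d₁ ^ 2 * n / d₂ ^ 2 := by
    rw [hq, ha, hb, show d₁ * a * (d₁ * b * n) = d₁ ^ 2 * (a * b * n) by ring, mul_pow,
      Nat.mul_div_mul_left _ _ (pow_pos hd0 2)]
  rw [hi, Nat.cast_mul, mul_pow, mul_div_mul_comm, mul_assoc]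

end Pool.Agent.Lib.MP_06b9d2_tln
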