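import Pool.Agent.Lib.MP_06b9d2_tln.OpA
import Pool.Agent.Lib.MP_06b9d2_tln.TNa
import Pool.Agent.Lib.MP_06b9d2_tl2.Low
import Pool.Agent.Lib.MP_06b9d2_tl2.PcMat
import Pool.Agent.Lib.MP_06b9d2_tl2.Cub

/-!
Module TLN-PrM. The matrix of `T_l` for a prime `l ≠ 2` on the level two forms.

All this is in the proof of `two_l2` in `MP_06b9d2_tl2/TwoL.lean`: `lv2'` (the three fields of `Lv2`), `rp_l`: the first bullet of the last part (`TT_Tl2`, `V_mo2`: private there, copy them), with `TN_prime`; `sy_l`: `hM.sym` (`Fin.rev ⟨j, _⟩ = ⟨N - j, _⟩`).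
`act_l`: `mtx l M N = (1 / l) • (the matrix M N j s)`, `pc_mat`, `pc_deg`, `act_op`, `op_kp`, `((l : ℂ) + l ^ (4 N + 2 e)) / l = 1 + l ^ (4 N + 2 e) / l`.
-/

namespace Pool.Agent.Lib.MP_06b9d2_tln

open PowerSeries Pool.Agent.L1
open Pool.Agent.Lib.MP_06b9d2_ssp (PO)
open Pool.Agent.Lib.MP_06b9d2_tls (Lv2 mo2 Two Tl U V)

open Pool.Agent.Lib.MP_06b9d2_tl2 (Core MatD pc)

variable {A Y : ℂ⟦X⟧} {l e : ℕ} {M : ℕ → ℕ → ℕ → ℂ}

open Pool.Agent.Lib.MP_06b9d2_tl2 (moX cubA cubG TT_V2 pc_mat pc_deg MG2)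
open Pool.Agent.Lib.MP_06b9d2_tls (TT V_inj V_sum V_smul V_mul V_pow V_sub V_ofNat V_add)

theorem lv2' (h : Core A Y) : Lv2 (A + 3 * Y) (8 * (Y * (A + Y))) := by
  have h20 : (2 : ℕ) ≠ 0 := two_ne_zero
  refine ⟨?_, ?_, ?_⟩
  · obtain ⟨α, κ, hA, hY, hα0, hκ0, _⟩ := h.int
    have e1 : ∀ f : ℤ⟦X⟧, constantCoeff f = 0 →
        constantCoeff (PowerSeries.map (Int.castRingHom ℂ) f) = 0 := by
      intro f hf
      rw [← coeff_zero_eq_constantCoeff_apply, coeff_map, coeff_zero_eq_constantCoeff_apply, hf, map_zero]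
    rw [hA, hY]
    simp only [map_add, map_mul, map_one, e1 α hα0, e1 κ hκ0, mul_zero, add_zero]
  · apply V_inj h20
    rw [h.h4, V_add h20, V_pow h20, cubA h, V_mul h20 3, cubG h, V_ofNat h20 3]
  · apply V_inj h20
    rw [h.h6, V_mul h20, V_sub h20, V_pow h20, cubA h, V_mul h20 9, cubG h, V_ofNat h20 9]

private theorem TT_Tl2 {l : ℕ} (hl : l ≠ 0) (v : ℕ) (f : ℂ⟦X⟧) :
    TT l l v f = (l : ℂ) • Tl l (2 * v) f := by
  have h2 : (l : ℂ) ≠ 0 := by exact_mod_cast hl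
  have h1 : ((l : ℂ) * l) ^ v = (l : ℂ) ^ (2 * v) := by
    rw [pow_mul, sq]
  rw [TT, Tl, h1, smul_add, smul_smul, mul_div_cancel₀ _ h2]

private theorem V_mo2 {A Y : ℂ⟦X⟧} (h : Core A Y) (e N s : ℕ) :
    V 2 (mo2 (A + 3 * Y) (8 * (Y * (A + Y))) e N s) = moX A Y e N s := by
  have h2 : (2 : ℕ) ≠ 0 := two_ne_zero
  unfold mo2 moX
  rw [V_mul h2, V_mul h2, V_pow h2, V_pow h2, V_pow h2, V_sub h2, V_pow h2, cubA h, cubG h]

theorem rp_l (h : Core A Y) (hl : l.Prime) (hl2 : l ≠ 2) (hM : MatD l A Y e M) (N : ℕ) :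
    Rp (mo2 (A + 3 * Y) (8 * (Y * (A + Y))) e N) (TN l (4 * N + 2 * e)) (mtx l M N) := by
  have hl0 : (l : ℂ) ≠ 0 := by exact_mod_cast hl.ne_zero
  have h20 : (2 : ℕ) ≠ 0 := two_ne_zero
  intro s
  have hs : (s : ℕ) ≤ N := Nat.lt_succ_iff.1 s.2
  rw [TN_prime l _ hl]
  have h1 : V 2 (TT l l (2 * N + e) (mo2 (A + 3 * Y) (8 * (Y * (A + Y))) e N s)) =
      V 2 (∑ j ∈ Finset.range (N + 1), M N j s • mo2 (A + 3 * Y) (8 * (Y * (A + Y))) e N j) := by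
    rw [← TT_V2 hl hl2, V_mo2 h, hM.eq N s hs, V_sum h20]
    refine Finset.sum_congr rfl fun j _ => ?_
    rw [V_smul h20, V_mo2 h]
  have h2 := V_inj h20 h1
  rw [TT_Tl2 hl.ne_zero, show 2 * (2 * N + e) = 4 * N + 2 * e by ring] at h2
  have h3 := congrArg (fun f => (l : ℂ)⁻¹ • f) h2
  simp only [smul_smul, inv_mul_cancel₀ hl0, one_smul, Finset.smul_sum] at h3
  rw [h3, ← Fin.sum_univ_eq_sum_range (fun j => ((l : ℂ)⁻¹ * M N j s) • mo2 (A + 3 * Y) (8 * (Y * (A + Y))) e N j)]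
  refine Finset.sum_congr rfl fun j _ => ?_
  unfold mtx
  rw [Matrix.of_apply, div_eq_inv_mul]

theorem sy_l (hM : MatD l A Y e M) (N : ℕ) : Sy (mtx l M N) := by
  intro j s
  unfold mtx
  rw [Matrix.of_apply, Matrix.of_apply, Fin.val_rev, Fin.val_rev]
  have h1 := hM.sym N j s (Nat.lt_succ_iff.1 j.2) (Nat.lt_succ_iff.1 s.2)
  rw [show N + 1 - ((j : ℕ) + 1) = N - j by omega, show N + 1 - ((s : ℕ) + 1) = N - s by omega, h1]

theorem act_l (h : Core A Y) (hl : l.Prime) (hl2 : l ≠ 2) (hM : MatD l A Y e M) (N : ℕ) (f : ℤ → ℂ)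
    (s : Fin (N + 1)) : act (mtx l M N) f s =
      (1 + (l : ℂ) ^ (4 * N + 2 * e) / l) * f ((s : ℕ) : ℤ) + (1 / l) * op (kp l e (pc M)) N f ((s : ℕ) : ℤ) := by
  have hl0 : (l : ℂ) ≠ 0 := by exact_mod_cast hl.ne_zero
  have hs : (s : ℕ) ≤ N := Nat.lt_succ_iff.1 s.2
  obtain ⟨M', hM'⟩ : ∃ M' : Mt N, M' = Matrix.of fun (j s : Fin (N + 1)) => M N j s := ⟨_, rfl⟩
  have h1 : mtx l M N = (1 / (l : ℂ)) • M' := by
    ext j s
    rw [hM', Matrix.smul_apply]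
    unfold mtx
    rw [Matrix.of_apply, Matrix.of_apply, smul_eq_mul]
    ring
  have h2 := act_op (N := N) (pc M) (fun m n r hr => pc_deg hM m n r hr) M' (fun j s => by
    rw [hM', Matrix.of_apply]
    exact pc_mat h hl hl2 hM N j s (Nat.lt_succ_iff.1 j.2) (Nat.lt_succ_iff.1 s.2)) f s
  rw [h1, act_smul, h2, op_kp l e N (pc M) f s hs]
  field_simp

end Pool.Agent.Lib.MP_06b9d2_tln
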