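import Pool.Agent.Lib.MP_06b9d2_tln.Defs

/-!
Module TLN-Luc. The Lucas polynomials.

`lu_four`: unfold three times (`ring`). `lu_odd`: by two step induction on `j`: `lu L (2 j + 5) = (X ^ 2 - 2 L) lu L (2 j + 3) - L ^ 2 lu L (2 j + 1)` (unfold) and `X * (lu (L ^ 2) (j + 2)).comp (X ^ 2 - C (2 L)) = (X ^ 2 - 2 L) X (..) - L ^ 2 X (..)`; `j = 0`: `X * 1`, `j = 1`: `lu L 3 = X (X ^ 2 - L) - L X`.
`lu_eval`: two step induction, `(1 + L) ∑_{i ≤ e + 1} L ^ i - L ∑_{i ≤ e} L ^ i = ∑_{i ≤ e + 2} L ^ i` (`Finset.sum_range_succ`, `Finset.sum_range_succ'`, `Finset.mul_sum`). `lu_pos`: `L = (x : ℂ)` with `x > 0` real: the sum is `((∑ x ^ i : ℝ) : ℂ)`, positive.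
-/

namespace Pool.Agent.Lib.MP_06b9d2_tln

open PowerSeries Pool.Agent.L1
open Pool.Agent.Lib.MP_06b9d2_ssp (PO)
open Pool.Agent.Lib.MP_06b9d2_tls (Lv2 mo2 Two Tl U V)

theorem lu_zero (L : ℂ) : lu L 0 = 1 := rfl

theorem lu_one (L : ℂ) : lu L 1 = Polynomial.X := rfl

theorem lu_step (L : ℂ) (e : ℕ) : lu L (e + 2) = Polynomial.X * lu L (e + 1) - Polynomial.C L * lu L e := rfl

theorem lu_two (L : ℂ) : lu L 2 = (Polynomial.X ^ 2 - Polynomial.C (2 * L)) + Polynomial.C L := by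
  rw [lu_step, zero_add, lu_one, lu_zero]
  simp only [map_mul, map_ofNat]
  ring

theorem lu_four (L : ℂ) (e : ℕ) : lu L (e + 4) =
    (Polynomial.X ^ 2 - Polynomial.C (2 * L)) * lu L (e + 2) - Polynomial.C (L ^ 2) * lu L e := by
  rw [lu_step L (e + 2), lu_step L (e + 1), lu_step L e]
  simp only [map_mul, map_ofNat, map_pow]
  ring

theorem lu_odd (L : ℂ) (j : ℕ) : lu L (2 * j + 1) =
    Polynomial.X * (lu (L ^ 2) j).comp (Polynomial.X ^ 2 - Polynomial.C (2 * L)) := by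
  have h : ∀ j : ℕ, lu L (2 * j + 1) =
      Polynomial.X * (lu (L ^ 2) j).comp (Polynomial.X ^ 2 - Polynomial.C (2 * L)) ∧
      lu L (2 * (j + 1) + 1) =
      Polynomial.X * (lu (L ^ 2) (j + 1)).comp (Polynomial.X ^ 2 - Polynomial.C (2 * L)) := by
    intro j
    induction j with
    | zero =>
      constructor
      · rw [mul_zero, zero_add, lu_one, lu_zero, Polynomial.one_comp, mul_one]
      · rw [show 2 * (0 + 1) + 1 = 1 + 2 from rfl, lu_step L 1, show 1 + 1 = 2 from rfl, lu_two,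
          lu_one, zero_add, lu_one, Polynomial.X_comp]
        simp only [map_mul, map_ofNat]
        ring
    | succ j ih =>
      refine ⟨ih.2, ?_⟩
      rw [show 2 * (j + 1 + 1) + 1 = (2 * j + 1) + 4 by ring, lu_four,
        show 2 * j + 1 + 2 = 2 * (j + 1) + 1 by ring, ih.1, ih.2, lu_step (L ^ 2) j,
        Polynomial.sub_comp, Polynomial.mul_comp, Polynomial.mul_comp, Polynomial.X_comp,
        Polynomial.C_comp]
      ring
  exact (h j).1

theorem lu_eval (L : ℂ) (e : ℕ) : (lu L e).eval (1 + L) = ∑ i ∈ Finset.range (e + 1), L ^ i := by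
  have h : ∀ e : ℕ, (lu L e).eval (1 + L) = ∑ i ∈ Finset.range (e + 1), L ^ i ∧
      (lu L (e + 1)).eval (1 + L) = ∑ i ∈ Finset.range (e + 2), L ^ i := by
    intro e
    induction e with
    | zero =>
      constructor
      · rw [lu_zero]
        simp
      · rw [zero_add, lu_one]
        simp [Finset.sum_range_succ]
    | succ e ih =>
      refine ⟨ih.2, ?_⟩
      rw [lu_step L e, Polynomial.eval_sub, Polynomial.eval_mul, Polynomial.eval_mul,
        Polynomial.eval_X, Polynomial.eval_C, ih.1, ih.2, Finset.sum_range_succ _ (e + 1),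
        Finset.sum_range_succ _ (e + 1 + 1), Finset.sum_range_succ _ (e + 1)]
      ring
  exact (h e).1

/-- the value at `1 + L` for the pair `(L ^ 2, 1 + L ^ 2)` -/
theorem lu_eval_odd (L : ℂ) (j : ℕ) : (lu L (2 * j + 1)).eval (1 + L) =
    (1 + L) * (lu (L ^ 2) j).eval (1 + L ^ 2) := by
  rw [lu_odd, Polynomial.eval_mul, Polynomial.eval_X, Polynomial.eval_comp, Polynomial.eval_sub,
    Polynomial.eval_pow, Polynomial.eval_X, Polynomial.eval_C]
  congr 2
  ring

theorem lu_pos (x : ℝ) (hx : 0 < x) (e : ℕ) : (lu (x : ℂ) e).eval (1 + (x : ℂ)) ≠ 0 := by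
  rw [lu_eval]
  have h : ∑ i ∈ Finset.range (e + 1), (x : ℂ) ^ i =
      ((∑ i ∈ Finset.range (e + 1), x ^ i : ℝ) : ℂ) := by
    push_cast
    rfl
  rw [h]
  refine Complex.ofReal_ne_zero.2 (ne_of_gt ?_)
  refine Finset.sum_pos (fun i _ => pow_pos hx i) ⟨0, by simp⟩

end Pool.Agent.Lib.MP_06b9d2_tln
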