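import Pool.Agent.Lib.MP_06b9d2_tln.Defs

/-!
Module TLN-Rpa. Matrices of linear maps: sums, products, polynomials; the same for symmetric matrices and for `act`.

`rp_mul`: `T₁ (T₂ (mo s)) = ∑_i M₂ i s • T₁ (mo i) = ∑_j (∑_i M₁ j i * M₂ i s) • mo j`, `Matrix.mul_apply`. `rp_aeval`, `sy_aeval`: `Polynomial.induction_on'` (or `Polynomial.induction_on`), from the other statements. `sy_mul`: reindex the sum by `Fin.rev` (`Fin.revPerm.sum_comp` / `Equiv.sum_comp`).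
`act_mul`: `∑_j (∑_i M₁ j i M₂ i s) f j = ∑_i M₂ i s (act M₁ f i)`; `F` is any function on `ℤ` with the values `act M₁ f i` at `i ≤ N`.
-/

namespace Pool.Agent.Lib.MP_06b9d2_tln

open PowerSeries Pool.Agent.L1
open Pool.Agent.Lib.MP_06b9d2_ssp (PO)
open Pool.Agent.Lib.MP_06b9d2_tls (Lv2 mo2 Two Tl U V)

variable {N : ℕ} {mo : ℕ → ℂ⟦X⟧} {T₁ T₂ : ℂ⟦X⟧ →ₗ[ℂ] ℂ⟦X⟧} {M₁ M₂ : Mt N}

theorem rp_one (mo : ℕ → ℂ⟦X⟧) : Rp mo LinearMap.id (1 : Mt N) := by
  intro s
  simp [Matrix.one_apply]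

theorem rp_mul (h₁ : Rp mo T₁ M₁) (h₂ : Rp mo T₂ M₂) : Rp mo (T₁ ∘ₗ T₂) (M₁ * M₂) := by
  intro s
  rw [LinearMap.comp_apply, h₂ s, map_sum]
  simp only [map_smul]
  have h3 : ∀ i : Fin (N + 1), M₂ i s • T₁ (mo (i : ℕ)) = ∑ j : Fin (N + 1), (M₁ j i * M₂ i s) • mo (j : ℕ) := by
    intro i
    rw [h₁ i, Finset.smul_sum]
    refine Finset.sum_congr rfl fun j _ => ?_
    rw [smul_smul, mul_comm]
  rw [Finset.sum_congr rfl fun i _ => h3 i, Finset.sum_comm]
  refine Finset.sum_congr rfl fun j _ => ?_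
  rw [← Finset.sum_smul, Matrix.mul_apply]

theorem rp_add (h₁ : Rp mo T₁ M₁) (h₂ : Rp mo T₂ M₂) : Rp mo (T₁ + T₂) (M₁ + M₂) := by
  intro s
  rw [LinearMap.add_apply, h₁ s, h₂ s, ← Finset.sum_add_distrib]
  refine Finset.sum_congr rfl fun j _ => ?_
  rw [Matrix.add_apply, add_smul]

theorem rp_smul (z : ℂ) (h₁ : Rp mo T₁ M₁) : Rp mo (z • T₁) (z • M₁) := by
  intro s
  rw [LinearMap.smul_apply, h₁ s, Finset.smul_sum]
  refine Finset.sum_congr rfl fun j _ => ?_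
  rw [Matrix.smul_apply, smul_assoc]

theorem rp_aeval (h₁ : Rp mo T₁ M₁) (p : Polynomial ℂ) :
    Rp mo (Polynomial.aeval (R := ℂ) (A := Module.End ℂ ℂ⟦X⟧) T₁ p) (Polynomial.aeval M₁ p) := by
  induction p using Polynomial.induction_on' with
  | add p q hp hq =>
    rw [map_add, map_add]
    exact rp_add hp hq
  | monomial n a =>
    rw [Polynomial.aeval_monomial, Polynomial.aeval_monomial, ← Algebra.smul_def, ← Algebra.smul_def]
    refine rp_smul a ?_
    induction n with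
    | zero =>
      rw [pow_zero, pow_zero]
      exact rp_one mo
    | succ n ih =>
      rw [pow_succ, pow_succ]
      exact rp_mul ih h₁

theorem sy_one : Sy (1 : Mt N) := by
  intro j s
  simp only [Matrix.one_apply, Fin.rev_inj]

theorem sy_mul (h₁ : Sy M₁) (h₂ : Sy M₂) : Sy (M₁ * M₂) := by
  intro j s
  rw [Matrix.mul_apply, Matrix.mul_apply, ← Equiv.sum_comp Fin.revPerm]
  refine Finset.sum_congr rfl fun i _ => ?_
  rw [Fin.revPerm_apply, h₁ j i, h₂ i s]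

theorem sy_add (h₁ : Sy M₁) (h₂ : Sy M₂) : Sy (M₁ + M₂) := by
  intro j s
  rw [Matrix.add_apply, Matrix.add_apply, h₁ j s, h₂ j s]

theorem sy_smul (z : ℂ) (h₁ : Sy M₁) : Sy (z • M₁) := by
  intro j s
  rw [Matrix.smul_apply, Matrix.smul_apply, h₁ j s]

theorem sy_aeval (h₁ : Sy M₁) (p : Polynomial ℂ) : Sy (Polynomial.aeval M₁ p) := by
  induction p using Polynomial.induction_on' with
  | add p q hp hq =>
    rw [map_add]
    exact sy_add hp hq
  | monomial n a =>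
    rw [Polynomial.aeval_monomial, ← Algebra.smul_def]
    refine sy_smul a ?_
    induction n with
    | zero =>
      rw [pow_zero]
      exact sy_one
    | succ n ih =>
      rw [pow_succ]
      exact sy_mul ih h₁

theorem act_mul (M₁ M₂ : Mt N) (f F : ℤ → ℂ) (hF : ∀ i : Fin (N + 1), act M₁ f i = F ((i : ℕ) : ℤ))
    (s : Fin (N + 1)) : act (M₁ * M₂) f s = act M₂ F s := by
  unfold act
  have h1 : ∀ i : Fin (N + 1), M₂ i s * F ((i : ℕ) : ℤ) =
      ∑ j : Fin (N + 1), M₁ j i * M₂ i s * f ((j : ℕ) : ℤ) := by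
    intro i
    rw [← hF i, act, Finset.mul_sum]
    refine Finset.sum_congr rfl fun j _ => ?_
    ring
  rw [Finset.sum_congr rfl fun i _ => h1 i, Finset.sum_comm]
  refine Finset.sum_congr rfl fun j _ => ?_
  rw [Matrix.mul_apply, Finset.sum_mul]

theorem act_one (f : ℤ → ℂ) (s : Fin (N + 1)) : act (1 : Mt N) f s = f ((s : ℕ) : ℤ) := by
  simp [act, Matrix.one_apply]

theorem act_add (M₁ M₂ : Mt N) (f : ℤ → ℂ) (s : Fin (N + 1)) :
    act (M₁ + M₂) f s = act M₁ f s + act M₂ f s := by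
  simp only [act, Matrix.add_apply, add_mul, Finset.sum_add_distrib]

theorem act_smul (z : ℂ) (M₁ : Mt N) (f : ℤ → ℂ) (s : Fin (N + 1)) : act (z • M₁) f s = z * act M₁ f s := by
  simp only [act, Matrix.smul_apply, smul_eq_mul, Finset.mul_sum, mul_assoc]

end Pool.Agent.Lib.MP_06b9d2_tln
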