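import Pool.Agent.Lib.MP_06b9d2_tln.TNa

/-!
Module TLN-TNb. The Hecke operators `T_{l ^ e}` on power series.

`TN_pp`: coefficient `j` of `TN (l ^ e) k f` is `∑_{i ≤ e, l ^ i ∣ j} L ^ i f_{(j / l ^ i) l ^ (e - i)}`, `L = l ^ k / l`: the divisors of `gcd j (l ^ e)` are the `l ^ i`, `i ≤ e`, `l ^ i ∣ j` (`Nat.dvd_prime_pow`, `Nat.divisors_prime_pow`; also for `j = 0`), `(l ^ i) ^ k / l ^ i = L ^ i`, and
`j l ^ e / (l ^ i) ^ 2 = (j / l ^ i) l ^ (e - i)`.
`TN_rec`: with `TN_pp` and `TN_prime`: `T_l g = U l g + L • V l g`. `(T_l T_{l ^ (e + 1)} f)_j = (T_{l ^ (e + 1)} f)_{l j} + [l ∣ j] L (T_{l ^ (e + 1)} f)_{j / l}`. First term: `∑_{i ≤ e + 1, l ^ i ∣ l j} L ^ i f_{(l j / l ^ i) l ^ (e + 1 - i)}`: `i = 0` gives `f_{j l ^ (e + 2)}`, the terms `i = i' + 1`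
(`l ^ i' ∣ j`, `i' ≤ e`) give `L (T_{l ^ e} f)_j`. Second term: `∑_{i ≤ e + 1, l ^ (i + 1) ∣ j} L ^ (i + 1) f_{(j / l ^ (i + 1)) l ^ (e + 1 - i)}`, together with `f_{j l ^ (e + 2)}` this is `(T_{l ^ (e + 2)} f)_j`. (`Finset.sum_range_succ'`.)
`TN_lu`: two step induction with `TN_one`, `TN_rec` (`Module.End`: `mul` is composition; `Polynomial.aeval` of `lu`).
-/

namespace Pool.Agent.Lib.MP_06b9d2_tln

open PowerSeries Pool.Agent.L1
open Pool.Agent.Lib.MP_06b9d2_ssp (PO)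
open Pool.Agent.Lib.MP_06b9d2_tls (Lv2 mo2 Two Tl U V)

theorem TN_pp (l k e : ℕ) (hl : l.Prime) (f : ℂ⟦X⟧) (j : ℕ) : coeff j (TN (l ^ e) k f) =
    ∑ i ∈ Finset.range (e + 1), if l ^ i ∣ j then ((l : ℂ) ^ k / l) ^ i * coeff (j / l ^ i * l ^ (e - i)) f
      else 0 := by
  rw [TN_coeff]
  have hg : (Nat.gcd j (l ^ e)).divisors = (l ^ e).divisors.filter (fun d => d ∣ j) := by
    ext d
    rw [Finset.mem_filter, Nat.mem_divisors, Nat.mem_divisors, Nat.dvd_gcd_iff]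
    have h0 : l ^ e ≠ 0 := pow_ne_zero _ hl.ne_zero
    have h1 : Nat.gcd j (l ^ e) ≠ 0 := by
      intro h
      exact h0 (Nat.eq_zero_of_gcd_eq_zero_right h)
    tauto
  rw [hg, Finset.sum_filter, Nat.divisors_prime_pow hl, Finset.sum_map]
  refine Finset.sum_congr rfl fun i hi => ?_
  simp only [Function.Embedding.coeFn_mk]
  by_cases h : l ^ i ∣ j
  · rw [if_pos h, if_pos h]
    obtain ⟨j', rfl⟩ := h
    have hli : 0 < l ^ i := pow_pos hl.pos i
    have hie : i ≤ e := Nat.lt_succ_iff.1 (Finset.mem_range.1 hi)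
    have h1 : l ^ i * j' * l ^ e / (l ^ i) ^ 2 = j' * l ^ (e - i) := by
      refine Nat.div_eq_of_eq_mul_right (by positivity) ?_
      have : l ^ e = l ^ i * l ^ (e - i) := by rw [← pow_add, Nat.add_sub_cancel' hie]
      rw [this]; ring
    rw [h1, Nat.mul_div_cancel_left _ hli]
    congr 1
    push_cast
    rw [div_pow, ← pow_mul, ← pow_mul, mul_comm i k]
  · rw [if_neg h, if_neg h]

theorem TN_rec (l k e : ℕ) (hl : l.Prime) : TN (l ^ (e + 2)) k =
    TN l k ∘ₗ TN (l ^ (e + 1)) k - ((l : ℂ) ^ k / l) • TN (l ^ e) k := by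
  ext f j
  rw [LinearMap.sub_apply, LinearMap.comp_apply, LinearMap.smul_apply, map_sub, TN_prime l k hl, map_smul,
    smul_eq_mul, TN_pp l k (e + 2) hl, TN_pp l k e hl]
  set L : ℂ := (l : ℂ) ^ k / l with hL
  have hl0 : 0 < l := hl.pos
  have hT : coeff j (Tl l k (TN (l ^ (e + 1)) k f)) = coeff (l * j) (TN (l ^ (e + 1)) k f) +
      L * (if l ∣ j then coeff (j / l) (TN (l ^ (e + 1)) k f) else 0) := by
    simp [Tl, U, V, hL]
  rw [hT, TN_pp l k (e + 1) hl, Finset.sum_range_succ' _ (e + 1), Finset.sum_range_succ' _ (e + 2)]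
  have h1 : ∀ i ∈ Finset.range (e + 1),
      (if l ^ (i + 1) ∣ l * j then L ^ (i + 1) * coeff (l * j / l ^ (i + 1) * l ^ (e + 1 - (i + 1))) f else 0) =
      L * (if l ^ i ∣ j then L ^ i * coeff (j / l ^ i * l ^ (e - i)) f else 0) := by
    intro i _
    have h2 : l ^ (i + 1) ∣ l * j ↔ l ^ i ∣ j := by
      rw [pow_succ']
      exact Nat.mul_dvd_mul_iff_left hl0
    have h3 : l * j / l ^ (i + 1) = j / l ^ i := by
      rw [pow_succ']
      exact Nat.mul_div_mul_left _ _ hl0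
    by_cases h : l ^ i ∣ j
    · rw [if_pos (h2.2 h), if_pos h, h3, Nat.add_sub_add_right, pow_succ]
      ring
    · rw [if_neg (fun h' => h (h2.1 h')), if_neg h, mul_zero]
  rw [Finset.sum_congr rfl h1, ← Finset.mul_sum]
  have h4 : L * (if l ∣ j then coeff (j / l) (TN (l ^ (e + 1)) k f) else 0) =
      ∑ i ∈ Finset.range (e + 2),
        (if l ^ (i + 1) ∣ j then L ^ (i + 1) * coeff (j / l ^ (i + 1) * l ^ (e + 2 - (i + 1))) f else 0) := by
    by_cases h : l ∣ j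
    · rw [if_pos h, TN_pp l k (e + 1) hl, Finset.mul_sum]
      refine Finset.sum_congr rfl fun i _ => ?_
      obtain ⟨j', rfl⟩ := h
      have h2 : l ^ (i + 1) ∣ l * j' ↔ l ^ i ∣ j' := by
        rw [pow_succ']
        exact Nat.mul_dvd_mul_iff_left hl0
      have h3 : l * j' / l ^ (i + 1) = j' / l ^ i := by
        rw [pow_succ']
        exact Nat.mul_div_mul_left _ _ hl0
      rw [Nat.mul_div_cancel_left _ hl0]
      by_cases h' : l ^ i ∣ j'
      · rw [if_pos h', if_pos (h2.2 h'), h3, show e + 2 - (i + 1) = e + 1 - i by omega, pow_succ]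
        ring
      · rw [if_neg h', if_neg (fun h'' => h' (h2.1 h'')), mul_zero]
    · rw [if_neg h, mul_zero]
      symm
      refine Finset.sum_eq_zero fun i _ => ?_
      rw [if_neg]
      intro h'
      exact h (dvd_trans (dvd_pow_self l (by omega)) h')
  rw [h4]
  simp only [pow_zero, one_dvd, if_true, one_mul, Nat.div_one, Nat.sub_zero]
  have h5 : l * j * l ^ (e + 1) = j * l ^ (e + 2) := by ring
  rw [h5]
  ring

theorem TN_lu (l k e : ℕ) (hl : l.Prime) :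
    TN (l ^ e) k = Polynomial.aeval (R := ℂ) (A := Module.End ℂ ℂ⟦X⟧) (TN l k) (lu ((l : ℂ) ^ k / l) e) := by
  induction e using Nat.twoStepInduction with
  | zero =>
    rw [pow_zero, TN_one, lu, map_one]
    rfl
  | one =>
    rw [pow_one, lu, Polynomial.aeval_X]
  | more e ih1 ih2 =>
    rw [TN_rec l k e hl, lu, map_sub, map_mul, map_mul, Polynomial.aeval_X, Polynomial.aeval_C, ← ih1, ← ih2,
      ← Algebra.smul_def]
    rfl

end Pool.Agent.Lib.MP_06b9d2_tln
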