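import Pool.Agent.Lib.MP_06b9d2_tl2.Cl

/-!
Module TLN-Ar1. The number `c = Lc l a k 3 1` for `l ≡ 1` modulo `8`, and modulo `4`, `8` for `l ≡ 3` modulo `8`, `l ≡ 7` modulo `16`. (Methods of `MP_06b9d2_tl2/Cl.lean`.)

`cl1`: `c ≡ S1 = [k E k]_l` modulo `8` (`lc8`); `S1 = ∑_{i + 2 j = l} κ_i κ_j`, `j` odd: `j ≡ 1` mod `4`: `i = l - 2 j ≡ 7` mod `8`, `8 ∣ κ_i` (`kf7`); `j ≡ 3` mod `4`: `i ≡ 3` mod `8`, `4 ∣ κ_i` (`kf3`) and `4 ∣ κ_j` (`kf3`, `kf7`).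
`cl3'`: `(l ^ 2 - 1) / 8 ≡ S1 + 7 S2 + S3` modulo `8` (as in `Cl`, from `dg` and `κ_l = 1 + l`), `S2 = [k E E k]_l = ∑_{i + 4 j = l} κ_i κ_j` (`j` odd): `i ≡ 7` mod `8`, `8 ∣ κ_i`; `S3 = [k E E E w]_l`: `i ≡ 3` mod `8`, `4 ∣ κ_i`: so `c ≡ S1 ≡ (l ^ 2 - 1) / 8` modulo `4`.
`cl7'` (`l ≡ 7` mod `16`), as in the proof of `cl15`: `S3`: `i ≡ 7`, `8 ∣ κ_i`. `S2`: `i = l - 4 j ≡ 3` mod `8`, `κ_i = 4 t_i`, `t_i ≡ [k E k]_i` (`kt3`): `S2 ≡ 4 T` mod `8`, `T = [k E k * E (E k)]_l`. `S1 = ∑_{i + 2 j = l} κ_i κ_j`: `j ≡ 1` mod `4`: `i ≡ 5` mod `8`, `κ_i = 2 t_i`, `t_i ≡ [k E E k]_i` (`kt5`);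
`j ≡ 3` mod `4`: `4 ∣ κ_j`. So `S1 ≡ 2 T` mod `4`. Modulo `4`: `S1 ≡ (l ^ 2 - 1) / 8 ≡ 2` (`S2 ≡ 0`), so `T` is odd, `S2 ≡ 4` modulo `8` and `c ≡ S1 ≡ (l ^ 2 - 1) / 8 - 28 ≡ (l ^ 2 - 1) / 8 + 4` modulo `8`. (Numerically: `l = 7`: `c = 378`; `l = 23`: `c = 1564686`; `l = 71`: `c = 4179743370`; `l = 3, 11, 19`: `c = 1, 8955, 410805`.)
-/

namespace Pool.Agent.Lib.MP_06b9d2_tln

open PowerSeries Pool.Agent.L1
open Pool.Agent.Lib.MP_06b9d2_tl2 (Core MatD pc Qd Lc E)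
open Pool.Agent.Lib.MP_06b9d2_tl2 (E_even E_odd E_mul E_add E_int dvd_co dg lc8 kf3 kf5 kf7 kt3 kt5 kek7)

variable {A Y : ℂ⟦X⟧} {a k : ℤ⟦X⟧}

private theorem Ar1_cl_ek (q : Qd A Y a k) (j : ℕ) : coeff j (E k) = 0 ∨
    ∃ m, j = 2 * m ∧ m % 2 = 1 ∧ coeff j (E k) = coeff m k := by
  rcases Nat.even_or_odd' j with ⟨m, rfl | rfl⟩
  · rcases Nat.mod_two_eq_zero_or_one m with h | h
    · left
      rw [E_even, q.grk m h]
    · right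
      exact ⟨m, rfl, h, E_even k m⟩
  · left
    exact E_odd k _ (by omega)

private theorem Ar1_cl_eek (q : Qd A Y a k) (j : ℕ) : coeff j (E (E k)) = 0 ∨
    ∃ m, j = 4 * m ∧ m % 2 = 1 := by
  rcases Nat.even_or_odd' j with ⟨m, rfl | rfl⟩
  · rcases Ar1_cl_ek q m with h | ⟨n, rfl, hn, -⟩
    · left
      rw [E_even, h]
    · right
      exact ⟨n, by ring, hn⟩
  · left
    exact E_odd _ _ (by omega)

private theorem Ar1_cl_eee (w : ℤ⟦X⟧) (j : ℕ) : coeff j (E (E (E w))) = 0 ∨ ∃ m, j = 8 * m := by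
  rcases Nat.even_or_odd' j with ⟨m, rfl | rfl⟩
  · rcases Nat.even_or_odd' m with ⟨n, rfl | rfl⟩
    · rcases Nat.even_or_odd' n with ⟨r, rfl | rfl⟩
      · right
        exact ⟨r, by ring⟩
      · left
        rw [E_even, E_even, E_odd _ _ (by omega)]
    · left
      rw [E_even, E_odd _ _ (by omega)]
  · left
    exact E_odd _ _ (by omega)

private theorem Ar1_cl_d1 (q : Qd A Y a k) (D : ℤ) (f : ℤ⟦X⟧) (l : ℕ)
    (h : ∀ i m, i + 2 * m = l → m % 2 = 1 → D ∣ coeff i f * coeff m k) : D ∣ coeff l (f * E k) := by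
  refine dvd_co D _ _ _ fun i j hij => ?_
  rcases Ar1_cl_ek q j with h0 | ⟨m, rfl, hm, h1⟩
  · rw [h0, mul_zero]
    exact dvd_zero _
  · rw [h1]
    exact h i m hij hm

private theorem Ar1_cl_d2 (q : Qd A Y a k) (D : ℤ) (f : ℤ⟦X⟧) (l : ℕ)
    (h : ∀ i, i % 8 = (l + 4) % 8 → D ∣ coeff i f) : D ∣ coeff l (f * E (E k)) := by
  refine dvd_co D _ _ _ fun i j hij => ?_
  rcases Ar1_cl_eek q j with h0 | ⟨m, rfl, hm⟩
  · rw [h0, mul_zero]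
    exact dvd_zero _
  · exact Dvd.dvd.mul_right (h i (by omega)) _

private theorem Ar1_cl_d3 (D : ℤ) (f w : ℤ⟦X⟧) (l : ℕ)
    (h : ∀ i, i % 8 = l % 8 → D ∣ coeff i f) : D ∣ coeff l (f * E (E (E w))) := by
  refine dvd_co D _ _ _ fun i j hij => ?_
  rcases Ar1_cl_eee w j with h0 | ⟨m, rfl⟩
  · rw [h0, mul_zero]
    exact dvd_zero _
  · exact Dvd.dvd.mul_right (h i (by omega)) _

private theorem Ar1_cl_C (n : ℤ) (f : ℤ⟦X⟧) (l : ℕ) : coeff l (C n * f) = n * coeff l f :=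
  PowerSeries.coeff_C_mul _ _ _

private theorem Ar1_cl_main (q : Qd A Y a k) (l : ℕ) (hk : coeff l k = 1 + (l : ℤ)) : ∃ (w : ℤ⟦X⟧) (y : ℤ),
    ((l : ℤ) - 1) * (1 + l) = 8 * (coeff l (k * E k) + 7 * coeff l (k * E (E k)) +
      coeff l (k * E (E (E w))) + 8 * y) := by
  obtain ⟨g, w, y, h1, h2⟩ := dg q
  refine ⟨w, coeff l (k * y), ?_⟩
  have h3 := h1 l
  have c7 : (7 : ℤ⟦X⟧) = C (7 : ℤ) := (map_ofNat C 7).symm
  have c8 : (8 : ℤ⟦X⟧) = C (8 : ℤ) := (map_ofNat C 8).symm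
  have h4 : k * g = k * E k + C (7 : ℤ) * (k * E (E k)) + k * E (E (E w)) + C (8 : ℤ) * (k * y) := by
    rw [h2, ← c7, ← c8]
    ring
  rw [hk, h4, map_add, map_add, map_add, Ar1_cl_C, Ar1_cl_C] at h3
  exact h3

theorem cl1 (q : Qd A Y a k) (l : ℕ) (h8 : l % 8 = 1) : (8 : ℤ) ∣ Lc l a k 3 1 := by
  obtain ⟨s1, h1⟩ := Ar1_cl_d1 q 8 k l fun i m him hm1 => by
    have h6 : m % 4 = 1 ∨ m % 4 = 3 := by omega
    rcases h6 with h6 | h6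
    · exact Dvd.dvd.mul_right (kf7 q i (by omega)) _
    · have e1 : (4 : ℤ) ∣ coeff i k := kf3 q i (by omega)
      have e2 : (4 : ℤ) ∣ coeff m k := by
        have h7 : m % 8 = 3 ∨ m % 8 = 7 := by omega
        rcases h7 with h7 | h7
        · exact kf3 q m h7
        · have := kf7 q m h7
          omega
      exact dvd_trans (by norm_num) (mul_dvd_mul e1 e2)
  obtain ⟨c, hc⟩ := lc8 q l
  omega

theorem cl3' (q : Qd A Y a k) (l : ℕ) (hk : coeff l k = 1 + (l : ℤ)) (h8 : l % 8 = 3) :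
    (4 : ℤ) ∣ Lc l a k 3 1 - ((l : ℤ) ^ 2 - 1) / 8 := by
  obtain ⟨w, y, hm⟩ := Ar1_cl_main q l hk
  obtain ⟨s2, h2⟩ := Ar1_cl_d2 q 4 k l fun i hi => by
    have := kf7 q i (by omega)
    omega
  obtain ⟨s3, h3⟩ := Ar1_cl_d3 4 k w l fun i hi => kf3 q i (by omega)
  obtain ⟨c, hc⟩ := lc8 q l
  have h1 : ((l : ℤ) ^ 2 - 1) / 8 = coeff l (k * E k) + 7 * coeff l (k * E (E k)) +
      coeff l (k * E (E (E w))) + 8 * y := by
    have e : (l : ℤ) ^ 2 - 1 = 8 * (coeff l (k * E k) + 7 * coeff l (k * E (E k)) +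
      coeff l (k * E (E (E w))) + 8 * y) := by
      rw [← hm]
      ring
    rw [e]
    exact Int.mul_ediv_cancel_left _ (by norm_num)
  rw [h1]
  omega

theorem cl7' (q : Qd A Y a k) (l : ℕ) (hk : coeff l k = 1 + (l : ℤ)) (h16 : l % 16 = 7) :
    (8 : ℤ) ∣ Lc l a k 3 1 - ((l : ℤ) ^ 2 - 1) / 8 - 4 := by
  obtain ⟨w, y, hm⟩ := Ar1_cl_main q l hk
  obtain ⟨t, ht⟩ : ∃ t : ℕ, l = 16 * t + 7 := ⟨l / 16, by omega⟩
  obtain ⟨s3, h3⟩ := Ar1_cl_d3 8 k w l fun i hi => kf7 q i (by omega)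
  obtain ⟨c, hc⟩ := lc8 q l
  have h4 : (8 : ℤ) ∣ coeff l ((k - C (4 : ℤ) * (k * E k)) * E (E k)) := by
    refine Ar1_cl_d2 q 8 _ l fun i hi => ?_
    rw [map_sub, Ar1_cl_C]
    obtain ⟨t', s', e1, e2⟩ := kt3 q i (by omega)
    rw [e1, e2]
    omega
  have h4' : (k - C (4 : ℤ) * (k * E k)) * E (E k) = k * E (E k) - C (4 : ℤ) * (k * E k * E (E k)) := by ring
  rw [h4', map_sub, Ar1_cl_C] at h4
  have h5 : (4 : ℤ) ∣ coeff l ((k - C (2 : ℤ) * (k * E (E k))) * E k) := by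
    refine Ar1_cl_d1 q 4 _ l fun i m him hm1 => ?_
    have h6 : m % 4 = 1 ∨ m % 4 = 3 := by omega
    rcases h6 with h6 | h6
    · refine Dvd.dvd.mul_right ?_ _
      rw [map_sub, Ar1_cl_C]
      obtain ⟨t', s', e1, e2⟩ := kt5 q i (by omega)
      rw [e1, e2]
      omega
    · refine Dvd.dvd.mul_left ?_ _
      have h7 : m % 8 = 3 ∨ m % 8 = 7 := by omega
      rcases h7 with h7 | h7
      · exact kf3 q m h7
      · have := kf7 q m h7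
        omega
  have h5' : (k - C (2 : ℤ) * (k * E (E k))) * E k = k * E k - C (2 : ℤ) * (k * E k * E (E k)) := by ring
  rw [h5', map_sub, Ar1_cl_C] at h5
  have h0 : ((l : ℤ) ^ 2 - 1) / 8 = coeff l (k * E k) + 7 * coeff l (k * E (E k)) +
      coeff l (k * E (E (E w))) + 8 * y := by
    have e : (l : ℤ) ^ 2 - 1 = 8 * (coeff l (k * E k) + 7 * coeff l (k * E (E k)) +
      coeff l (k * E (E (E w))) + 8 * y) := by
      rw [← hm]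
      ring
    rw [e]
    exact Int.mul_ediv_cancel_left _ (by norm_num)
  have h1 : coeff l (k * E k) + 7 * coeff l (k * E (E k)) + coeff l (k * E (E (E w))) + 8 * y =
      4 * (8 * (t : ℤ) * t + 7 * t + 1) + 2 := by
    have : (8 : ℤ) * (coeff l (k * E k) + 7 * coeff l (k * E (E k)) + coeff l (k * E (E (E w))) + 8 * y) =
        8 * (4 * (8 * (t : ℤ) * t + 7 * t + 1) + 2) := by
      rw [← hm, ht]
      push_cast
      ring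
    exact mul_left_cancel₀ (by norm_num) this
  generalize 8 * (t : ℤ) * t + 7 * t + 1 = n at h1
  obtain ⟨v, hv⟩ := h4
  obtain ⟨v', hv'⟩ := h5
  rw [h0]
  omega

end Pool.Agent.Lib.MP_06b9d2_tln
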