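import Pool.Agent.Lib.MP_06b9d2_tln.Defs

/-!
Module TLN-Ar2. The constant `c = 1 + l ^ k / l`.

`arL`: `k` even, `l` odd: `l + l ^ k = (l + 1) u`, `u` odd: `k = 0`: `u = 1`; `k = 2 t + 2`: `l ^ (2 t + 1) + 1 = (l + 1) (l ^ (2 t) - l ^ (2 t - 1) + ..)` (`Odd.add_pow`, `Odd.nat_add_dvd_pow_add_pow`), an odd number of odd terms; or by induction: `l ^ (2 t + 3) + 1 = l ^ 2 (l ^ (2 t + 1) + 1) - (l ^ 2 - 1)`, `u' = l ^ 2 u - (l - 1)`, with the factor `l`.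
`arC`: `v c` for `l + 1 = 2 ^ j w`, `w` odd: `c l = (l + 1) u`. `ar_b`: the congruence for the universal operator: `k = 4 N + 2 e`; modulo `16` resp. `32` (`l ≡ 3` mod `8`: `l ^ 4 ≡ 1` mod `16`; `l ≡ 7` mod `16`: `l ^ 2 ≡ 17`, `l ^ 4 ≡ 1` mod `32`): `l ^ k ≡ l ^ (2 e)`; `e = 0`: `4 l c' - 3 (l + 1)`, `e = 1`: `4 l c' - (l + l ^ 2)`, where `c' ≡ (l ^ 2 - 1) / 8`
(mod `4`), resp. `(l ^ 2 - 1) / 8 + 4` (mod `8`). With `l = 8 j + 3`: `(l ^ 2 - 1) / 8 = 8 j ^ 2 + 6 j + 1`; `l = 16 j + 7`: `(l ^ 2 - 1) / 8 = 32 j ^ 2 + 28 j + 6`: it is enough to check the residues of `j`, `c'` modulo `16`, `32` (`Int.emod_emod_of_dvd`, `decide`, or `ring_nf` and `omega`).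
-/

namespace Pool.Agent.Lib.MP_06b9d2_tln

open PowerSeries Pool.Agent.L1
open Pool.Agent.Lib.MP_06b9d2_ssp (PO)
open Pool.Agent.Lib.MP_06b9d2_tls (Lv2 mo2 Two Tl U V)

theorem arL (l k : ℕ) (hl : l % 2 = 1) (hk : k % 2 = 0) : ∃ u : ℤ, u % 2 = 1 ∧
    (l : ℤ) + (l : ℤ) ^ k = ((l : ℤ) + 1) * u := by
  obtain ⟨t, rfl⟩ : ∃ t, k = 2 * t := ⟨k / 2, by omega⟩
  have hl' : (l : ℤ) % 2 = 1 := by omega
  induction t with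
  | zero => exact ⟨1, by norm_num, by simp⟩
  | succ t ih =>
    obtain ⟨u, hu, h⟩ := ih (by omega)
    refine ⟨(l : ℤ) ^ 2 * u - l * (l - 1), ?_, ?_⟩
    · obtain ⟨a, ha⟩ : ∃ a : ℤ, (l : ℤ) = 2 * a + 1 := ⟨(l : ℤ) / 2, by omega⟩
      obtain ⟨b, hb⟩ : ∃ b : ℤ, u = 2 * b + 1 := ⟨u / 2, by omega⟩
      have : (l : ℤ) ^ 2 * u - l * (l - 1)
          = 2 * (4 * a ^ 2 * b + 4 * a * b + b + 2 * a ^ 2 + 2 * a - 2 * a ^ 2 - a) + 1 := by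
        rw [ha, hb]; ring
      omega
    · have e : (l : ℤ) ^ (2 * (t + 1)) = (l : ℤ) ^ 2 * (l : ℤ) ^ (2 * t) := by ring
      rw [e]
      linear_combination (l : ℤ) ^ 2 * h

private theorem Ar2_odd {O : ValuationSubring ℂ} (h2 : O.valuation 2 < 1) (u : ℤ) (hu : u % 2 = 1) :
    O.valuation (u : ℂ) = 1 := by
  obtain ⟨b, hb⟩ : ∃ b : ℤ, u = 2 * b + 1 := ⟨u / 2, by omega⟩
  have hb1 : O.valuation ((b : ℤ) : ℂ) ≤ 1 := (O.valuation_le_one_iff _).2 (intCast_mem O b)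
  have h : O.valuation (2 * (b : ℂ)) < 1 := by
    rw [map_mul]
    exact lt_of_le_of_lt (mul_le_of_le_one_right' hb1) h2
  have e : (u : ℂ) = 1 + 2 * (b : ℂ) := by
    rw [hb]; push_cast; ring
  rw [e]
  exact Valuation.map_one_add_of_lt _ h

theorem arC {O : ValuationSubring ℂ} (h2 : O.valuation 2 < 1) (l k j : ℕ) (w : ℤ) (hl : l % 2 = 1)
    (hk : k % 2 = 0) (hw : w % 2 = 1) (h : (l : ℤ) + 1 = 2 ^ j * w) :
    O.valuation (1 + (l : ℂ) ^ k / l) = O.valuation (2 ^ j) := by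
  obtain ⟨u, hu, hlu⟩ := arL l k hl hk
  have hl0 : (l : ℂ) ≠ 0 := by
    have : l ≠ 0 := by rintro rfl; omega
    exact_mod_cast this
  have e : (1 + (l : ℂ) ^ k / l) * (l : ℂ) = 2 ^ j * ((w : ℤ) : ℂ) * ((u : ℤ) : ℂ) := by
    have h1 : ((l : ℤ) + (l : ℤ) ^ k) = 2 ^ j * w * u := by rw [hlu, h]
    have h2 : ((l : ℂ) + (l : ℂ) ^ k) = 2 ^ j * ((w : ℤ) : ℂ) * ((u : ℤ) : ℂ) := by exact_mod_cast h1
    rw [← h2]
    field_simp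
  have hv := congrArg O.valuation e
  have hlv : O.valuation (l : ℂ) = 1 := by
    have := Ar2_odd h2 (l : ℤ) (by omega)
    simpa using this
  rw [map_mul, map_mul, map_mul, hlv, Ar2_odd h2 w hw, Ar2_odd h2 u hu, mul_one, mul_one, mul_one] at hv
  exact hv

private theorem Ar2_p4_16 (x : ℤ) (hx : x % 2 = 1) (N : ℕ) : (16 : ℤ) ∣ x ^ (4 * N) - 1 := by
  have h : (16 : ℤ) ∣ x ^ 4 - 1 := by
    obtain ⟨a, ha⟩ : ∃ a : ℤ, x = 2 * a + 1 := ⟨x / 2, by omega⟩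
    have h2 : (2 : ℤ) ∣ a * (a + 1) := by
      rcases Int.even_or_odd a with ⟨c, hc⟩ | ⟨c, hc⟩
      · exact ⟨c * (a + 1), by rw [hc]; ring⟩
      · exact ⟨a * (c + 1), by rw [hc]; ring⟩
    obtain ⟨c, hc⟩ := h2
    refine ⟨c * (2 * a * (a + 1) + 1), ?_⟩
    have : x ^ 4 - 1 = 8 * (a * (a + 1)) * (2 * (a * (a + 1)) + 1) := by rw [ha]; ring
    rw [this, hc]
    linear_combination (-16 * c * 2) * hc
  have h2 := h.trans (sub_dvd_pow_sub_pow (x ^ 4) 1 N)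
  rwa [one_pow, ← pow_mul] at h2

theorem ar_b3 (l N e : ℕ) (he : e ≤ 1) (h8 : l % 8 = 3) (c : ℤ) (hc : (4 : ℤ) ∣ c - ((l : ℤ) ^ 2 - 1) / 8) :
    (16 : ℤ) ∣ 4 * l * c - (if e = 0 then 3 else 1) * ((l : ℤ) + (l : ℤ) ^ (4 * N + 2 * e)) := by
  obtain ⟨j, hj⟩ : ∃ j : ℤ, (l : ℤ) = 8 * j + 3 := ⟨(l : ℤ) / 8, by omega⟩
  have hd : ((l : ℤ) ^ 2 - 1) / 8 = 8 * j ^ 2 + 6 * j + 1 := by
    have : (l : ℤ) ^ 2 - 1 = 8 * (8 * j ^ 2 + 6 * j + 1) := by rw [hj]; ring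
    rw [this]
    exact Int.mul_ediv_cancel_left _ (by norm_num)
  rw [hd] at hc
  obtain ⟨a, ha⟩ := hc
  obtain ⟨b, hb⟩ := Ar2_p4_16 (l : ℤ) (by omega) N
  have hc' : c = 4 * a + (8 * j ^ 2 + 6 * j + 1) := by linarith
  have hp : (l : ℤ) ^ (4 * N) = 16 * b + 1 := by linarith
  have he2 : e = 0 ∨ e = 1 := by omega
  rcases he2 with rfl | rfl
  · rw [if_pos rfl, Nat.mul_zero, Nat.add_zero, hp, hc', hj]
    refine ⟨(8 * j + 3) * a - 3 * b + 16 * j ^ 3 + 18 * j ^ 2 + 5 * j, ?_⟩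
    ring
  · rw [if_neg (by norm_num), pow_add, hp, hc', hj]
    refine ⟨(8 * j + 3) * a - b * (8 * j + 3) ^ 2 + 16 * j ^ 3 + 14 * j ^ 2 + 3 * j, ?_⟩
    ring

private theorem Ar2_p4_32 (x : ℤ) (hx : x % 16 = 7) (N : ℕ) : (32 : ℤ) ∣ x ^ (4 * N) - 1 := by
  have h : (32 : ℤ) ∣ x ^ 4 - 1 := by
    obtain ⟨a, ha⟩ : ∃ a : ℤ, x = 16 * a + 7 := ⟨x / 16, by omega⟩
    refine ⟨2048 * a ^ 4 + 3584 * a ^ 3 + 2352 * a ^ 2 + 686 * a + 75, ?_⟩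
    rw [ha]; ring
  have h2 := h.trans (sub_dvd_pow_sub_pow (x ^ 4) 1 N)
  rwa [one_pow, ← pow_mul] at h2

theorem ar_b7 (l N e : ℕ) (he : e ≤ 1) (h16 : l % 16 = 7) (c : ℤ)
    (hc : (8 : ℤ) ∣ c - ((l : ℤ) ^ 2 - 1) / 8 - 4) :
    (32 : ℤ) ∣ 4 * l * c - (if e = 0 then 3 else 1) * ((l : ℤ) + (l : ℤ) ^ (4 * N + 2 * e)) := by
  obtain ⟨j, hj⟩ : ∃ j : ℤ, (l : ℤ) = 16 * j + 7 := ⟨(l : ℤ) / 16, by omega⟩
  have hd : ((l : ℤ) ^ 2 - 1) / 8 = 32 * j ^ 2 + 28 * j + 6 := by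
    have : (l : ℤ) ^ 2 - 1 = 8 * (32 * j ^ 2 + 28 * j + 6) := by rw [hj]; ring
    rw [this]
    exact Int.mul_ediv_cancel_left _ (by norm_num)
  rw [hd] at hc
  obtain ⟨a, ha⟩ := hc
  obtain ⟨b, hb⟩ := Ar2_p4_32 (l : ℤ) (by omega) N
  have hc' : c = 8 * a + (32 * j ^ 2 + 28 * j + 6) + 4 := by linarith
  have hp : (l : ℤ) ^ (4 * N) = 32 * b + 1 := by linarith
  have he2 : e = 0 ∨ e = 1 := by omega
  rcases he2 with rfl | rfl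
  · rw [if_pos rfl, Nat.mul_zero, Nat.add_zero, hp, hc', hj]
    refine ⟨(16 * j + 7) * a - 3 * b + 64 * j ^ 3 + 84 * j ^ 2 + 43 * j + 8, ?_⟩
    ring
  · rw [if_neg (by norm_num), pow_add, hp, hc', hj]
    refine ⟨(16 * j + 7) * a - b * (16 * j + 7) ^ 2 + 64 * j ^ 3 + 76 * j ^ 2 + 37 * j + 7, ?_⟩
    ring

end Pool.Agent.Lib.MP_06b9d2_tln
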