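import Pool.Agent.Lib.MP_06b9d2_tln.PrE
import Pool.Agent.Lib.MP_06b9d2_tln.Ar1
import Pool.Agent.Lib.MP_06b9d2_tln.Ar2
import Pool.Agent.Lib.MP_06b9d2_tl2.Cl

/-!
Module TLN-PrA. The classes of the primes (from `act_gen`).

`c = 1 + l ^ k / l`, `k = 4 N + 2 e`. `er7`: `act_gen` with `r0 = 0`: `2 ^ 7 (..)` and `2 ^ 8`. `er9` (`l ≡ 1` mod `4`): `4 ∣ Lc 3 1` (`cl1`, `cl5`), `r0 = 2`: `2 ^ 7 (4 u c' + 8 z)`, `2 ^ 10`. `er10` (`l ≡ 1` mod `8`): `8 ∣ Lc 3 1` (`cl1`), `r0 = 2`. (The coefficient of `Rq N f` is absorbed in `g`: `ro_q`.)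
`cls3` (`l ≡ 3` mod `8`, `7` mod `16`, `15` mod `32`): `cl3`, `cl7`, `cl15`: `Lc 3 1 = 2 ^ r0 u'`, `u'` odd, `l + 1 = 2 ^ (2 + r0) w`, `w` odd, `r0 = 0, 1, 2`; `c l = (l + 1) u''`, `u''` odd (`arL`). The coefficient of `Rq f` is `2 ^ (7 + r0) u₁` with `u₁` an odd integer (`u Lc 3 1 + 8 z = 2 ^ r0 u₁`), so
`2 ^ (7 + r0) u₁ = c 2 ^ 5 y` with `y = u₁ l / (w u'')`, and `y - 1 = 2 y'` with `y'` in `O` (`u₁ l - w u''` is even, `w u''` odd): `c 2 ^ 5 y Rq f = c 2 ^ 5 (Rq f + 2 y' Rq f)`; the error `2 ^ (8 + r0) = c 2 ^ 6 (..)` (`arC`). `cls5` (`l ≡ 5` mod `8`): `cl5`: `Lc 3 1 = 4 u'`, `r0 = 2`, `l + 1 = 2 w`: coefficient `2 ^ 9 u₁ = c 2 ^ 8 y`, error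
`2 ^ 10 = c 2 ^ 9 (..)`.
-/

namespace Pool.Agent.Lib.MP_06b9d2_tln

open PowerSeries Pool.Agent.L1
open Pool.Agent.Lib.MP_06b9d2_ssp (PO)
open Pool.Agent.Lib.MP_06b9d2_tls (Lv2 mo2 Two Tl U V)

open Pool.Agent.Lib.MP_06b9d2_tl2 (Core MatD pc Qd Lc)

variable {A Y : ℂ⟦X⟧} {a k : ℤ⟦X⟧} {l e : ℕ} {M : ℕ → ℕ → ℕ → ℂ} {O : ValuationSubring ℂ}

private theorem PrA_odd (h2 : O.valuation 2 < 1) (n : ℤ) (hn : n % 2 = 1) : O.valuation (n : ℂ) = 1 := by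
  refine le_antisymm (Pool.Agent.Lib.MP_06b9d2_ssp.int_mem O n) (not_lt.1 fun hlt => ?_)
  have h1 : (1 : ℂ) = (n : ℂ) - 2 * ((n / 2 : ℤ) : ℂ) := by
    have : (1 : ℤ) = n - 2 * (n / 2) := by omega
    exact_mod_cast this
  have h3 : O.valuation (1 : ℂ) < 1 := by
    rw [h1]
    refine lt_of_le_of_lt (Valuation.map_sub O.valuation _ _) (max_lt hlt ?_)
    rw [map_mul]
    exact lt_of_le_of_lt (mul_le_of_le_one_right' (Pool.Agent.Lib.MP_06b9d2_ssp.int_mem O _)) h2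
  rw [map_one] at h3
  exact lt_irrefl _ h3

private theorem PrA_quo (h2 : O.valuation 2 < 1) (m n : ℤ) (hn : n % 2 = 1) :
    O.valuation ((m : ℂ) / (n : ℂ)) ≤ 1 := by
  rw [map_div₀, PrA_odd h2 n hn, div_one]
  exact Pool.Agent.Lib.MP_06b9d2_ssp.int_mem O m

private theorem PrA_comb (N : ℕ) (x y : ℂ) (hx : O.valuation x ≤ 1) (hy : O.valuation y ≤ 1) (f g : ℤ → ℂ)
    (hf : PO O f) (hg : PO O g) : PO O (fun s => x * Rq N f s + y * g s) :=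
  Pool.Agent.Lib.MP_06b9d2_ssp.PO_add
    (Pool.Agent.Lib.MP_06b9d2_ssp.PO_mul (Pool.Agent.Lib.MP_06b9d2_ssp.PO_const x hx) ((ro_q N).po f hf))
    (Pool.Agent.Lib.MP_06b9d2_ssp.PO_mul (Pool.Agent.Lib.MP_06b9d2_ssp.PO_const y hy) hg)

private theorem PrA_er (N : ℕ) {M : Mt N} (c d E : ℂ) (x y : ℤ) (K : ℤ) (hK : (K : ℂ) = d * x) (hE : E = d * y)
    (h : ∀ f : ℤ → ℂ, PO O f → ∃ g : ℤ → ℂ, PO O g ∧ ∀ s : Fin (N + 1),
      act M f s = c * f ((s : ℕ) : ℤ) + (K : ℂ) * Rq N f ((s : ℕ) : ℤ) + E * g ((s : ℕ) : ℤ)) :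
    Er O M c d := by
  intro f hf
  obtain ⟨g, hg, hs⟩ := h f hf
  refine ⟨fun s => (x : ℂ) * Rq N f s + (y : ℂ) * g s,
    PrA_comb N _ _ (Pool.Agent.Lib.MP_06b9d2_ssp.int_mem O x) (Pool.Agent.Lib.MP_06b9d2_ssp.int_mem O y) f g hf hg,
    fun s => ?_⟩
  rw [hs s, hK, hE]
  ring

private theorem PrA_cls (h2 : O.valuation 2 < 1) (N l j b r0 : ℕ) {M : Mt N} (c : ℂ) (p u K : ℤ)
    (hjb : 7 + r0 = j + b) (hc : c * l = 2 ^ j * p) (hp : p % 2 = 1) (hu : u % 2 = 1) (hl : l % 2 = 1)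
    (hK : K = 2 ^ (7 + r0) * u)
    (h : ∀ f : ℤ → ℂ, PO O f → ∃ g : ℤ → ℂ, PO O g ∧ ∀ s : Fin (N + 1),
      act M f s = c * f ((s : ℕ) : ℤ) + (K : ℂ) * Rq N f ((s : ℕ) : ℤ) + 2 ^ (8 + r0) * g ((s : ℕ) : ℤ)) :
    Cls O b 1 (Rq N) M c 1 := by
  have hlp : ((l : ℤ) * u - p) % 2 = 0 := by
    have h1 : ((l : ℤ) * u) % 2 = 1 := by
      rw [Int.mul_emod, hu]
      omega
    omega
  obtain ⟨t, ht⟩ : ∃ t : ℤ, (l : ℤ) * u - p = 2 * t := ⟨((l : ℤ) * u - p) / 2, by omega⟩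
  have hp0 : (p : ℂ) ≠ 0 := by
    have : p ≠ 0 := by omega
    exact_mod_cast this
  have hl0 : (l : ℂ) ≠ 0 := by
    have : l ≠ 0 := by omega
    exact_mod_cast this
  intro f hf
  obtain ⟨g, hg, hs⟩ := h f hf
  refine ⟨fun s => ((t : ℂ) / (p : ℂ)) * Rq N f s + (((l : ℤ) : ℂ) / (p : ℂ)) * g s,
    PrA_comb N _ _ (PrA_quo h2 t p hp) (PrA_quo h2 l p hp) f g hf hg, fun s => ?_⟩
  have ht' : (l : ℂ) * u - p = 2 * t := by exact_mod_cast ht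
  have e0 : (2 : ℂ) ^ j = c * (l / p) := by
    rw [← mul_div_assoc, hc, mul_div_assoc, div_self hp0, mul_one]
  have e1 : (2 : ℂ) ^ (7 + r0) = c * 2 ^ b * (l / p) := by
    rw [hjb, pow_add, e0]
    ring
  have e2 : (2 : ℂ) ^ (8 + r0) = c * 2 ^ b * (2 * (l / p)) := by
    have : (2 : ℂ) ^ (8 + r0) = 2 * 2 ^ (7 + r0) := by ring
    rw [this, e1]
    ring
  have e3 : (l : ℂ) / p * u = 1 + 2 * (t / p) := by
    field_simp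
    linear_combination ht'
  rw [hs s, hK, e2]
  push_cast
  rw [e1]
  linear_combination (c * 2 ^ b * Rq N f ((s : ℕ) : ℤ)) * e3

theorem er7 (h : Core A Y) (h2 : O.valuation 2 < 1) (q : Qd A Y a k) (hl : l.Prime) (hl2 : l ≠ 2) (he : e ≤ 1)
    (hM : MatD l A Y e M) (N : ℕ) : Er O (mtx l M N) (1 + (l : ℂ) ^ (4 * N + 2 * e) / l) (2 ^ 7) := by
  obtain ⟨u, z, -, hg⟩ := act_gen h h2 q hl hl2 he hM 0 (by omega) (by simp) N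
  refine PrA_er N _ (2 ^ 7) _ (u * Lc l a k 3 1 + 8 * z) 2 _ ?_ ?_ hg
  · push_cast
    ring
  · push_cast
    ring

theorem er9 (h : Core A Y) (h2 : O.valuation 2 < 1) (q : Qd A Y a k) (hl : l.Prime) (hl2 : l ≠ 2) (he : e ≤ 1)
    (hM : MatD l A Y e M) (hk : coeff l k = 1 + (l : ℤ)) (h4 : l % 4 = 1) (N : ℕ) :
    Er O (mtx l M N) (1 + (l : ℂ) ^ (4 * N + 2 * e) / l) (2 ^ 9) := by
  have hL : (4 : ℤ) ∣ Lc l a k 3 1 := by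
    have h5 : l % 8 = 1 ∨ l % 8 = 5 := by omega
    rcases h5 with h5 | h5
    · obtain ⟨v, hv⟩ := cl1 q l h5
      exact ⟨2 * v, by rw [hv]; ring⟩
    · obtain ⟨v, hv, -⟩ := Pool.Agent.Lib.MP_06b9d2_tl2.cl5 q l hk h5
      exact ⟨v, by rw [hv]; ring⟩
  obtain ⟨v, hv⟩ := hL
  obtain ⟨u, z, -, hg⟩ := act_gen h h2 q hl hl2 he hM 2 le_rfl (by rw [hv]; exact ⟨v, by ring⟩) N
  refine PrA_er N _ (2 ^ 9) _ (u * v + 2 * z) 2 _ ?_ ?_ hg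
  · rw [hv]
    push_cast
    ring
  · push_cast
    ring

theorem er10 (h : Core A Y) (h2 : O.valuation 2 < 1) (q : Qd A Y a k) (hl : l.Prime) (hl2 : l ≠ 2) (he : e ≤ 1)
    (hM : MatD l A Y e M) (h8 : l % 8 = 1) (N : ℕ) :
    Er O (mtx l M N) (1 + (l : ℂ) ^ (4 * N + 2 * e) / l) (2 ^ 10) := by
  obtain ⟨v, hv⟩ := cl1 q l h8
  obtain ⟨u, z, -, hg⟩ := act_gen h h2 q hl hl2 he hM 2 le_rfl (by rw [hv]; exact ⟨2 * v, by ring⟩) N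
  refine PrA_er N _ (2 ^ 10) _ (u * v + z) 1 _ ?_ ?_ hg
  · rw [hv]
    push_cast
    ring
  · push_cast
    ring

/-- the common part of `cls3` and `cls5` -/
private theorem PrA_gen (h : Core A Y) (h2 : O.valuation 2 < 1) (q : Qd A Y a k) (hl : l.Prime) (hl2 : l ≠ 2)
    (he : e ≤ 1) (hM : MatD l A Y e M) (r0 j b : ℕ) (w : ℤ) (hr : r0 ≤ 2)
    (hL : ∃ u : ℤ, Lc l a k 3 1 = 2 ^ r0 * u ∧ ¬ 2 ∣ u) (hjb : 7 + r0 = j + b) (hw : w % 2 = 1)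
    (hlw : (l : ℤ) + 1 = 2 ^ j * w) (N : ℕ) :
    Cls O b 1 (Rq N) (mtx l M N) (1 + (l : ℂ) ^ (4 * N + 2 * e) / l) 1 := by
  obtain ⟨v, hv, hv2⟩ := hL
  have hodd : l % 2 = 1 := by
    rcases hl.eq_two_or_odd with h3 | h3
    · exact absurd h3 hl2
    · exact h3
  have hl0 : (l : ℂ) ≠ 0 := by
    have : l ≠ 0 := by omega
    exact_mod_cast this
  obtain ⟨u, z, hu, hg⟩ := act_gen h h2 q hl hl2 he hM r0 hr (by rw [hv]; exact ⟨v, rfl⟩) N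
  obtain ⟨y, hy, hly⟩ := arL l (4 * N + 2 * e) hodd (by omega)
  have hc : (1 + (l : ℂ) ^ (4 * N + 2 * e) / l) * l = 2 ^ j * ((w * y : ℤ) : ℂ) := by
    have e1 : (1 + (l : ℂ) ^ (4 * N + 2 * e) / l) * l = (l : ℂ) + (l : ℂ) ^ (4 * N + 2 * e) := by
      field_simp
    have e2 : (l : ℂ) + (l : ℂ) ^ (4 * N + 2 * e) = ((l : ℂ) + 1) * y := by exact_mod_cast hly
    have e3 : (l : ℂ) + 1 = 2 ^ j * w := by exact_mod_cast hlw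
    rw [e1, e2, e3]
    push_cast
    ring
  have hwy : (w * y) % 2 = 1 := by
    rw [Int.mul_emod, hw, hy]
    norm_num
  have huv : (u * v) % 2 = 1 := by
    rw [Int.mul_emod, hu]
    omega
  have e8 : (8 : ℤ) = 2 ^ r0 * (2 * 2 ^ (2 - r0)) := by
    have : (2 : ℤ) ^ r0 * 2 ^ (2 - r0) = 4 := by
      rw [← pow_add]
      have : r0 + (2 - r0) = 2 := by omega
      rw [this]
      norm_num
    linear_combination (-2) * this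
  refine PrA_cls h2 N l j b r0 _ (w * y) (u * v + 2 * (2 ^ (2 - r0) * z)) _ hjb hc hwy (by omega) hodd ?_ hg
  rw [hv]
  linear_combination (2 ^ 7 * z) * e8

theorem cls3 (h : Core A Y) (h2 : O.valuation 2 < 1) (q : Qd A Y a k) (hl : l.Prime) (he : e ≤ 1)
    (hM : MatD l A Y e M) (hk : coeff l k = 1 + (l : ℤ)) (h3 : l % 8 = 3 ∨ l % 16 = 7 ∨ l % 32 = 15) (N : ℕ) :
    Cls O 5 1 (Rq N) (mtx l M N) (1 + (l : ℂ) ^ (4 * N + 2 * e) / l) 1 := by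
  have hl2 : l ≠ 2 := by omega
  rcases h3 with h3 | h3 | h3
  · exact PrA_gen h h2 q hl hl2 he hM 0 2 5 (((l : ℤ) + 1) / 4) (by omega)
      (Pool.Agent.Lib.MP_06b9d2_tl2.cl3 q l hk h3) (by omega) (by omega) (by omega) N
  · exact PrA_gen h h2 q hl hl2 he hM 1 3 5 (((l : ℤ) + 1) / 8) (by omega)
      (Pool.Agent.Lib.MP_06b9d2_tl2.cl7 q l hk h3) (by omega) (by omega) (by omega) N
  · exact PrA_gen h h2 q hl hl2 he hM 2 4 5 (((l : ℤ) + 1) / 16) (by omega)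
      (Pool.Agent.Lib.MP_06b9d2_tl2.cl15 q l hk h3) (by omega) (by omega) (by omega) N

theorem cls5 (h : Core A Y) (h2 : O.valuation 2 < 1) (q : Qd A Y a k) (hl : l.Prime) (he : e ≤ 1)
    (hM : MatD l A Y e M) (hk : coeff l k = 1 + (l : ℤ)) (h5 : l % 8 = 5) (N : ℕ) :
    Cls O 8 1 (Rq N) (mtx l M N) (1 + (l : ℂ) ^ (4 * N + 2 * e) / l) 1 := by
  have hl2 : l ≠ 2 := by omega
  exact PrA_gen h h2 q hl hl2 he hM 2 1 8 (((l : ℤ) + 1) / 2) (by omega)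
    (Pool.Agent.Lib.MP_06b9d2_tl2.cl5 q l hk h5) (by omega) (by omega) (by omega) N

end Pool.Agent.Lib.MP_06b9d2_tln
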