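import Pool.Agent.Lib.MP_06b9d2_tln.TNa

/-!
Module TLN-KerN. The conclusion from `HypN n`.

`q_TN`: as `q_T` in `MP_06b9d2_tls/KerG.lean`: coefficient `0` of a cusp form is `0` (and `0 * n / d ^ 2 = 0`); for `m > 0`: `ME.hecke_qn` (`(d : ℂ) ^ ((k : ℤ) - 1) = d ^ k / d` for `d ≠ 0`; the divisors of `gcd m n` are not `0`).
`ker_genN`: copy of `ker_gen` (`MP_06b9d2_tls/KerG.lean`) with `TN n k` for `Tl l k` (`Tl_sum` becomes `map_sum`, `map_smul`), `q_TN` for `q_T`.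
`kerOne_of_hypN`: copy of `ker_le2` (`MP_06b9d2_tls/Ker2.lean`), `Mx = ex M`: for `s ≤ N`: `TN n k (mo s) = ∑_{j < N + 1} ex M j s • mo j` (`Rp` at `⟨s, _⟩`, `Fin.sum_univ_eq_sum_range`, `ex M j s = M ⟨j, _⟩ ⟨s, _⟩`), `hsym` from `Sy` (`Fin.rev ⟨j, _⟩ = ⟨N - j, _⟩`).
-/

namespace Pool.Agent.Lib.MP_06b9d2_tln

open PowerSeries Pool.Agent.L1 UpperHalfPlane Pool.Agent.Lib.MP_06b9d2_nt
open Pool.Agent.Lib.MP_06b9d2_ssp (PO)
open Pool.Agent.Lib.MP_06b9d2_tls (Lv2 mo2 Two Tl U V KerOne)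
open scoped MatrixGroups ModularForm

theorem q_TN (k n : ℕ) (hn : n ≠ 0) (T : CuspForm 𝒮ℒ (k : ℤ) →ₗ[ℂ] CuspForm 𝒮ℒ (k : ℤ))
    (hT : IsHecke (k : ℤ) n T) (f : CuspForm 𝒮ℒ (k : ℤ)) :
    qExpansion 1 (T f) = TN n k (qExpansion 1 f) := by
  have : NeZero n := ⟨hn⟩
  have h00 : ∀ g : CuspForm 𝒮ℒ (k : ℤ), coeff 0 (qExpansion 1 g) = 0 := by
    intro g
    exact CuspFormClass.qExpansion_coeff_zero g one_pos one_mem_strictPeriods_SL
  ext m
  rw [TN_coeff]
  rcases Nat.eq_zero_or_pos m with rfl | hm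
  · rw [h00]
    symm
    refine Finset.sum_eq_zero fun d _ => ?_
    rw [Nat.zero_mul, Nat.zero_div, h00, mul_zero]
  · rw [ME.hecke_qn hT f m hm]
    refine Finset.sum_congr rfl fun d hd => ?_
    have hd0 : (d : ℂ) ≠ 0 := by
      have := Nat.pos_of_mem_divisors hd
      exact_mod_cast this.ne'
    rw [zpow_sub_one₀ hd0, zpow_natCast, div_eq_mul_inv]

theorem ker_genN (n : ℕ) (hn : n ≠ 0) (k N : ℕ) (mo : ℕ → ℂ⟦X⟧) (Mx : ℕ → ℕ → ℂ)
    (hMx : ∀ s ≤ N, TN n k (mo s) = ∑ j ∈ Finset.range (N + 1), Mx j s • mo j)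
    (hsym : ∀ j s, j ≤ N → s ≤ N → Mx (N - j) (N - s) = Mx j s) (h2 : Two Mx N)
    (ind : ∀ x : ℕ → ℂ, ∑ s ∈ Finset.range (N + 1), x s • mo s = 0 → ∀ s ≤ N, x s = 0)
    (rep : ∀ j, 1 ≤ j → j < dd k → ∃ y : ℕ → ℂ,
      (∀ s, s < j → y s = 0) ∧ y j ≠ 0 ∧ (∀ s, N - 2 * j < s → y s = 0) ∧ 2 * j ≤ N ∧
        bas ℂ k j = ∑ s ∈ Finset.range (N + 1), y s • mo s)
    (T : CuspForm 𝒮ℒ (k : ℤ) →ₗ[ℂ] CuspForm 𝒮ℒ (k : ℤ)) (hT : IsHecke (k : ℤ) n T) (lam : ℂ) :
    Module.finrank ℂ (LinearMap.ker (T - lam • LinearMap.id)) ≤ 1 := by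
  obtain ⟨Φ, hΦb, hΦ⟩ := Pool.Agent.Lib.MP_06b9d2_nt.MU.Phi_ex k
  have hrep : ∀ j : Fin (dd k - 1), ∃ y : ℕ → ℂ,
      (∀ s, s < (j : ℕ) + 1 → y s = 0) ∧ y ((j : ℕ) + 1) ≠ 0 ∧
      (∀ s, N - 2 * ((j : ℕ) + 1) < s → y s = 0) ∧ 2 * ((j : ℕ) + 1) ≤ N ∧
      bas ℂ k ((j : ℕ) + 1) = ∑ s ∈ Finset.range (N + 1), y s • mo s := by
    intro j
    exact rep ((j : ℕ) + 1) (by omega) (by have := j.2; omega)
  choose y hy1 hy2 hy3 hy4 hy5 using hrep
  -- the coordinate map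
  let X : CuspForm 𝒮ℒ (k : ℤ) →ₗ[ℂ] (ℕ → ℂ) :=
    ∑ j : Fin (dd k - 1), ((LinearMap.proj j : (Fin (dd k - 1) → ℂ) →ₗ[ℂ] ℂ) ∘ₗ Φ).smulRight (y j)
  have hXs : ∀ f s, X f s = ∑ j, Φ f j * y j s := by
    intro f s
    simp only [X, LinearMap.sum_apply, LinearMap.smulRight_apply, LinearMap.comp_apply,
      LinearMap.proj_apply, Finset.sum_apply, Pi.smul_apply, smul_eq_mul]
  have hXq : ∀ f : CuspForm 𝒮ℒ (k : ℤ),
      qExpansion 1 f = ∑ s ∈ Finset.range (N + 1), X f s • mo s := by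
    intro f
    rw [hΦ f]
    calc ∑ j, Φ f j • bas ℂ k ((j : ℕ) + 1)
        = ∑ j, ∑ s ∈ Finset.range (N + 1), (Φ f j * y j s) • mo s := by
          refine Finset.sum_congr rfl fun j _ => ?_
          rw [hy5 j, Finset.smul_sum]
          refine Finset.sum_congr rfl fun s _ => ?_
          rw [smul_smul]
      _ = ∑ s ∈ Finset.range (N + 1), X f s • mo s := by
          rw [Finset.sum_comm]
          refine Finset.sum_congr rfl fun s _ => ?_
          rw [hXs, Finset.sum_smul]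
  have hX0 : ∀ f s, N < s → X f s = 0 := by
    intro f s hs
    rw [hXs]
    refine Finset.sum_eq_zero fun j _ => ?_
    rw [hy3 j s (by omega), mul_zero]
  have lead : ∀ f, f ≠ 0 → ∃ p, 1 ≤ p ∧ 2 * p ≤ N ∧ (∀ s, s < p → X f s = 0) ∧ X f p ≠ 0 ∧
      ∀ s, N - 2 * p < s → X f s = 0 := by
    intro f hf
    have hne : Φ f ≠ 0 := by
      intro h0
      apply hf
      apply hΦb.1
      rw [h0, map_zero]
    have hS : (Finset.univ.filter fun j : Fin (dd k - 1) => Φ f j ≠ 0).Nonempty := by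
      by_contra hS
      rw [Finset.not_nonempty_iff_eq_empty] at hS
      apply hne
      funext j
      by_contra hj
      have : j ∈ (Finset.univ.filter fun j : Fin (dd k - 1) => Φ f j ≠ 0) := by
        simp only [Finset.mem_filter, Finset.mem_univ, true_and]
        exact hj
      rw [hS] at this
      simp at this
    obtain ⟨j0, hj0, hmin⟩ := Finset.exists_min_image _ (fun j : Fin (dd k - 1) => (j : ℕ)) hS
    have hj0' : Φ f j0 ≠ 0 := by simpa using hj0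
    have hlt : ∀ j : Fin (dd k - 1), (j : ℕ) < j0 → Φ f j = 0 := by
      intro j hj
      by_contra hj'
      have := hmin j (by simpa using hj')
      omega
    have h4 := hy4 j0
    refine ⟨(j0 : ℕ) + 1, by omega, by omega, ?_, ?_, ?_⟩
    · intro s hs
      rw [hXs]
      refine Finset.sum_eq_zero fun j _ => ?_
      rcases lt_or_ge (j : ℕ) (j0 : ℕ) with hj | hj
      · rw [hlt j hj, zero_mul]
      · rw [hy1 j s (by omega), mul_zero]
    · rw [hXs, Finset.sum_eq_single j0]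
      · exact mul_ne_zero hj0' (hy2 j0)
      · intro j _ hj
        rcases lt_or_ge (j : ℕ) (j0 : ℕ) with hj1 | hj1
        · rw [hlt j hj1, zero_mul]
        · have : (j : ℕ) ≠ j0 := fun hh => hj (Fin.ext hh)
          rw [hy1 j _ (by omega), mul_zero]
      · intro hj
        exact absurd (Finset.mem_univ _) hj
    · intro s hs
      rw [hXs]
      refine Finset.sum_eq_zero fun j _ => ?_
      rcases lt_or_ge (j : ℕ) (j0 : ℕ) with hj | hj
      · rw [hlt j hj, zero_mul]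
      · rw [hy3 j s (by omega), mul_zero]
  -- eigenvectors
  have hEg : ∀ f, T f = lam • f → Pool.Agent.Lib.MP_06b9d2_tls.EgG Mx N lam (X f) := by
    intro f hf
    have h1 : TN n k (qExpansion 1 f) = lam • qExpansion 1 f := by
      rw [← q_TN k n hn T hT f, hf, hΦ (lam • f), hΦ f, map_smul, Finset.smul_sum]
      refine Finset.sum_congr rfl fun j _ => ?_
      rw [Pi.smul_apply, smul_eq_mul, mul_smul]
    rw [hXq f, map_sum] at h1
    simp only [map_smul] at h1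
    have h2 : ∑ s ∈ Finset.range (N + 1), X f s • TN n k (mo s) =
        ∑ j ∈ Finset.range (N + 1), (∑ s ∈ Finset.range (N + 1), Mx j s * X f s) •
          mo j := by
      calc ∑ s ∈ Finset.range (N + 1), X f s • TN n k (mo s)
          = ∑ s ∈ Finset.range (N + 1), ∑ j ∈ Finset.range (N + 1),
              (Mx j s * X f s) • mo j := by
            refine Finset.sum_congr rfl fun s hs => ?_
            have hs' : s ≤ N := Nat.lt_succ_iff.mp (Finset.mem_range.mp hs)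
            rw [hMx s hs', Finset.smul_sum]
            refine Finset.sum_congr rfl fun j _ => ?_
            rw [smul_smul, mul_comm]
        _ = _ := by
            rw [Finset.sum_comm]
            refine Finset.sum_congr rfl fun j _ => ?_
            rw [← Finset.sum_smul]
    rw [h2] at h1
    have h3 : ∑ j ∈ Finset.range (N + 1), ((∑ s ∈ Finset.range (N + 1), Mx j s * X f s) -
        lam * X f j) • mo j = 0 := by
      simp only [sub_smul]
      rw [Finset.sum_sub_distrib, h1, Finset.smul_sum, ← Finset.sum_sub_distrib]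
      refine Finset.sum_eq_zero fun j _ => ?_
      rw [smul_smul, sub_self]
    have h4 := ind _ h3
    intro j hj
    exact sub_eq_zero.mp (h4 j hj)
  have := fin_cusp (k : ℤ)
  exact Pool.Agent.Lib.MP_06b9d2_tls.double T lam lam N Mx hsym h2 X hX0 lead hEg

theorem kerOne_of_hypN {n : ℕ} (hn : n ≠ 0) (H : HypN n) : KerOne n := by
  intro k hk T hT lam
  obtain ⟨a, g, h, hM⟩ := H
  by_cases hd : dd k = 0
  · obtain ⟨Φ, hΦb, hΦ⟩ := Pool.Agent.Lib.MP_06b9d2_nt.MU.Phi_ex k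
    have : Subsingleton (CuspForm 𝒮ℒ (k : ℤ)) := by
      have : IsEmpty (Fin (dd k - 1)) := by
        rw [hd]
        exact Fin.isEmpty'
      exact hΦb.1.subsingleton
    rw [Module.finrank_zero_of_subsingleton]
    exact Nat.zero_le _
  have hj := ba_eq (Nat.pos_of_ne_zero hd)
  obtain ⟨N, hN⟩ : ∃ N, N = ba k 0 + bb k := ⟨_, rfl⟩
  have hk4 : 4 * N + 2 * bb k = k := by omega
  obtain ⟨M, hR, hS, h2⟩ := hM (bb k) N (bb_le_one k)
  rw [hk4] at hR
  refine ker_genN n hn k N (mo2 a g (bb k) N) (ex M) ?_ ?_ h2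
    (fun x hx => Pool.Agent.Lib.MP_06b9d2_tls.ind2 h _ N x hx) ?_ T hT lam
  · intro s hs
    have h1 := hR ⟨s, by omega⟩
    rw [h1, Finset.sum_range (fun j => ex M j s • mo2 a g (bb k) N j)]
    refine Finset.sum_congr rfl fun j _ => ?_
    unfold ex
    rw [dif_pos ⟨j.2, by omega⟩]
  · intro j s hj hs
    have h1 := hS ⟨j, by omega⟩ ⟨s, by omega⟩
    unfold ex
    rw [dif_pos ⟨by omega, by omega⟩, dif_pos ⟨by omega, by omega⟩, ← h1]
    congr 1
    · apply Fin.ext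
      simp only [Fin.val_rev]
      omega
    · apply Fin.ext
      simp only [Fin.val_rev]
      omega
  · intro j _ hj
    obtain ⟨y, y1, y2, y3, y4, y5⟩ := Pool.Agent.Lib.MP_06b9d2_tls.rep2 h k N j hk4 hj
    exact ⟨y, y1, y2, fun s hs => y3 s (by omega), by omega, y5⟩

end Pool.Agent.Lib.MP_06b9d2_tln
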