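import Pool.Agent.Lib.MP_06b9d2_tln.ClA

/-!
Module TLN-OpB. Bounds for the operators `op κ N` on the polynomial functions over `O`.

`op_err`: `κ m n r = B m! n! z` with `z` in `O`; `dm N m n s = D(s) / (m! n!)` with `D = ∏ (N - s - i) ∏ (s - i)` in `PO` (compare `PO_desc` in `MP_06b9d2_tls/TwoQ.lean` / `MP_06b9d2_ssp/POa.lean`; repeat it), `PO_shift`, finite sums (`PO_add`). `op_lin`: `Finset.sum_add_distrib`, `Finset.mul_sum`.
`op_one`: only the term `m = n = r = 1` (present if `1 ≤ N`): `y (N - s) s f(s)`; for `N = 0`: `s = 0`, both sides are `0`. `op_smul`, `op_add` are the linearity in `f`. `ro_u`: `Ru e N f = (3 or 1) / 128 * op K N f`, `op_err` with `B = 128`: `v (K m n r) ≤ v (128 m! n!)` for all `m n r` (`kt_bd`: the listed values: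
`(1,1)`, `(2,0)`, `(2,1)`: divisible by `256` resp. `128` for `(1, 1)`; `(3,0)`: by `256`; `(3,1)`: `256`; `(2,2)`: `512`; `(4,0)`: `1024`; `v 3 = 1`; factorials `2! = 2`, `3! = 2 * 3`, `4! = 8 * 3`), and the stronger bound `v (K m n r) ≤ v (256 m! n!)` except for `(1, 1, 1)` (`kt_bd2`).
`ru_q`: `K = K 1 1 1 [(1,1,1)] + K'`, `op_lin`, `op_one`, `op_err` for `K'` with `B = 256`: `Ru f = (3 / 128) (2176 Rq f + 256 g) = 51 Rq f + 2 (3 g)` (`e = 0`), `(1 / 128) (19840 Rq f + 256 g) = 155 Rq f + 2 g` (`e = 1`).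
-/

namespace Pool.Agent.Lib.MP_06b9d2_tln

open PowerSeries Pool.Agent.L1
open Pool.Agent.Lib.MP_06b9d2_ssp (PO)
open Pool.Agent.Lib.MP_06b9d2_tls (Lv2 mo2 Two Tl U V)

variable {O : ValuationSubring ℂ} {N : ℕ}

private theorem PO_sum {ι : Type} (S : Finset ι) (F : ι → ℤ → ℂ) (h : ∀ i, PO O (F i)) :
    PO O (fun s => ∑ i ∈ S, F i s) := by
  classical
  induction S using Finset.induction_on with
  | empty =>
    have h0 := MP_06b9d2_ssp.PO_const (O := O) 0 (by rw [map_zero]; exact zero_le_one)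
    simpa using h0
  | insert a S ha ih =>
    have h1 := MP_06b9d2_ssp.PO_add (h a) ih
    simpa only [Finset.sum_insert ha] using h1

private theorem PO_prod {f : ℕ → ℤ → ℂ} (hf : ∀ i, PO O (f i)) (m : ℕ) :
    PO O (fun s => ∏ i ∈ Finset.range m, f i s) := by
  induction m with
  | zero =>
    have h := MP_06b9d2_ssp.PO_const (O := O) 1 (by rw [map_one])
    simpa using h
  | succ m ih =>
    have h := MP_06b9d2_ssp.PO_mul ih (hf m)
    simpa only [Finset.prod_range_succ] using h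

private theorem PO_int (O : ValuationSubring ℂ) (n : ℤ) : PO O (fun _ => (n : ℂ)) :=
  MP_06b9d2_ssp.PO_const _ (MP_06b9d2_ssp.int_mem O n)

private theorem PO_desc (O : ValuationSubring ℂ) (N m n : ℕ) :
    PO O (fun s => (∏ i ∈ Finset.range m, ((N : ℂ) - (s : ℂ) - (i : ℂ))) *
      ∏ i ∈ Finset.range n, ((s : ℂ) - (i : ℂ))) := by
  refine MP_06b9d2_ssp.PO_mul (PO_prod (f := fun i s => (N : ℂ) - (s : ℂ) - (i : ℂ)) (fun i => ?_) m)
    (PO_prod (f := fun i s => (s : ℂ) - (i : ℂ)) (fun i => ?_) n)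
  · have h := MP_06b9d2_ssp.PO_add (PO_int O ((N : ℤ) - i))
      (MP_06b9d2_ssp.PO_mul (PO_int O (-1)) (MP_06b9d2_ssp.PO_id (O := O)))
    have e : (fun s : ℤ => (((N : ℤ) - i : ℤ) : ℂ) + ((-1 : ℤ) : ℂ) * (s : ℂ)) =
        fun s : ℤ => (N : ℂ) - (s : ℂ) - (i : ℂ) := by
      funext s; push_cast; ring
    rwa [e] at h
  · have h := MP_06b9d2_ssp.PO_add (PO_int O (-(i : ℤ))) (MP_06b9d2_ssp.PO_id (O := O))
    have e : (fun s : ℤ => ((-(i : ℤ) : ℤ) : ℂ) + (s : ℂ)) = fun s : ℤ => (s : ℂ) - (i : ℂ) := by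
      funext s; push_cast; ring
    rwa [e] at h

private theorem v3 (h2 : O.valuation 2 < 1) : O.valuation 3 = 1 := by
  have h3 := MP_06b9d2_ssp.int_mem O 3
  push_cast at h3
  refine le_antisymm h3 (not_lt.1 fun hlt => ?_)
  have h4 : O.valuation ((3 : ℂ) - 2) < 1 :=
    lt_of_le_of_lt (Valuation.map_sub O.valuation _ _) (max_lt hlt h2)
  have h5 : (3 : ℂ) - 2 = 1 := by norm_num
  rw [h5, map_one] at h4
  exact lt_irrefl _ h4

/-- a divisibility gives the bound of the valuation -/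
private theorem v_of_dvd (h2 : O.valuation 2 < 1) (B : ℤ) (K : ℤ) (u : ℕ) (h : B * (u : ℤ) ∣ 3 * K) :
    O.valuation (K : ℂ) ≤ O.valuation ((B : ℂ) * (u : ℂ)) := by
  obtain ⟨t, ht⟩ := h
  have h1 : (3 : ℂ) * (K : ℂ) = ((B : ℂ) * (u : ℂ)) * (t : ℂ) := by exact_mod_cast ht
  have h3 : O.valuation (K : ℂ) = O.valuation ((3 : ℂ) * (K : ℂ)) := by rw [map_mul, v3 h2, one_mul]
  rw [h3, h1, map_mul]
  exact mul_le_of_le_one_right' (MP_06b9d2_ssp.int_mem O t)

private theorem kz_dvd (m n r : ℕ) :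
    (128 : ℤ) * ((m.factorial * n.factorial : ℕ) : ℤ) ∣ 3 * Kz m n r := by
  unfold Kz
  split <;> norm_num [Nat.factorial]

private theorem ko_dvd (m n r : ℕ) :
    (128 : ℤ) * ((m.factorial * n.factorial : ℕ) : ℤ) ∣ 3 * Ko m n r := by
  unfold Ko
  split <;> norm_num [Nat.factorial]

private theorem kz_dvd2 (m n r : ℕ) (h : ¬ (m = 1 ∧ n = 1 ∧ r = 1)) :
    (256 : ℤ) * ((m.factorial * n.factorial : ℕ) : ℤ) ∣ 3 * Kz m n r := by
  unfold Kz
  split <;> first | (exact absurd ⟨rfl, rfl, rfl⟩ h) | norm_num [Nat.factorial]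

private theorem ko_dvd2 (m n r : ℕ) (h : ¬ (m = 1 ∧ n = 1 ∧ r = 1)) :
    (256 : ℤ) * ((m.factorial * n.factorial : ℕ) : ℤ) ∣ 3 * Ko m n r := by
  unfold Ko
  split <;> first | (exact absurd ⟨rfl, rfl, rfl⟩ h) | norm_num [Nat.factorial]

theorem op_err (B : ℂ) (hB : B ≠ 0) (κ : ℕ → ℕ → ℕ → ℂ)
    (h : ∀ m n r, O.valuation (κ m n r) ≤ O.valuation (B * ((m.factorial * n.factorial : ℕ) : ℂ)))
    (f : ℤ → ℂ) (hf : PO O f) : ∃ g : ℤ → ℂ, PO O g ∧ ∀ s, op κ N f s = B * g s := by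
  refine ⟨fun s => ∑ m ∈ Finset.range (N + 1), ∑ n ∈ Finset.range (N + 1), ∑ r ∈ Finset.range (m + n + 1),
    (κ m n r / (B * ((m.factorial * n.factorial : ℕ) : ℂ))) *
      (((∏ i ∈ Finset.range m, ((N : ℂ) - (s : ℂ) - (i : ℂ))) * ∏ i ∈ Finset.range n, ((s : ℂ) - (i : ℂ))) *
        f (s + (-(n : ℤ) + (r : ℤ)))), ?_, fun s => ?_⟩
  · refine PO_sum _ _ fun m => PO_sum _ _ fun n => PO_sum _ _ fun r => ?_
    refine MP_06b9d2_ssp.PO_mul (MP_06b9d2_ssp.PO_const _ ?_)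
      (MP_06b9d2_ssp.PO_mul (PO_desc O N m n) (MP_06b9d2_ssp.PO_shift hf _))
    have hne : B * ((m.factorial * n.factorial : ℕ) : ℂ) ≠ 0 :=
      mul_ne_zero hB (by exact_mod_cast mul_ne_zero (Nat.factorial_ne_zero m) (Nat.factorial_ne_zero n))
    rw [map_div₀]
    exact div_le_one_of_le₀ (h m n r) zero_le
  · unfold op
    simp only [Finset.mul_sum]
    refine Finset.sum_congr rfl fun m _ => Finset.sum_congr rfl fun n _ => Finset.sum_congr rfl fun r _ => ?_
    have hne : ((m.factorial * n.factorial : ℕ) : ℂ) ≠ 0 := by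
      exact_mod_cast mul_ne_zero (Nat.factorial_ne_zero m) (Nat.factorial_ne_zero n)
    have e : s - (n : ℤ) + (r : ℤ) = s + (-(n : ℤ) + (r : ℤ)) := by ring
    unfold dm
    rw [e]
    field_simp

theorem op_lin (κ₁ κ₂ : ℕ → ℕ → ℕ → ℂ) (y : ℂ) (f : ℤ → ℂ) (s : ℤ) :
    op (fun m n r => κ₁ m n r + y * κ₂ m n r) N f s = op κ₁ N f s + y * op κ₂ N f s := by
  unfold op
  simp only [Finset.mul_sum, ← Finset.sum_add_distrib]
  refine Finset.sum_congr rfl fun m _ => Finset.sum_congr rfl fun n _ => Finset.sum_congr rfl fun r _ => ?_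
  ring

theorem op_one (y : ℂ) (f : ℤ → ℂ) (s : ℕ) (hs : s ≤ N) :
    op (fun m n r => if m = 1 ∧ n = 1 ∧ r = 1 then y else 0) N f s = -y * Rq N f s := by
  unfold op Rq
  rcases Nat.eq_zero_or_pos N with h0 | h0
  · subst h0
    have hs0 : s = 0 := by omega
    subst hs0
    simp
  · rw [Finset.sum_eq_single 1, Finset.sum_eq_single 1, Finset.sum_eq_single 1]
    · have e : ((s : ℕ) : ℤ) - ((1 : ℕ) : ℤ) + ((1 : ℕ) : ℤ) = ((s : ℕ) : ℤ) := by ring
      dsimp only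
      rw [if_pos ⟨rfl, rfl, rfl⟩, e]
      unfold dm
      simp only [Finset.prod_range_one, Nat.factorial_one, mul_one, Nat.cast_one, div_one, Nat.cast_zero,
        sub_zero]
      ring
    · intro r _ hr
      dsimp only
      rw [if_neg (fun h => hr h.2.2), zero_mul]
    · intro h
      exact absurd (Finset.mem_range.2 (by omega)) h
    · intro n _ hn
      refine Finset.sum_eq_zero fun r _ => ?_
      dsimp only
      rw [if_neg (fun h => hn h.2.1), zero_mul]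
    · intro h
      exact absurd (Finset.mem_range.2 (by omega)) h
    · intro m _ hm
      refine Finset.sum_eq_zero fun n _ => Finset.sum_eq_zero fun r _ => ?_
      dsimp only
      rw [if_neg (fun h => hm h.1), zero_mul]
    · intro h
      exact absurd (Finset.mem_range.2 (by omega)) h

theorem op_add (κ : ℕ → ℕ → ℕ → ℂ) (f g : ℤ → ℂ) (s : ℤ) :
    op κ N (fun t => f t + g t) s = op κ N f s + op κ N g s := by
  unfold op
  simp only [← Finset.sum_add_distrib]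
  refine Finset.sum_congr rfl fun m _ => Finset.sum_congr rfl fun n _ => Finset.sum_congr rfl fun r _ => ?_
  ring

theorem op_smul (κ : ℕ → ℕ → ℕ → ℂ) (z : ℂ) (f : ℤ → ℂ) (s : ℤ) :
    op κ N (fun t => z * f t) s = z * op κ N f s := by
  unfold op
  simp only [Finset.mul_sum]
  refine Finset.sum_congr rfl fun m _ => Finset.sum_congr rfl fun n _ => Finset.sum_congr rfl fun r _ => ?_
  ring

theorem ro_u (h2 : O.valuation 2 < 1) (e N : ℕ) : RO O (Ru e N) := by
  refine ⟨fun f hf => ?_, fun f g => ?_, fun z f => ?_⟩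
  · obtain ⟨g, hg, hgs⟩ := op_err (O := O) (N := N) 128 (by norm_num)
      (fun m n r => (((if e = 0 then Kz m n r else Ko m n r) : ℤ) : ℂ)) (fun m n r => by
        have h := v_of_dvd h2 128 (if e = 0 then Kz m n r else Ko m n r) (m.factorial * n.factorial) (by
          split
          · exact kz_dvd m n r
          · exact ko_dvd m n r)
        simpa using h) f hf
    have h3 : O.valuation (if e = 0 then (3 : ℂ) else 1) ≤ 1 := by
      split
      · exact (v3 h2).le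
      · rw [map_one]
    obtain hp := MP_06b9d2_ssp.PO_mul (MP_06b9d2_ssp.PO_const (O := O) (if e = 0 then (3 : ℂ) else 1) h3) hg
    refine MP_06b9d2_tls.PO_cg hp fun s => ?_
    unfold Ru
    rw [hgs s]
    ring
  · funext s
    unfold Ru
    rw [op_add]
    ring
  · funext s
    unfold Ru
    rw [op_smul]
    ring

private theorem ru_q_aux (h2 : O.valuation 2 < 1) (K : ℕ → ℕ → ℕ → ℤ) (N : ℕ) (f : ℤ → ℂ) (hf : PO O f)
    (hK : ∀ m n r : ℕ, ¬ (m = 1 ∧ n = 1 ∧ r = 1) →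
      (256 : ℤ) * ((m.factorial * n.factorial : ℕ) : ℤ) ∣ 3 * K m n r) :
    ∃ g : ℤ → ℂ, PO O g ∧ ∀ s : ℕ, s ≤ N →
      op (fun m n r => ((K m n r : ℤ) : ℂ)) N f s = -((K 1 1 1 : ℤ) : ℂ) * Rq N f s + 256 * g s := by
  obtain ⟨g, hg, hgs⟩ := op_err (O := O) (N := N) 256 (by norm_num)
    (fun m n r => (((if m = 1 ∧ n = 1 ∧ r = 1 then 0 else K m n r) : ℤ) : ℂ)) (fun m n r => by
      have h := v_of_dvd h2 256 (if m = 1 ∧ n = 1 ∧ r = 1 then 0 else K m n r) (m.factorial * n.factorial) (by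
        split
        · simp
        · rename_i hc
          exact hK m n r hc)
      simpa using h) f hf
  refine ⟨g, hg, fun s hs => ?_⟩
  have e : (fun m n r => ((K m n r : ℤ) : ℂ)) = fun m n r : ℕ =>
      (((if m = 1 ∧ n = 1 ∧ r = 1 then 0 else K m n r) : ℤ) : ℂ) +
        1 * (if m = 1 ∧ n = 1 ∧ r = 1 then ((K 1 1 1 : ℤ) : ℂ) else 0) := by
    funext m n r
    by_cases h : m = 1 ∧ n = 1 ∧ r = 1
    · obtain ⟨rfl, rfl, rfl⟩ := h
      simp
    · rw [if_neg h, if_neg h]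
      simp
  rw [e, op_lin, op_one _ f s hs, hgs]
  ring

theorem ru_q (h2 : O.valuation 2 < 1) (e N : ℕ) (f : ℤ → ℂ) (hf : PO O f) :
    ∃ g : ℤ → ℂ, PO O g ∧ ∀ s : Fin (N + 1), Ru e N f ((s : ℕ) : ℤ) =
      (((if e = 0 then 51 else 155) : ℤ) : ℂ) * Rq N f ((s : ℕ) : ℤ) + 2 * g ((s : ℕ) : ℤ) := by
  by_cases he : e = 0
  · obtain ⟨g, hg, hgs⟩ := ru_q_aux h2 Kz N f hf kz_dvd2
    refine ⟨fun s => 3 * g s, MP_06b9d2_ssp.PO_mul (MP_06b9d2_ssp.PO_const (O := O) 3 (v3 h2).le) hg,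
      fun s => ?_⟩
    unfold Ru
    simp only [if_pos he]
    rw [hgs s (by omega)]
    have e1 : Kz 1 1 1 = -2176 := rfl
    rw [e1]
    push_cast
    ring
  · obtain ⟨g, hg, hgs⟩ := ru_q_aux h2 Ko N f hf ko_dvd2
    refine ⟨g, hg, fun s => ?_⟩
    unfold Ru
    simp only [if_neg he]
    rw [hgs s (by omega)]
    have e1 : Ko 1 1 1 = -19840 := rfl
    rw [e1]
    push_cast
    ring

end Pool.Agent.Lib.MP_06b9d2_tln
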