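import Pool.Agent.Lib.MP_06b9d2_tln.Rpa
import Pool.Agent.Lib.MP_06b9d2_tls.StM

/-!
Module TLN-OpA. The action on functions of a matrix `MG2 κ N`.
-/

namespace Pool.Agent.Lib.MP_06b9d2_tln

open PowerSeries Pool.Agent.L1
open Pool.Agent.Lib.MP_06b9d2_ssp (PO)
open Pool.Agent.Lib.MP_06b9d2_tls (Lv2 mo2 Two Tl U V)

open Pool.Agent.Lib.MP_06b9d2_tl2 (MG2)

private theorem OpA_dmG (N m n : ℕ) (s : ℤ) :
    Pool.Agent.Lib.MP_06b9d2_tls.dmG 1 3 N m n s = dm N m n s := by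
  unfold Pool.Agent.Lib.MP_06b9d2_tls.dmG dm
  have h : (3 * 1 / 3 : ℂ) = 1 := by norm_num
  have h' : (3 / 3 : ℂ) = 1 := by norm_num
  rw [h, h', one_pow, one_pow]
  push_cast
  ring

theorem dm_nat (N m n s : ℕ) (hs : s ≤ N) :
    dm N m n (s : ℤ) = ((N - s).choose m : ℂ) * (s.choose n : ℂ) := by
  rw [← OpA_dmG, Pool.Agent.Lib.MP_06b9d2_tls.dmG_nat 1 3 N m n s hs]
  have h : (3 * 1 / 3 : ℂ) = 1 := by norm_num
  have h' : (3 / 3 : ℂ) = 1 := by norm_num
  rw [h, h', one_pow, one_pow, one_mul, one_mul]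

theorem act_op {N : ℕ} (κ : ℕ → ℕ → ℕ → ℂ) (deg : ∀ m n r, m + n < r → κ m n r = 0) (M : Mt N)
    (hM : ∀ j s : Fin (N + 1), M j s = MG2 κ N j s) (f : ℤ → ℂ) (s : Fin (N + 1)) :
    act M f s = op κ N f ((s : ℕ) : ℤ) := by
  have hs : (s : ℕ) ≤ N := Nat.lt_succ_iff.1 s.2
  unfold act
  rw [Finset.sum_congr rfl fun j _ => by rw [hM j s]]
  rw [Fin.sum_univ_eq_sum_range (fun j : ℕ => MG2 κ N j (s : ℕ) * f ((j : ℕ) : ℤ)) (N + 1)]
  unfold MG2 op
  simp only [Finset.sum_mul]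
  rw [Finset.sum_comm]
  refine Finset.sum_congr rfl fun m _ => ?_
  rw [Finset.sum_comm]
  refine Finset.sum_congr rfl fun n _ => ?_
  have h := Pool.Agent.Lib.MP_06b9d2_tls.star_aux (M := 1) (Or.inl rfl) (e := 1) (by norm_num) 3 κ deg N m n 0 s
    hs f
  have hf : (Finset.range (N + 1)).filter (fun j => j % 1 = 0 % 1) = Finset.range (N + 1) := by
    refine Finset.filter_true_of_mem fun j _ => ?_
    rw [Nat.mod_one]
  rw [hf] at h
  have hl : ∀ j : ℕ, (if (s : ℕ) ≤ j + n then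
        (1 : ℂ) ^ (s : ℕ) * ((N - (s : ℕ)).choose m : ℂ) * ((s : ℕ).choose n : ℂ) * (3 * 1 / 3) ^ m * (3 / 3) ^ n *
          κ m n (j + n - (s : ℕ))
      else 0) * f (j : ℤ) = (if (s : ℕ) ≤ j + n then ((N - (s : ℕ)).choose m : ℂ) * ((s : ℕ).choose n : ℂ) *
        κ m n (j + n - (s : ℕ)) else 0) * f (j : ℤ) := by
    intro j
    have h1 : (3 * 1 / 3 : ℂ) = 1 := by norm_num
    have h2 : (3 / 3 : ℂ) = 1 := by norm_num
    rw [h1, h2, one_pow, one_pow, one_pow, one_mul, mul_one, mul_one]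
  rw [Finset.sum_congr rfl fun j _ => hl j] at h
  rw [h]
  refine Finset.sum_congr rfl fun r _ => ?_
  rw [if_pos (by rw [Nat.mod_one, Nat.mod_one]), one_pow, one_mul, OpA_dmG]

private theorem OpA_bin (z : ℂ) (N p : ℕ) (hp : p ≤ N) :
    ∑ m ∈ Finset.range (N + 1), (p.choose m : ℂ) * z ^ m = (1 + z) ^ p := by
  rw [add_comm 1 z, add_pow]
  have hsub : Finset.range (p + 1) ⊆ Finset.range (N + 1) := Finset.range_subset_range.2 (by omega)
  rw [← Finset.sum_subset hsub]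
  · refine Finset.sum_congr rfl fun m _ => ?_
    rw [one_pow, mul_one, mul_comm]
  · intro m _ hm
    have h : p < m := by
      by_contra h'
      exact hm (Finset.mem_range.2 (by omega))
    rw [Nat.choose_eq_zero_of_lt h, Nat.cast_zero, zero_mul]

private theorem OpA_one (N p : ℕ) :
    ∑ m ∈ Finset.range (N + 1), (p.choose m : ℂ) * (if m = 0 then 1 else 0) = 1 := by
  rw [Finset.sum_eq_single 0]
  · simp
  · intro m _ hm
    rw [if_neg hm, mul_zero]
  · intro h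
    exact absurd (Finset.mem_range.2 (by omega)) h

theorem op_kp (l e N : ℕ) (κ : ℕ → ℕ → ℕ → ℂ) (f : ℤ → ℂ) (s : ℕ) (hs : s ≤ N) :
    op κ N f s = ((l : ℂ) + (l : ℂ) ^ (4 * N + 2 * e)) * f s + op (kp l e κ) N f s := by
  set z : ℂ := (l : ℂ) ^ 4 - 1 with hz
  have h1 : ∀ m n : ℕ, ∑ r ∈ Finset.range (m + n + 1), κ m n r * (dm N m n (s : ℤ) * f ((s : ℤ) - n + r)) =
      dm N m n (s : ℤ) * ((if m + n = 0 then (l : ℂ) else 0) + (l : ℂ) ^ (2 * e) * z ^ (m + n)) * f s +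
      ∑ r ∈ Finset.range (m + n + 1), kp l e κ m n r * (dm N m n (s : ℤ) * f ((s : ℤ) - n + r)) := by
    intro m n
    have h2 : ∀ r ∈ Finset.range (m + n + 1), κ m n r * (dm N m n (s : ℤ) * f ((s : ℤ) - n + r)) =
        (if r = n then (if m + n = 0 then (l : ℂ) else 0) + (l : ℂ) ^ (2 * e) * z ^ (m + n) else 0) *
          (dm N m n (s : ℤ) * f ((s : ℤ) - n + r)) +
        kp l e κ m n r * (dm N m n (s : ℤ) * f ((s : ℤ) - n + r)) := by
      intro r _
      unfold kp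
      ring
    rw [Finset.sum_congr rfl h2, Finset.sum_add_distrib]
    congr 1
    rw [Finset.sum_eq_single n]
    · rw [if_pos rfl, show (s : ℤ) - n + n = s by ring]
      ring
    · intro r _ hr
      rw [if_neg hr, zero_mul]
    · intro h
      exact absurd (Finset.mem_range.2 (by omega)) h
  unfold op
  simp only [h1, Finset.sum_add_distrib]
  congr 1
  have h3 : ∀ m n : ℕ, dm N m n (s : ℤ) * ((if m + n = 0 then (l : ℂ) else 0) + (l : ℂ) ^ (2 * e) * z ^ (m + n)) *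
      f s = (l : ℂ) * f s * ((((N - s).choose m : ℂ) * (if m = 0 then 1 else 0)) *
        ((s.choose n : ℂ) * (if n = 0 then 1 else 0))) +
        (l : ℂ) ^ (2 * e) * f s * ((((N - s).choose m : ℂ) * z ^ m) * ((s.choose n : ℂ) * z ^ n)) := by
    intro m n
    rw [dm_nat N m n s hs, pow_add]
    rcases Nat.eq_zero_or_pos m with rfl | hm
    · rcases Nat.eq_zero_or_pos n with rfl | hn
      · simp only [add_zero, if_true]
        ring
      · rw [if_neg (by omega), if_neg (show n ≠ 0 by omega)]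
        ring
    · rw [if_neg (by omega), if_neg (show m ≠ 0 by omega)]
      ring
  simp only [h3, Finset.sum_add_distrib, ← Finset.mul_sum, ← Finset.sum_mul]
  rw [OpA_one, OpA_one, OpA_bin z N (N - s) (by omega), OpA_bin z N s hs]
  have h4 : (1 + z) = (l : ℂ) ^ 4 := by rw [hz]; ring
  rw [h4]
  have h5 : ((l : ℂ) ^ 4) ^ (N - s) * ((l : ℂ) ^ 4) ^ s = (l : ℂ) ^ (4 * N) := by
    rw [← pow_add, Nat.sub_add_cancel hs, ← pow_mul]
  have h6 : (l : ℂ) ^ (4 * N + 2 * e) = (l : ℂ) ^ (2 * e) * (l : ℂ) ^ (4 * N) := by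
    rw [← pow_add, add_comm]
  rw [h6, ← h5]
  ring

end Pool.Agent.Lib.MP_06b9d2_tln
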