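import Pool.Agent.Lib.MP_06b9d2_tln.Defs

/-!
Module TLN-Ar3. The numbers `nu3`, `nu5`.

`nu3_odd`: for odd `n`: modulo `4` the product `n = ∏ p ^ v_p(n)` is `(-1) ^ nu3 n` (`p ≡ 1`: `1`; `p ≡ 3`: `(-1) ^ v_p`). `nu5_odd`: if `nu3 n = 0` then modulo `8` all `p ^ v_p(n)` are `1` (`v_p` even: an odd square; `p ≡ 1`) or `5` (`p ≡ 5`, `v_p` odd; `p ≡ 3` mod `4` have even `v_p`): `n ≡ 5 ^ (nu5 n)`. (`Nat.factorization_prod_pow_eq_self`, `Finset.prod_filter..`, `Finset.prod_congr` in `ZMod 4`, `ZMod 8`.)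
`sq_nu3`: `Nat.eq_sq_add_sq_iff` (Mathlib, `NumberTheory/SumTwoSquares`): for `p ∈ n.primeFactors` with `p % 4 = 3`: `Even (padicValNat p n)`.
-/

namespace Pool.Agent.Lib.MP_06b9d2_tln

open PowerSeries Pool.Agent.L1
open Pool.Agent.Lib.MP_06b9d2_ssp (PO)
open Pool.Agent.Lib.MP_06b9d2_tls (Lv2 mo2 Two Tl U V)

private theorem prod_aux {m : ℕ} (n : ℕ) (hn0 : n ≠ 0) (P : ℕ → Prop) [DecidablePred P] (c : ZMod m)
    (h : ∀ p ∈ n.primeFactors, (p : ZMod m) ^ (n.factorization p) = if P p then c else 1) :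
    (n : ZMod m) = c ^ (n.primeFactors.filter P).card := by
  have h1 : ((n.factorization.prod (fun p k => p ^ k) : ℕ) : ZMod m) = n := by
    congr 1
    exact Nat.prod_factorization_pow_eq_self hn0
  rw [← h1, Finsupp.prod, Nat.cast_prod, Nat.support_factorization]
  simp_rw [Nat.cast_pow]
  rw [Finset.prod_congr rfl h, Finset.prod_ite, Finset.prod_const, Finset.prod_const_one, mul_one]

private theorem odd_of_mem {n p : ℕ} (hn : n % 2 = 1) (hp : p ∈ n.primeFactors) : p % 2 = 1 := by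
  obtain ⟨k, hk⟩ := Nat.dvd_of_mem_primeFactors hp
  rw [hk, Nat.mul_mod] at hn
  rcases Nat.mod_two_eq_zero_or_one p with h | h
  · rw [h] at hn; simp at hn
  · exact h

theorem nu3_odd (n : ℕ) (hn : n % 2 = 1) : n % 4 = 3 ↔ nu3 n % 2 = 1 := by
  have hn0 : n ≠ 0 := by rintro rfl; simp at hn
  have key : (n : ZMod 4) = (-1 : ZMod 4) ^ nu3 n := by
    refine prod_aux n hn0 _ (-1) fun p hp => ?_
    have h1 := odd_of_mem hn hp
    have h2 : p % 4 = 1 ∨ p % 4 = 3 := by omega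
    rcases h2 with h2 | h2
    · rw [if_neg (by omega)]
      have h3 : (p : ZMod 4) = 1 := by
        have := (ZMod.natCast_eq_natCast_iff p 1 4).2 h2
        simpa using this
      rw [h3, one_pow]
    · have h3 : (p : ZMod 4) = -1 := by
        have := (ZMod.natCast_eq_natCast_iff p 3 4).2 h2
        rw [this]; decide
      rw [h3]
      rcases Nat.mod_two_eq_zero_or_one (n.factorization p) with h4 | h4
      · rw [if_neg (by omega), Even.neg_one_pow (Nat.even_iff.2 h4)]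
      · rw [if_pos ⟨h2, h4⟩, Odd.neg_one_pow (Nat.odd_iff.2 h4)]
  constructor
  · intro h
    by_contra h5
    have h6 : nu3 n % 2 = 0 := by omega
    rw [Even.neg_one_pow (Nat.even_iff.2 h6)] at key
    have h7 : n % 4 = 1 % 4 := (ZMod.natCast_eq_natCast_iff n 1 4).1 (by simpa using key)
    omega
  · intro h
    rw [Odd.neg_one_pow (Nat.odd_iff.2 h)] at key
    have h7 : n % 4 = 3 % 4 := (ZMod.natCast_eq_natCast_iff n 3 4).1 (by rw [key]; decide)
    omega

theorem nu5_odd (n : ℕ) (hn : n % 2 = 1) (h3 : nu3 n = 0) : n % 8 = 5 ↔ nu5 n % 2 = 1 := by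
  have hn0 : n ≠ 0 := by rintro rfl; simp at hn
  have hno : ∀ p ∈ n.primeFactors, ¬ (p % 4 = 3 ∧ n.factorization p % 2 = 1) := by
    have := Finset.card_eq_zero.1 h3
    exact Finset.filter_eq_empty_iff.1 this
  have key : (n : ZMod 8) = (5 : ZMod 8) ^ nu5 n := by
    refine prod_aux n hn0 _ 5 fun p hp => ?_
    have h1 := odd_of_mem hn hp
    have hno' := hno p hp
    have hsq : (p : ZMod 8) ^ 2 = 1 := by
      have h2 : p % 8 = 1 ∨ p % 8 = 3 ∨ p % 8 = 5 ∨ p % 8 = 7 := by omega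
      rcases h2 with h2 | h2 | h2 | h2
      · rw [(ZMod.natCast_eq_natCast_iff p 1 8).2 h2]; decide
      · rw [(ZMod.natCast_eq_natCast_iff p 3 8).2 h2]; decide
      · rw [(ZMod.natCast_eq_natCast_iff p 5 8).2 h2]; decide
      · rw [(ZMod.natCast_eq_natCast_iff p 7 8).2 h2]; decide
    rcases Nat.mod_two_eq_zero_or_one (n.factorization p) with h4 | h4
    · rw [if_neg (by omega)]
      obtain ⟨k, hk⟩ := Nat.even_iff.2 h4
      rw [hk, ← two_mul, pow_mul, hsq, one_pow]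
    · obtain ⟨k, hk⟩ := Nat.odd_iff.2 h4
      have h5 : (p : ZMod 8) ^ (n.factorization p) = p := by
        rw [hk, pow_add, pow_mul, hsq, one_pow, one_mul, pow_one]
      rw [h5]
      have h2 : p % 8 = 1 ∨ p % 8 = 5 := by omega
      rcases h2 with h2 | h2
      · rw [if_neg (by omega), (ZMod.natCast_eq_natCast_iff p 1 8).2 h2]
        simp
      · rw [if_pos ⟨h2, h4⟩, (ZMod.natCast_eq_natCast_iff p 5 8).2 h2]
        rfl
  have h25 : (5 : ZMod 8) ^ 2 = 1 := by decide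
  constructor
  · intro h
    by_contra h5
    obtain ⟨k, hk⟩ := Nat.even_iff.2 (show nu5 n % 2 = 0 by omega)
    rw [hk, ← two_mul, pow_mul, h25, one_pow] at key
    have h7 : n % 8 = 1 % 8 := (ZMod.natCast_eq_natCast_iff n 1 8).1 (by simpa using key)
    omega
  · intro h
    obtain ⟨k, hk⟩ := Nat.odd_iff.2 h
    rw [hk, pow_add, pow_mul, h25, one_pow, one_mul, pow_one] at key
    have h7 : n % 8 = 5 % 8 := (ZMod.natCast_eq_natCast_iff n 5 8).1 (by rw [key]; rfl)
    omega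

theorem sq_nu3 (n : ℕ) (h : ∃ x y, n = x ^ 2 + y ^ 2) : nu3 n = 0 := by
  have h1 := Nat.eq_sq_add_sq_iff.1 h
  refine Finset.card_eq_zero.2 (Finset.filter_eq_empty_iff.2 ?_)
  rintro p hp ⟨h2, h3⟩
  have h4 := h1 p hp h2
  rw [Nat.factorization_def n (Nat.prime_of_mem_primeFactors hp)] at h3
  have := Nat.even_iff.1 h4
  omega

end Pool.Agent.Lib.MP_06b9d2_tln
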