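import Pool.Agent.Lib.MP_06b9d2_tln.Rpa
import Pool.Agent.Lib.MP_06b9d2_tls.StM

/-!
Module TLN-ClA. The classes `Er` and `Cls` are closed under sums and products.

`PO_const`, `PO_add`, `PO_mul`, `PO_shift`, `PO_id`, `int_mem` are in `MP_06b9d2_ssp/POa.lean`, `PO_cg` in `MP_06b9d2_tls/StM.lean`.
`er_mul`: for `f`: `act M₁ f i = F i`, `F = c₁ f + δ₁ g₁`; apply `Er M₂` to `f` and to `g₁` ... in detail: `act (M₁ M₂) f = act M₂ F = c₁ act M₂ f + δ₁ act M₂ g₁` (linearity of `act M₂`), `act M₂ f = c₂ f + δ₂ g₂`, `act M₂ g₁ = c₂ g₁ + δ₂ g₃`: the result is `c₁ c₂ f + δ₁ c₂ g₁ + c₁ δ₂ g₂ + δ₁ δ₂ g₃`; for `er_mul` all of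
`δ₁ c₂`, `c₁ δ₂`, `δ₁ δ₂` are `δ` times an element of `O` (if `δ ≠ 0`: divide; `hδ`). `er_mono`: `δ₁ = δ (δ₁ / δ)`.
`cls_mul`: as in the header of the board paper: for `f` in `PO`: `act M₁ f = c₁ F` on `0..N`, `F = f + 2 ^ b (ε₁ R f + 2 ^ m g₁)` is in `PO` (`RO.po`, `ε₁` in `O`), `act (M₁ M₂) f = c₁ act M₂ F`, `act M₂ F = c₂ (F + 2 ^ b (ε₂ R F + 2 ^ m g₂))`, `R F = R f + 2 ^ b R h`, `h = ε₁ R f + 2 ^ m g₁` (`RO.add`, `RO.smul`), and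
`2 ^ b ε₂ R h = 2 ^ m (2 ^ (b - m) ε₂ R h)`. So `g = g₁ + g₂ + 2 ^ (b - m) ε₂ R h`.
`er_cls`: `δ = c 2 ^ b 2 ^ m z` with `z` in `O`. `cls_er`: `δ = c 2 ^ b`, `g = ε R f + 2 ^ m g`.
-/

namespace Pool.Agent.Lib.MP_06b9d2_tln

open PowerSeries Pool.Agent.L1
open Pool.Agent.Lib.MP_06b9d2_ssp (PO PO_const PO_add PO_mul PO_id int_mem)
open Pool.Agent.Lib.MP_06b9d2_tls (Lv2 mo2 Two Tl U V PO_cg)

variable {O : ValuationSubring ℂ} {N b m : ℕ} {R : (ℤ → ℂ) → ℤ → ℂ} {M M₁ M₂ : Mt N} {c c₁ c₂ δ δ₁ δ₂ ε ε₁ ε₂ : ℂ}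

private theorem ClA_cmul {z : ℂ} {f : ℤ → ℂ} (hz : O.valuation z ≤ 1) (hf : PO O f) :
    PO O (fun s => z * f s) :=
  PO_mul (PO_const z hz) hf

private theorem ClA_div {x y : ℂ} (h : O.valuation x ≤ O.valuation y) :
    ∃ z : ℂ, O.valuation z ≤ 1 ∧ x = y * z := by
  by_cases hy : y = 0
  · refine ⟨0, by rw [map_zero]; exact zero_le_one, ?_⟩
    rw [hy, map_zero] at h
    have h1 : O.valuation x = 0 := le_antisymm h zero_le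
    rw [hy, zero_mul]
    exact (map_eq_zero O.valuation).1 h1
  · refine ⟨x / y, ?_, by field_simp⟩
    rw [map_div₀]
    exact div_le_one_of_le₀ h zero_le

private theorem ClA_lin (M : Mt N) (f g : ℤ → ℂ) (x y : ℂ) (s : Fin (N + 1)) :
    act M (fun s => x * f s + y * g s) s = x * act M f s + y * act M g s := by
  unfold act
  rw [Finset.mul_sum, Finset.mul_sum, ← Finset.sum_add_distrib]
  exact Finset.sum_congr rfl fun j _ => by ring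

private theorem ClA_smul (M : Mt N) (f : ℤ → ℂ) (x : ℂ) (s : Fin (N + 1)) :
    act M (fun s => x * f s) s = x * act M f s := by
  unfold act
  rw [Finset.mul_sum]
  exact Finset.sum_congr rfl fun j _ => by ring

theorem er_one : Er O (1 : Mt N) 1 δ := by
  intro f _
  refine ⟨fun _ => 0, PO_const 0 (by rw [map_zero]; exact zero_le_one), fun s => ?_⟩
  rw [act_one]
  ring

theorem er_mono (h : Er O M c δ₁) (hδ : O.valuation δ₁ ≤ O.valuation δ) : Er O M c δ := by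
  obtain ⟨z, hz, hz'⟩ := ClA_div hδ
  intro f hf
  obtain ⟨g, hg, h1⟩ := h f hf
  refine ⟨fun s => z * g s, ClA_cmul hz hg, fun s => ?_⟩
  rw [h1 s, hz']
  ring

theorem er_add (h₁ : Er O M₁ c₁ δ) (h₂ : Er O M₂ c₂ δ) : Er O (M₁ + M₂) (c₁ + c₂) δ := by
  intro f hf
  obtain ⟨g₁, hg₁, e₁⟩ := h₁ f hf
  obtain ⟨g₂, hg₂, e₂⟩ := h₂ f hf
  refine ⟨fun s => g₁ s + g₂ s, PO_add hg₁ hg₂, fun s => ?_⟩
  rw [act_add, e₁ s, e₂ s]
  ring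

theorem er_smul (z : ℂ) (h : Er O M c δ) : Er O (z • M) (z * c) (z * δ) := by
  intro f hf
  obtain ⟨g, hg, e⟩ := h f hf
  refine ⟨g, hg, fun s => ?_⟩
  rw [act_smul, e s]
  ring

theorem er_mul (h₁ : Er O M₁ c₁ δ₁) (h₂ : Er O M₂ c₂ δ₂) (ha : O.valuation (δ₁ * c₂) ≤ O.valuation δ)
    (hb : O.valuation (c₁ * δ₂) ≤ O.valuation δ) (hc : O.valuation (δ₁ * δ₂) ≤ O.valuation δ) :
    Er O (M₁ * M₂) (c₁ * c₂) δ := by
  obtain ⟨za, hza, ea⟩ := ClA_div ha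
  obtain ⟨zb, hzb, eb⟩ := ClA_div hb
  obtain ⟨zc, hzc, ec⟩ := ClA_div hc
  intro f hf
  obtain ⟨g₁, hg₁, e₁⟩ := h₁ f hf
  obtain ⟨g₂, hg₂, e₂⟩ := h₂ f hf
  obtain ⟨g₃, hg₃, e₃⟩ := h₂ g₁ hg₁
  refine ⟨fun s => za * g₁ s + zb * g₂ s + zc * g₃ s,
    PO_add (PO_add (ClA_cmul hza hg₁) (ClA_cmul hzb hg₂)) (ClA_cmul hzc hg₃), fun s => ?_⟩
  rw [act_mul M₁ M₂ f (fun s => c₁ * f s + δ₁ * g₁ s) e₁ s, ClA_lin, e₂ s, e₃ s]
  linear_combination (g₁ ((s : ℕ) : ℤ)) * ea + (g₂ ((s : ℕ) : ℤ)) * eb + (g₃ ((s : ℕ) : ℤ)) * ec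

theorem cls_one : Cls O b m R (1 : Mt N) 1 0 := by
  intro f _
  refine ⟨fun _ => 0, PO_const 0 (by rw [map_zero]; exact zero_le_one), fun s => ?_⟩
  rw [act_one]
  ring

theorem cls_mul (hR : RO O R) (hb : m ≤ b) (h₁ : Cls O b m R M₁ c₁ ε₁) (h₂ : Cls O b m R M₂ c₂ ε₂)
    (hε₁ : O.valuation ε₁ ≤ 1) (hε₂ : O.valuation ε₂ ≤ 1) : Cls O b m R (M₁ * M₂) (c₁ * c₂) (ε₁ + ε₂) := by
  intro f hf
  obtain ⟨g₁, hg₁, e₁⟩ := h₁ f hf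
  have h2 : ∀ k : ℕ, O.valuation ((2 : ℂ) ^ k) ≤ 1 := fun k => by
    have := int_mem O ((2 : ℤ) ^ k)
    push_cast at this
    exact this
  have hh : PO O (fun s => ε₁ * R f s + 2 ^ m * g₁ s) :=
    PO_add (ClA_cmul hε₁ (hR.po f hf)) (ClA_cmul (h2 m) hg₁)
  have hF : PO O (fun s => f s + 2 ^ b * (ε₁ * R f s + 2 ^ m * g₁ s)) :=
    PO_add hf (ClA_cmul (h2 b) hh)
  obtain ⟨g₂, hg₂, e₂⟩ := h₂ _ hF
  have hRF : R (fun s => f s + 2 ^ b * (ε₁ * R f s + 2 ^ m * g₁ s)) =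
      fun s => R f s + 2 ^ b * R (fun s => ε₁ * R f s + 2 ^ m * g₁ s) s := by
    rw [hR.add, hR.smul]
  obtain ⟨j, rfl⟩ := Nat.exists_eq_add_of_le hb
  refine ⟨fun s => g₁ s + (g₂ s + (2 ^ j * ε₂) * R (fun s => ε₁ * R f s + 2 ^ m * g₁ s) s),
    PO_add hg₁ (PO_add hg₂ (ClA_cmul ?_ (hR.po _ hh))), fun s => ?_⟩
  · rw [map_mul]
    exact mul_le_one' (h2 j) hε₂
  · rw [act_mul M₁ M₂ f (fun s => c₁ * (f s + 2 ^ (m + j) * (ε₁ * R f s + 2 ^ m * g₁ s))) e₁ s,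
      ClA_smul, e₂ s, hRF]
    ring

theorem er_cls (h : Er O M c δ) (hδ : O.valuation δ ≤ O.valuation (c * 2 ^ (b + m))) (hc : c ≠ 0) :
    Cls O b m R M c 0 := by
  obtain ⟨z, hz, hz'⟩ := ClA_div hδ
  intro f hf
  obtain ⟨g, hg, h1⟩ := h f hf
  refine ⟨fun s => z * g s, ClA_cmul hz hg, fun s => ?_⟩
  rw [h1 s, hz']
  ring

theorem cls_er (hR : RO O R) (h : Cls O b m R M c ε) (hε : O.valuation ε ≤ 1) : Er O M c (c * 2 ^ b) := by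
  have h2 : O.valuation ((2 : ℂ) ^ m) ≤ 1 := by
    have := int_mem O ((2 : ℤ) ^ m)
    push_cast at this
    exact this
  intro f hf
  obtain ⟨g, hg, h1⟩ := h f hf
  refine ⟨fun s => ε * R f s + 2 ^ m * g s,
    PO_add (ClA_cmul hε (hR.po f hf)) (ClA_cmul h2 hg), fun s => ?_⟩
  rw [h1 s]
  ring

theorem ro_q (N : ℕ) : RO O (Rq N) := by
  refine ⟨fun f hf => ?_, fun f g => ?_, fun z f => ?_⟩
  · have h1 : O.valuation (-(N : ℂ)) ≤ 1 := by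
      have := int_mem O (-(N : ℤ))
      push_cast at this
      exact this
    have h2 : PO O (fun s : ℤ => (s : ℂ) ^ 2 - N * s) :=
      PO_cg (PO_add (PO_mul PO_id PO_id) (ClA_cmul h1 PO_id)) fun s => by ring
    exact PO_mul h2 hf
  · funext s
    unfold Rq
    ring
  · funext s
    unfold Rq
    ring

end Pool.Agent.Lib.MP_06b9d2_tln
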