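import Pool.Agent.Lib.MP_06b9d2_tln.TNa
import Pool.Agent.Lib.MP_06b9d2_tln.ClA

/-!
Module TLN-Asm. Products over the prime factors.

`pg_one`: `TN_one`, `rp_one`, `sy_one`, `cls_one`. `pg_mul`: `TN_mul`, `rp_mul`, `sy_mul`, `cls_mul`. `pg_n`: induction on the finite set `S ⊆ n.primeFactors` of the statement for `∏_{p ∈ S} p ^ v_p(n)` with the coefficient `∑_{p ∈ S} if (..) then 1 else 0` (`Finset.induction_on`; `Nat.Coprime.pow`, `Nat.Coprime.prod_right` for the coprimality);
`n = ∏ p ^ v_p(n)`: `Nat.factorization_prod_pow_eq_self`, `Nat.prod_factorization_eq_prod_primeFactors`. The sum of `if P p then 1 else 0` is the cardinality of the filter. The valuations of natural numbers are at most `1` (`int_mem`).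
-/

namespace Pool.Agent.Lib.MP_06b9d2_tln

open PowerSeries Pool.Agent.L1
open Pool.Agent.Lib.MP_06b9d2_ssp (PO)
open Pool.Agent.Lib.MP_06b9d2_tls (Lv2 mo2 Two Tl U V)

variable {O : ValuationSubring ℂ} {N b m : ℕ} {R : (ℤ → ℂ) → ℤ → ℂ} {mo : ℕ → ℂ⟦X⟧} {k : ℕ}

theorem pg_one : PG O N b m R k mo 1 0 :=
  ⟨1, 1, by rw [TN_one]; exact rp_one mo, sy_one, one_ne_zero, cls_one⟩

theorem pg_mul (hR : RO O R) (hmb : m ≤ b) {n₁ n₂ : ℕ} (hn₁ : n₁ ≠ 0) (hn₂ : n₂ ≠ 0) (hc : n₁.Coprime n₂)
    {ε₁ ε₂ : ℂ} (hε₁ : O.valuation ε₁ ≤ 1) (hε₂ : O.valuation ε₂ ≤ 1) (h₁ : PG O N b m R k mo n₁ ε₁)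
    (h₂ : PG O N b m R k mo n₂ ε₂) : PG O N b m R k mo (n₁ * n₂) (ε₁ + ε₂) := by
  obtain ⟨M₁, c₁, r₁, s₁, z₁, k₁⟩ := h₁
  obtain ⟨M₂, c₂, r₂, s₂, z₂, k₂⟩ := h₂
  refine ⟨M₁ * M₂, c₁ * c₂, ?_, sy_mul s₁ s₂, mul_ne_zero z₁ z₂, cls_mul hR hmb k₁ k₂ hε₁ hε₂⟩
  rw [TN_mul n₁ n₂ k hn₁ hn₂ hc]
  exact rp_mul r₁ r₂

private theorem asm_nat (O : ValuationSubring ℂ) (n : ℕ) : O.valuation (n : ℂ) ≤ 1 := by
  have h := Pool.Agent.Lib.MP_06b9d2_ssp.int_mem O (n : ℤ)
  rwa [Int.cast_natCast] at h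

theorem pg_n (hR : RO O R) (hmb : m ≤ b) (P : ℕ → Prop) [DecidablePred P] (n : ℕ) (hn : n ≠ 0)
    (h : ∀ p ∈ n.primeFactors, PG O N b m R k mo (p ^ n.factorization p) (if P p then 1 else 0)) :
    PG O N b m R k mo n (((n.primeFactors.filter P).card : ℕ) : ℂ) := by
  have key : ∀ S : Finset ℕ, S ⊆ n.primeFactors →
      PG O N b m R k mo (∏ p ∈ S, p ^ n.factorization p) (((S.filter P).card : ℕ) : ℂ) := by
    intro S
    induction S using Finset.induction_on with
    | empty =>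
      intro _
      simpa using (pg_one : PG O N b m R k mo 1 0)
    | insert p S hp ih =>
      intro hS
      have hpS : p ∈ n.primeFactors := hS (Finset.mem_insert_self p S)
      have hSS : S ⊆ n.primeFactors := fun q hq => hS (Finset.mem_insert_of_mem hq)
      have hpp : p.Prime := Nat.prime_of_mem_primeFactors hpS
      have h0 : ∀ q ∈ S, q.Prime := fun q hq => Nat.prime_of_mem_primeFactors (hSS hq)
      have hne : (∏ q ∈ S, q ^ n.factorization q) ≠ 0 :=
        Finset.prod_ne_zero_iff.mpr fun q hq => pow_ne_zero _ (h0 q hq).ne_zero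
      have hco : (p ^ n.factorization p).Coprime (∏ q ∈ S, q ^ n.factorization q) := by
        apply Nat.Coprime.prod_right
        intro q hq
        apply Nat.Coprime.pow
        rw [Nat.coprime_primes hpp (h0 q hq)]
        rintro rfl
        exact hp hq
      have h1 : O.valuation (if P p then (1 : ℂ) else 0) ≤ 1 := by
        split_ifs
        · exact (map_one O.valuation).le
        · rw [map_zero]
          exact zero_le_one
      have h2 := pg_mul hR hmb (pow_ne_zero _ hpp.ne_zero) hne hco h1 (asm_nat O _) (h p hpS) (ih hSS)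
      rw [Finset.prod_insert hp]
      have h3 : ((((insert p S).filter P).card : ℕ) : ℂ) =
          (if P p then (1 : ℂ) else 0) + (((S.filter P).card : ℕ) : ℂ) := by
        rw [Finset.filter_insert]
        split_ifs with hP
        · rw [Finset.card_insert_of_notMem fun h4 => hp (Finset.mem_of_mem_filter _ h4)]
          push_cast
          ring
        · rw [zero_add]
      rw [h3]
      exact h2
  have h1 := key n.primeFactors (Finset.Subset.refl _)
  have h2 : (∏ p ∈ n.primeFactors, p ^ n.factorization p) = n := by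
    rw [← Nat.prod_factorization_eq_prod_primeFactors]
    exact Nat.prod_factorization_pow_eq_self hn
  rwa [h2] at h1

end Pool.Agent.Lib.MP_06b9d2_tln
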