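import Pool.Agent.Lib.MP_06b9d2_tln.Defs
import Pool.Agent.Lib.MP_06b9d2_tl2.P3o
import Pool.Agent.Lib.MP_06b9d2_tl2.P4o

/-!
Module TLN-KuO. The universal congruence for `e = 1`, `m + n = 3, 4`. (Model: `MP_06b9d2_tl2/P3o.lean`, `P4o.lean`: the explicit values of `pc` are in the headers there; copy the private lemmas.)

`kp m n r = pc M m n r - [r = n] l ^ 2 (l ^ 4 - 1) ^ (m + n)` (`m + n > 0`, `e = 1`). `L(3,2) = L(3,1) + 8 z₃`, `L(3,4) = L(3,2) + 16 z₄`, `L(3,6) = L(3,2) + 32 z₅` (`lrel`), `K = Ko`. In each case `kp m n r - l L(3,1) K m n r` is `l` times a combination of `z₃`, `z₄`, `z₅`, `L(5,0)`, `L(5,2)`, `L(7,0)`, `L(5,4)`, `L(7,2)`, `L(9,0)`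
whose coefficients are divisible by the power of `2` in the statement (the coefficients of `L(3,1)` cancel).
-/

namespace Pool.Agent.Lib.MP_06b9d2_tln

open PowerSeries Pool.Agent.L1
open Pool.Agent.Lib.MP_06b9d2_ssp (PO)
open Pool.Agent.Lib.MP_06b9d2_tls (Lv2 mo2 Two Tl U V)

open Pool.Agent.Lib.MP_06b9d2_tl2 (Core MatD pc Qd Lc)
open Pool.Agent.Lib.MP_06b9d2_tl2 (lrel ent21 ent31 ent41 mat_00 mat_NN mat_low mat_top pc_deg pc_m00 pc_mn0)

set_option linter.unusedSimpArgs false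

variable {A Y : ℂ⟦X⟧} {a k : ℤ⟦X⟧} {l : ℕ} {M : ℕ → ℕ → ℕ → ℂ}

private lemma KuO_fin (x : ℂ) (n K : ℤ) (m : ℕ) (h1 : x = (n : ℂ)) (h2 : (2 ^ m : ℤ) ∣ n - K) :
    ∃ z : ℤ, x = ((K + 2 ^ m * z : ℤ) : ℂ) := by
  obtain ⟨z, hz⟩ := h2
  refine ⟨z, ?_⟩
  rw [h1, ← hz]
  congr 1
  ring

private lemma KuO_lin3 (q : Qd A Y a k) :
    ((2 : ℤ) ^ 11 ∣ (l : ℤ) * (-7680 * Lc l a k 3 2 - 294912 * Lc l a k 5 0 + 598016 * Lc l a k 3 4 + 393216000 * Lc l a k 5 2 + 6744440832 * Lc l a k 7 0) - (l : ℤ) * Lc l a k 3 1 * Ko 3 0 1) ∧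
    ((2 : ℤ) ^ 11 ∣ (l : ℤ) * (4096 * Lc l a k 3 4 + 3145728 * Lc l a k 5 2 + 50331648 * Lc l a k 7 0) - (l : ℤ) * Lc l a k 3 1 * Ko 3 0 2) ∧
    ((2 : ℤ) ^ 11 ∣ (l : ℤ) * (39680 * Lc l a k 3 2 + 1523712 * Lc l a k 5 0 - 1594624 * Lc l a k 3 4 - 1048510464 * Lc l a k 5 2 - 17984126976 * Lc l a k 7 0) - (l : ℤ) * Lc l a k 3 1 * Ko 2 1 1) ∧
    ((2 : ℤ) ^ 11 ∣ (l : ℤ) * (-2560 * Lc l a k 3 2 - 98304 * Lc l a k 5 0 + 1536 * Lc l a k 3 4 - 196608 * Lc l a k 5 2 + 6291456 * Lc l a k 7 0) - (l : ℤ) * Lc l a k 3 1 * Ko 2 1 2) := by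
  obtain ⟨z₁, z₂, z₃, z₄, z₅, h1, h2, h3, h4, h5⟩ := lrel q l
  have e4 : Lc l a k 3 4 = Lc l a k 3 1 + 8 * z₃ + 16 * z₄ := by rw [h4, h3]
  have e6 : Lc l a k 3 6 = Lc l a k 3 1 + 8 * z₃ + 32 * z₅ := by rw [h5, h3]
  have hm : ∀ (t x y c : ℤ), t ∣ x - y * c → t ∣ (l : ℤ) * x - (l : ℤ) * y * c := by
    intro t x y c hd
    have h0 : (l : ℤ) * x - (l : ℤ) * y * c = (l : ℤ) * (x - y * c) := by ring
    rw [h0]
    exact hd.mul_left _
  rw [h3, e4]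
  generalize Lc l a k 5 0 = x1
  generalize Lc l a k 5 2 = x2
  generalize Lc l a k 7 0 = x4
  generalize Lc l a k 3 1 = x0
  refine ⟨?_, ?_, ?_, ?_⟩ <;> apply hm <;> simp only [Ko] <;> norm_num only <;> omega

private lemma KuO_lin4 (q : Qd A Y a k) :
    ((2 : ℤ) ^ 13 ∣ (l : ℤ) * (15360 * Lc l a k 3 2 + 589824 * Lc l a k 5 0 - 2392064 * Lc l a k 3 4 - 1572864000 * Lc l a k 5 2 - 26977763328 * Lc l a k 7 0 + 80712704 * Lc l a k 3 6 + 464246079488 * Lc l a k 5 4 + 90687760498688 * Lc l a k 7 2 + 869358020591616 * Lc l a k 9 0) - (l : ℤ) * Lc l a k 3 1 * Ko 4 0 1) ∧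
    ((2 : ℤ) ^ 13 ∣ (l : ℤ) * (-16384 * Lc l a k 3 4 - 12582912 * Lc l a k 5 2 - 201326592 * Lc l a k 7 0 + 5275648 * Lc l a k 3 6 + 30406082560 * Lc l a k 5 4 + 5940006879232 * Lc l a k 7 2 + 56931938992128 * Lc l a k 9 0) - (l : ℤ) * Lc l a k 3 1 * Ko 4 0 2) ∧
    ((2 : ℤ) ^ 13 ∣ (l : ℤ) * (14680064 * Lc l a k 5 4 + 2952790016 * Lc l a k 7 2 + 25769803776 * Lc l a k 9 0) - (l : ℤ) * Lc l a k 3 1 * Ko 4 0 3) ∧
    ((2 : ℤ) ^ 11 ∣ (l : ℤ) * (-59520 * Lc l a k 3 2 - 2285568 * Lc l a k 5 0 + 4783872 * Lc l a k 3 4 + 3145531392 * Lc l a k 5 2 + 53952380928 * Lc l a k 7 0 - 129140352 * Lc l a k 3 6 - 742793682944 * Lc l a k 5 4 - 145100407046144 * Lc l a k 7 2 - 1390972772548608 * Lc l a k 9 0) - (l : ℤ) * Lc l a k 3 1 * Ko 3 1 1) ∧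
    ((2 : ℤ) ^ 11 ∣ (l : ℤ) * (7680 * Lc l a k 3 2 + 294912 * Lc l a k 5 0 - 602624 * Lc l a k 3 4 - 392626176 * Lc l a k 5 2 - 6763315200 * Lc l a k 7 0 + 17408 * Lc l a k 3 6 + 1114112 * Lc l a k 5 4 - 356515840 * Lc l a k 7 2 + 13690208256 * Lc l a k 9 0) - (l : ℤ) * Lc l a k 3 1 * Ko 3 1 2) ∧
    ((2 : ℤ) ^ 11 ∣ (l : ℤ) * (-4096 * Lc l a k 3 4 - 3145728 * Lc l a k 5 2 - 50331648 * Lc l a k 7 0 + 4096 * Lc l a k 3 6 + 262144 * Lc l a k 5 4 - 83886080 * Lc l a k 7 2 + 3221225472 * Lc l a k 9 0) - (l : ℤ) * Lc l a k 3 1 * Ko 3 1 3) ∧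
    ((2 : ℤ) ^ 12 ∣ (l : ℤ) * (2560 * Lc l a k 3 2 + 98304 * Lc l a k 5 0 - 3072 * Lc l a k 3 4 + 393216 * Lc l a k 5 2 - 12582912 * Lc l a k 7 0 + 512 * Lc l a k 3 6 + 32768 * Lc l a k 5 4 - 10485760 * Lc l a k 7 2 + 402653184 * Lc l a k 9 0) - (l : ℤ) * Lc l a k 3 1 * Ko 2 2 1) ∧
    ((2 : ℤ) ^ 12 ∣ (l : ℤ) * (-79360 * Lc l a k 3 2 - 3047424 * Lc l a k 5 0 + 6378496 * Lc l a k 3 4 + 4194041856 * Lc l a k 5 2 + 71936507904 * Lc l a k 7 0 - 129142272 * Lc l a k 3 6 - 742793805824 * Lc l a k 5 4 - 145100367724544 * Lc l a k 7 2 - 1390974282498048 * Lc l a k 9 0) - (l : ℤ) * Lc l a k 3 1 * Ko 2 2 2) ∧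
    ((2 : ℤ) ^ 12 ∣ (l : ℤ) * (2560 * Lc l a k 3 2 + 98304 * Lc l a k 5 0 - 3072 * Lc l a k 3 4 + 393216 * Lc l a k 5 2 - 12582912 * Lc l a k 7 0 + 512 * Lc l a k 3 6 + 32768 * Lc l a k 5 4 - 10485760 * Lc l a k 7 2 + 402653184 * Lc l a k 9 0) - (l : ℤ) * Lc l a k 3 1 * Ko 2 2 3) := by
  obtain ⟨z₁, z₂, z₃, z₄, z₅, h1, h2, h3, h4, h5⟩ := lrel q l
  have e4 : Lc l a k 3 4 = Lc l a k 3 1 + 8 * z₃ + 16 * z₄ := by rw [h4, h3]
  have e6 : Lc l a k 3 6 = Lc l a k 3 1 + 8 * z₃ + 32 * z₅ := by rw [h5, h3]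
  have hm : ∀ (t x y c : ℤ), t ∣ x - y * c → t ∣ (l : ℤ) * x - (l : ℤ) * y * c := by
    intro t x y c hd
    have h0 : (l : ℤ) * x - (l : ℤ) * y * c = (l : ℤ) * (x - y * c) := by ring
    rw [h0]
    exact hd.mul_left _
  rw [h3, e4, e6]
  generalize Lc l a k 5 0 = x1
  generalize Lc l a k 5 2 = x2
  generalize Lc l a k 5 4 = x3
  generalize Lc l a k 7 0 = x4
  generalize Lc l a k 7 2 = x5
  generalize Lc l a k 9 0 = x6
  generalize Lc l a k 3 1 = x0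
  refine ⟨?_, ?_, ?_, ?_, ?_, ?_, ?_, ?_, ?_⟩ <;> apply hm <;> simp only [Ko] <;> norm_num only <;> omega

theorem kuo30 (h : Core A Y) (q : Qd A Y a k) (hl : l.Prime) (hl2 : l ≠ 2) (hM : MatD l A Y 1 M) (r : ℕ) :
    ∃ z : ℤ, kp l 1 (pc M) 3 0 r = (((l : ℤ) * Lc l a k 3 1 * Ko 3 0 r + 2 ^ 11 * z : ℤ) : ℂ) := by
  obtain ⟨d1, d2, d3, d4⟩ := KuO_lin3 (l := l) q
  obtain ⟨a20, a21⟩ := ent21 h q hl hl2 hM
  obtain ⟨b0, b1, b2, b3⟩ := ent31 h q hl hl2 hM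
  have s1 : M 2 1 2 = M 2 1 0 := hM.sym 2 1 0 (by norm_num) (by norm_num)
  have s2 : M 3 2 0 = M 3 1 3 := hM.sym 3 1 3 (by norm_num) (by norm_num)
  have s3 : M 3 2 1 = M 3 1 2 := hM.sym 3 1 2 (by norm_num) (by norm_num)
  have s4 : M 3 2 2 = M 3 1 1 := hM.sym 3 1 1 (by norm_num) (by norm_num)
  have s5 : M 3 2 3 = M 3 1 0 := hM.sym 3 1 0 (by norm_num) (by norm_num)
  have f000 : M 0 0 0 = (l : ℂ) + (l : ℂ) ^ 2 := mat_00 h hl hl2 hM 0
  have f010 : M 0 1 0 = 0 := hM.out 0 1 0 (by norm_num)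
  have f020 : M 0 2 0 = 0 := hM.out 0 2 0 (by norm_num)
  have f030 : M 0 3 0 = 0 := hM.out 0 3 0 (by norm_num)
  have f100 : M 1 0 0 = (l : ℂ) + (l : ℂ) ^ 6 := mat_00 h hl hl2 hM 1
  have f101 : M 1 0 1 = 0 := mat_low h hl hl2 hM 1 1 (by norm_num) (by norm_num)
  have f110 : M 1 1 0 = 0 := mat_top h hl hl2 hM 1 0 (by norm_num)
  have f111 : M 1 1 1 = (l : ℂ) + (l : ℂ) ^ 6 := mat_NN h hl hl2 hM 1
  have f120 : M 1 2 0 = 0 := hM.out 1 2 0 (by norm_num)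
  have f121 : M 1 2 1 = 0 := hM.out 1 2 1 (by norm_num)
  have f130 : M 1 3 0 = 0 := hM.out 1 3 0 (by norm_num)
  have f131 : M 1 3 1 = 0 := hM.out 1 3 1 (by norm_num)
  have f200 : M 2 0 0 = (l : ℂ) + (l : ℂ) ^ 10 := mat_00 h hl hl2 hM 2
  have f201 : M 2 0 1 = 0 := mat_low h hl hl2 hM 2 1 (by norm_num) (by norm_num)
  have f202 : M 2 0 2 = 0 := mat_low h hl hl2 hM 2 2 (by norm_num) (by norm_num)
  have f220 : M 2 2 0 = 0 := mat_top h hl hl2 hM 2 0 (by norm_num)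
  have f221 : M 2 2 1 = 0 := mat_top h hl hl2 hM 2 1 (by norm_num)
  have f222 : M 2 2 2 = (l : ℂ) + (l : ℂ) ^ 10 := mat_NN h hl hl2 hM 2
  have f230 : M 2 3 0 = 0 := hM.out 2 3 0 (by norm_num)
  have f231 : M 2 3 1 = 0 := hM.out 2 3 1 (by norm_num)
  have f232 : M 2 3 2 = 0 := hM.out 2 3 2 (by norm_num)
  have f300 : M 3 0 0 = (l : ℂ) + (l : ℂ) ^ 14 := mat_00 h hl hl2 hM 3
  have f301 : M 3 0 1 = 0 := mat_low h hl hl2 hM 3 1 (by norm_num) (by norm_num)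
  have f302 : M 3 0 2 = 0 := mat_low h hl hl2 hM 3 2 (by norm_num) (by norm_num)
  have f303 : M 3 0 3 = 0 := mat_low h hl hl2 hM 3 3 (by norm_num) (by norm_num)
  have f330 : M 3 3 0 = 0 := mat_top h hl hl2 hM 3 0 (by norm_num)
  have f331 : M 3 3 1 = 0 := mat_top h hl hl2 hM 3 1 (by norm_num)
  have f332 : M 3 3 2 = 0 := mat_top h hl hl2 hM 3 2 (by norm_num)
  have f333 : M 3 3 3 = (l : ℂ) + (l : ℂ) ^ 14 := mat_NN h hl hl2 hM 3
  rcases lt_or_ge 3 r with hr4 | hr4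
  · have hK : Ko 3 0 r = 0 := by
      obtain ⟨t, rfl⟩ : ∃ t, r = t + 4 := ⟨r - 4, by omega⟩
      rfl
    have hne : r ≠ 0 := by omega
    refine ⟨0, ?_⟩
    simp only [kp]
    rw [pc_deg hM 3 0 r hr4, hK, if_neg hne]
    push_cast
    ring
  interval_cases r
  · refine ⟨0, ?_⟩
    simp only [kp]
    rw [pc_m00 h hl hl2 hM 3 (by norm_num)]
    simp only [Ko]
    push_cast
    norm_num
    try ring
  · refine KuO_fin _ ((l : ℤ) * (-7680 * Lc l a k 3 2 - 294912 * Lc l a k 5 0 + 598016 * Lc l a k 3 4 + 393216000 * Lc l a k 5 2 + 6744440832 * Lc l a k 7 0)) _ _ ?_ d1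
    simp only [kp, pc, Finset.sum_range_succ, Finset.sum_range_zero, zero_add, Nat.choose]
    norm_num [Nat.choose, a20, a21, b0, b1, b2, b3, s1, s2, s3, s4, s5, f000, f010, f020, f030, f100, f101, f110, f111, f120, f121, f130, f131, f200, f201, f202, f220, f221, f222, f230, f231, f232, f300, f301, f302, f303, f330, f331, f332, f333]
    try ring
  · refine KuO_fin _ ((l : ℤ) * (4096 * Lc l a k 3 4 + 3145728 * Lc l a k 5 2 + 50331648 * Lc l a k 7 0)) _ _ ?_ d2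
    simp only [kp, pc, Finset.sum_range_succ, Finset.sum_range_zero, zero_add, Nat.choose]
    norm_num [Nat.choose, a20, a21, b0, b1, b2, b3, s1, s2, s3, s4, s5, f000, f010, f020, f030, f100, f101, f110, f111, f120, f121, f130, f131, f200, f201, f202, f220, f221, f222, f230, f231, f232, f300, f301, f302, f303, f330, f331, f332, f333]
    try ring
  · refine ⟨0, ?_⟩
    simp [kp, Ko, pc, Finset.sum_range_succ, Nat.choose, a20, a21, b0, b1, b2, b3, s1, s2, s3, s4, s5, f000, f010, f020, f030, f100, f101, f110, f111, f120, f121, f130, f131, f200, f201, f202, f220, f221, f222, f230, f231, f232, f300, f301, f302, f303, f330, f331, f332, f333]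

theorem kuo21 (h : Core A Y) (q : Qd A Y a k) (hl : l.Prime) (hl2 : l ≠ 2) (hM : MatD l A Y 1 M) (r : ℕ) :
    ∃ z : ℤ, kp l 1 (pc M) 2 1 r = (((l : ℤ) * Lc l a k 3 1 * Ko 2 1 r + 2 ^ 11 * z : ℤ) : ℂ) := by
  obtain ⟨d1, d2, d3, d4⟩ := KuO_lin3 (l := l) q
  obtain ⟨a20, a21⟩ := ent21 h q hl hl2 hM
  obtain ⟨b0, b1, b2, b3⟩ := ent31 h q hl hl2 hM
  have s1 : M 2 1 2 = M 2 1 0 := hM.sym 2 1 0 (by norm_num) (by norm_num)
  have s2 : M 3 2 0 = M 3 1 3 := hM.sym 3 1 3 (by norm_num) (by norm_num)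
  have s3 : M 3 2 1 = M 3 1 2 := hM.sym 3 1 2 (by norm_num) (by norm_num)
  have s4 : M 3 2 2 = M 3 1 1 := hM.sym 3 1 1 (by norm_num) (by norm_num)
  have s5 : M 3 2 3 = M 3 1 0 := hM.sym 3 1 0 (by norm_num) (by norm_num)
  have f000 : M 0 0 0 = (l : ℂ) + (l : ℂ) ^ 2 := mat_00 h hl hl2 hM 0
  have f010 : M 0 1 0 = 0 := hM.out 0 1 0 (by norm_num)
  have f020 : M 0 2 0 = 0 := hM.out 0 2 0 (by norm_num)
  have f030 : M 0 3 0 = 0 := hM.out 0 3 0 (by norm_num)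
  have f100 : M 1 0 0 = (l : ℂ) + (l : ℂ) ^ 6 := mat_00 h hl hl2 hM 1
  have f101 : M 1 0 1 = 0 := mat_low h hl hl2 hM 1 1 (by norm_num) (by norm_num)
  have f110 : M 1 1 0 = 0 := mat_top h hl hl2 hM 1 0 (by norm_num)
  have f111 : M 1 1 1 = (l : ℂ) + (l : ℂ) ^ 6 := mat_NN h hl hl2 hM 1
  have f120 : M 1 2 0 = 0 := hM.out 1 2 0 (by norm_num)
  have f121 : M 1 2 1 = 0 := hM.out 1 2 1 (by norm_num)
  have f130 : M 1 3 0 = 0 := hM.out 1 3 0 (by norm_num)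
  have f131 : M 1 3 1 = 0 := hM.out 1 3 1 (by norm_num)
  have f200 : M 2 0 0 = (l : ℂ) + (l : ℂ) ^ 10 := mat_00 h hl hl2 hM 2
  have f201 : M 2 0 1 = 0 := mat_low h hl hl2 hM 2 1 (by norm_num) (by norm_num)
  have f202 : M 2 0 2 = 0 := mat_low h hl hl2 hM 2 2 (by norm_num) (by norm_num)
  have f220 : M 2 2 0 = 0 := mat_top h hl hl2 hM 2 0 (by norm_num)
  have f221 : M 2 2 1 = 0 := mat_top h hl hl2 hM 2 1 (by norm_num)
  have f222 : M 2 2 2 = (l : ℂ) + (l : ℂ) ^ 10 := mat_NN h hl hl2 hM 2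
  have f230 : M 2 3 0 = 0 := hM.out 2 3 0 (by norm_num)
  have f231 : M 2 3 1 = 0 := hM.out 2 3 1 (by norm_num)
  have f232 : M 2 3 2 = 0 := hM.out 2 3 2 (by norm_num)
  have f300 : M 3 0 0 = (l : ℂ) + (l : ℂ) ^ 14 := mat_00 h hl hl2 hM 3
  have f301 : M 3 0 1 = 0 := mat_low h hl hl2 hM 3 1 (by norm_num) (by norm_num)
  have f302 : M 3 0 2 = 0 := mat_low h hl hl2 hM 3 2 (by norm_num) (by norm_num)
  have f303 : M 3 0 3 = 0 := mat_low h hl hl2 hM 3 3 (by norm_num) (by norm_num)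
  have f330 : M 3 3 0 = 0 := mat_top h hl hl2 hM 3 0 (by norm_num)
  have f331 : M 3 3 1 = 0 := mat_top h hl hl2 hM 3 1 (by norm_num)
  have f332 : M 3 3 2 = 0 := mat_top h hl hl2 hM 3 2 (by norm_num)
  have f333 : M 3 3 3 = (l : ℂ) + (l : ℂ) ^ 14 := mat_NN h hl hl2 hM 3
  rcases lt_or_ge 3 r with hr4 | hr4
  · have hK : Ko 2 1 r = 0 := by
      obtain ⟨t, rfl⟩ : ∃ t, r = t + 4 := ⟨r - 4, by omega⟩
      rfl
    have hne : r ≠ 1 := by omega
    refine ⟨0, ?_⟩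
    simp only [kp]
    rw [pc_deg hM 2 1 r hr4, hK, if_neg hne]
    push_cast
    ring
  interval_cases r
  · refine ⟨0, ?_⟩
    simp only [kp]
    rw [pc_mn0 h hl hl2 hM 2 1 (by norm_num)]
    simp only [Ko]
    push_cast
    norm_num
    try ring
  · refine KuO_fin _ ((l : ℤ) * (39680 * Lc l a k 3 2 + 1523712 * Lc l a k 5 0 - 1594624 * Lc l a k 3 4 - 1048510464 * Lc l a k 5 2 - 17984126976 * Lc l a k 7 0)) _ _ ?_ d3
    simp only [kp, pc, Finset.sum_range_succ, Finset.sum_range_zero, zero_add, Nat.choose]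
    norm_num [Nat.choose, a20, a21, b0, b1, b2, b3, s1, s2, s3, s4, s5, f000, f010, f020, f030, f100, f101, f110, f111, f120, f121, f130, f131, f200, f201, f202, f220, f221, f222, f230, f231, f232, f300, f301, f302, f303, f330, f331, f332, f333]
    try ring
  · refine KuO_fin _ ((l : ℤ) * (-2560 * Lc l a k 3 2 - 98304 * Lc l a k 5 0 + 1536 * Lc l a k 3 4 - 196608 * Lc l a k 5 2 + 6291456 * Lc l a k 7 0)) _ _ ?_ d4
    simp only [kp, pc, Finset.sum_range_succ, Finset.sum_range_zero, zero_add, Nat.choose]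
    norm_num [Nat.choose, a20, a21, b0, b1, b2, b3, s1, s2, s3, s4, s5, f000, f010, f020, f030, f100, f101, f110, f111, f120, f121, f130, f131, f200, f201, f202, f220, f221, f222, f230, f231, f232, f300, f301, f302, f303, f330, f331, f332, f333]
    try ring
  · refine ⟨0, ?_⟩
    simp [kp, Ko, pc, Finset.sum_range_succ, Nat.choose, a20, a21, b0, b1, b2, b3, s1, s2, s3, s4, s5, f000, f010, f020, f030, f100, f101, f110, f111, f120, f121, f130, f131, f200, f201, f202, f220, f221, f222, f230, f231, f232, f300, f301, f302, f303, f330, f331, f332, f333]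

theorem kuo40 (h : Core A Y) (q : Qd A Y a k) (hl : l.Prime) (hl2 : l ≠ 2) (hM : MatD l A Y 1 M) (r : ℕ) :
    ∃ z : ℤ, kp l 1 (pc M) 4 0 r = (((l : ℤ) * Lc l a k 3 1 * Ko 4 0 r + 2 ^ 13 * z : ℤ) : ℂ) := by
  obtain ⟨d1, d2, d3, d4, d5, d6, d7, d8, d9⟩ := KuO_lin4 (l := l) q
  obtain ⟨a20, a21⟩ := ent21 h q hl hl2 hM
  obtain ⟨b0, b1, b2, b3⟩ := ent31 h q hl hl2 hM
  obtain ⟨c0, c1, c2, c3, c4, c5, c6, c7⟩ := ent41 h q hl hl2 hM
  have s1 : M 2 1 2 = M 2 1 0 := hM.sym 2 1 0 (by norm_num) (by norm_num)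
  have s2 : M 3 2 0 = M 3 1 3 := hM.sym 3 1 3 (by norm_num) (by norm_num)
  have s3 : M 3 2 1 = M 3 1 2 := hM.sym 3 1 2 (by norm_num) (by norm_num)
  have s4 : M 3 2 2 = M 3 1 1 := hM.sym 3 1 1 (by norm_num) (by norm_num)
  have s5 : M 3 2 3 = M 3 1 0 := hM.sym 3 1 0 (by norm_num) (by norm_num)
  have s6 : M 4 3 0 = M 4 1 4 := hM.sym 4 1 4 (by norm_num) (by norm_num)
  have s7 : M 4 3 1 = M 4 1 3 := hM.sym 4 1 3 (by norm_num) (by norm_num)
  have s8 : M 4 3 2 = M 4 1 2 := hM.sym 4 1 2 (by norm_num) (by norm_num)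
  have s9 : M 4 3 3 = M 4 1 1 := hM.sym 4 1 1 (by norm_num) (by norm_num)
  have s10 : M 4 3 4 = M 4 1 0 := hM.sym 4 1 0 (by norm_num) (by norm_num)
  have s11 : M 4 2 3 = M 4 2 1 := hM.sym 4 2 1 (by norm_num) (by norm_num)
  have s12 : M 4 2 4 = M 4 2 0 := hM.sym 4 2 0 (by norm_num) (by norm_num)
  have f000 : M 0 0 0 = (l : ℂ) + (l : ℂ) ^ 2 := mat_00 h hl hl2 hM 0
  have f010 : M 0 1 0 = 0 := hM.out 0 1 0 (by norm_num)
  have f020 : M 0 2 0 = 0 := hM.out 0 2 0 (by norm_num)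
  have f030 : M 0 3 0 = 0 := hM.out 0 3 0 (by norm_num)
  have f040 : M 0 4 0 = 0 := hM.out 0 4 0 (by norm_num)
  have f100 : M 1 0 0 = (l : ℂ) + (l : ℂ) ^ 6 := mat_00 h hl hl2 hM 1
  have f101 : M 1 0 1 = 0 := mat_low h hl hl2 hM 1 1 (by norm_num) (by norm_num)
  have f110 : M 1 1 0 = 0 := mat_top h hl hl2 hM 1 0 (by norm_num)
  have f111 : M 1 1 1 = (l : ℂ) + (l : ℂ) ^ 6 := mat_NN h hl hl2 hM 1
  have f120 : M 1 2 0 = 0 := hM.out 1 2 0 (by norm_num)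
  have f121 : M 1 2 1 = 0 := hM.out 1 2 1 (by norm_num)
  have f130 : M 1 3 0 = 0 := hM.out 1 3 0 (by norm_num)
  have f131 : M 1 3 1 = 0 := hM.out 1 3 1 (by norm_num)
  have f140 : M 1 4 0 = 0 := hM.out 1 4 0 (by norm_num)
  have f141 : M 1 4 1 = 0 := hM.out 1 4 1 (by norm_num)
  have f200 : M 2 0 0 = (l : ℂ) + (l : ℂ) ^ 10 := mat_00 h hl hl2 hM 2
  have f201 : M 2 0 1 = 0 := mat_low h hl hl2 hM 2 1 (by norm_num) (by norm_num)
  have f202 : M 2 0 2 = 0 := mat_low h hl hl2 hM 2 2 (by norm_num) (by norm_num)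
  have f220 : M 2 2 0 = 0 := mat_top h hl hl2 hM 2 0 (by norm_num)
  have f221 : M 2 2 1 = 0 := mat_top h hl hl2 hM 2 1 (by norm_num)
  have f222 : M 2 2 2 = (l : ℂ) + (l : ℂ) ^ 10 := mat_NN h hl hl2 hM 2
  have f230 : M 2 3 0 = 0 := hM.out 2 3 0 (by norm_num)
  have f231 : M 2 3 1 = 0 := hM.out 2 3 1 (by norm_num)
  have f232 : M 2 3 2 = 0 := hM.out 2 3 2 (by norm_num)
  have f240 : M 2 4 0 = 0 := hM.out 2 4 0 (by norm_num)
  have f241 : M 2 4 1 = 0 := hM.out 2 4 1 (by norm_num)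
  have f242 : M 2 4 2 = 0 := hM.out 2 4 2 (by norm_num)
  have f300 : M 3 0 0 = (l : ℂ) + (l : ℂ) ^ 14 := mat_00 h hl hl2 hM 3
  have f301 : M 3 0 1 = 0 := mat_low h hl hl2 hM 3 1 (by norm_num) (by norm_num)
  have f302 : M 3 0 2 = 0 := mat_low h hl hl2 hM 3 2 (by norm_num) (by norm_num)
  have f303 : M 3 0 3 = 0 := mat_low h hl hl2 hM 3 3 (by norm_num) (by norm_num)
  have f330 : M 3 3 0 = 0 := mat_top h hl hl2 hM 3 0 (by norm_num)
  have f331 : M 3 3 1 = 0 := mat_top h hl hl2 hM 3 1 (by norm_num)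
  have f332 : M 3 3 2 = 0 := mat_top h hl hl2 hM 3 2 (by norm_num)
  have f333 : M 3 3 3 = (l : ℂ) + (l : ℂ) ^ 14 := mat_NN h hl hl2 hM 3
  have f340 : M 3 4 0 = 0 := hM.out 3 4 0 (by norm_num)
  have f341 : M 3 4 1 = 0 := hM.out 3 4 1 (by norm_num)
  have f342 : M 3 4 2 = 0 := hM.out 3 4 2 (by norm_num)
  have f343 : M 3 4 3 = 0 := hM.out 3 4 3 (by norm_num)
  have f400 : M 4 0 0 = (l : ℂ) + (l : ℂ) ^ 18 := mat_00 h hl hl2 hM 4
  have f401 : M 4 0 1 = 0 := mat_low h hl hl2 hM 4 1 (by norm_num) (by norm_num)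
  have f402 : M 4 0 2 = 0 := mat_low h hl hl2 hM 4 2 (by norm_num) (by norm_num)
  have f403 : M 4 0 3 = 0 := mat_low h hl hl2 hM 4 3 (by norm_num) (by norm_num)
  have f404 : M 4 0 4 = 0 := mat_low h hl hl2 hM 4 4 (by norm_num) (by norm_num)
  have f440 : M 4 4 0 = 0 := mat_top h hl hl2 hM 4 0 (by norm_num)
  have f441 : M 4 4 1 = 0 := mat_top h hl hl2 hM 4 1 (by norm_num)
  have f442 : M 4 4 2 = 0 := mat_top h hl hl2 hM 4 2 (by norm_num)
  have f443 : M 4 4 3 = 0 := mat_top h hl hl2 hM 4 3 (by norm_num)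
  have f444 : M 4 4 4 = (l : ℂ) + (l : ℂ) ^ 18 := mat_NN h hl hl2 hM 4
  rcases lt_or_ge 4 r with hr4 | hr4
  · have hK : Ko 4 0 r = 0 := by
      obtain ⟨t, rfl⟩ : ∃ t, r = t + 5 := ⟨r - 5, by omega⟩
      rfl
    have hne : r ≠ 0 := by omega
    refine ⟨0, ?_⟩
    simp only [kp]
    rw [pc_deg hM 4 0 r hr4, hK, if_neg hne]
    push_cast
    ring
  interval_cases r
  · refine ⟨0, ?_⟩
    simp only [kp]
    rw [pc_m00 h hl hl2 hM 4 (by norm_num)]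
    simp only [Ko]
    push_cast
    norm_num
    try ring
  · refine KuO_fin _ ((l : ℤ) * (15360 * Lc l a k 3 2 + 589824 * Lc l a k 5 0 - 2392064 * Lc l a k 3 4 - 1572864000 * Lc l a k 5 2 - 26977763328 * Lc l a k 7 0 + 80712704 * Lc l a k 3 6 + 464246079488 * Lc l a k 5 4 + 90687760498688 * Lc l a k 7 2 + 869358020591616 * Lc l a k 9 0)) _ _ ?_ d1
    simp only [kp, pc, Finset.sum_range_succ, Finset.sum_range_zero, zero_add, Nat.choose]
    norm_num [Nat.choose, a20, a21, b0, b1, b2, b3, c0, c1, c2, c3, c4, c5, c6, c7, s1, s2, s3, s4, s5, s6, s7, s8, s9, s10, s11, s12, f000, f010, f020, f030, f040, f100, f101, f110, f111, f120, f121, f130, f131, f140, f141, f200, f201, f202, f220, f221, f222, f230, f231, f232, f240, f241, f242, f300, f301, f302, f303, f330, f331, f332, f333, f340, f341, f342, f343, f400, f401, f402, f403, f404, f440, f441, f442, f443, f444]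
    try ring
  · refine KuO_fin _ ((l : ℤ) * (-16384 * Lc l a k 3 4 - 12582912 * Lc l a k 5 2 - 201326592 * Lc l a k 7 0 + 5275648 * Lc l a k 3 6 + 30406082560 * Lc l a k 5 4 + 5940006879232 * Lc l a k 7 2 + 56931938992128 * Lc l a k 9 0)) _ _ ?_ d2
    simp only [kp, pc, Finset.sum_range_succ, Finset.sum_range_zero, zero_add, Nat.choose]
    norm_num [Nat.choose, a20, a21, b0, b1, b2, b3, c0, c1, c2, c3, c4, c5, c6, c7, s1, s2, s3, s4, s5, s6, s7, s8, s9, s10, s11, s12, f000, f010, f020, f030, f040, f100, f101, f110, f111, f120, f121, f130, f131, f140, f141, f200, f201, f202, f220, f221, f222, f230, f231, f232, f240, f241, f242, f300, f301, f302, f303, f330, f331, f332, f333, f340, f341, f342, f343, f400, f401, f402, f403, f404, f440, f441, f442, f443, f444]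
    try ring
  · refine KuO_fin _ ((l : ℤ) * (14680064 * Lc l a k 5 4 + 2952790016 * Lc l a k 7 2 + 25769803776 * Lc l a k 9 0)) _ _ ?_ d3
    simp only [kp, pc, Finset.sum_range_succ, Finset.sum_range_zero, zero_add, Nat.choose]
    norm_num [Nat.choose, a20, a21, b0, b1, b2, b3, c0, c1, c2, c3, c4, c5, c6, c7, s1, s2, s3, s4, s5, s6, s7, s8, s9, s10, s11, s12, f000, f010, f020, f030, f040, f100, f101, f110, f111, f120, f121, f130, f131, f140, f141, f200, f201, f202, f220, f221, f222, f230, f231, f232, f240, f241, f242, f300, f301, f302, f303, f330, f331, f332, f333, f340, f341, f342, f343, f400, f401, f402, f403, f404, f440, f441, f442, f443, f444]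
    try ring
  · refine ⟨0, ?_⟩
    simp [kp, Ko, pc, Finset.sum_range_succ, Nat.choose, a20, a21, b0, b1, b2, b3, c0, c1, c2, c3, c4, c5, c6, c7, s1, s2, s3, s4, s5, s6, s7, s8, s9, s10, s11, s12, f000, f010, f020, f030, f040, f100, f101, f110, f111, f120, f121, f130, f131, f140, f141, f200, f201, f202, f220, f221, f222, f230, f231, f232, f240, f241, f242, f300, f301, f302, f303, f330, f331, f332, f333, f340, f341, f342, f343, f400, f401, f402, f403, f404, f440, f441, f442, f443, f444]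

theorem kuo31 (h : Core A Y) (q : Qd A Y a k) (hl : l.Prime) (hl2 : l ≠ 2) (hM : MatD l A Y 1 M) (r : ℕ) :
    ∃ z : ℤ, kp l 1 (pc M) 3 1 r = (((l : ℤ) * Lc l a k 3 1 * Ko 3 1 r + 2 ^ 11 * z : ℤ) : ℂ) := by
  obtain ⟨d1, d2, d3, d4, d5, d6, d7, d8, d9⟩ := KuO_lin4 (l := l) q
  obtain ⟨a20, a21⟩ := ent21 h q hl hl2 hM
  obtain ⟨b0, b1, b2, b3⟩ := ent31 h q hl hl2 hM
  obtain ⟨c0, c1, c2, c3, c4, c5, c6, c7⟩ := ent41 h q hl hl2 hM
  have s1 : M 2 1 2 = M 2 1 0 := hM.sym 2 1 0 (by norm_num) (by norm_num)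
  have s2 : M 3 2 0 = M 3 1 3 := hM.sym 3 1 3 (by norm_num) (by norm_num)
  have s3 : M 3 2 1 = M 3 1 2 := hM.sym 3 1 2 (by norm_num) (by norm_num)
  have s4 : M 3 2 2 = M 3 1 1 := hM.sym 3 1 1 (by norm_num) (by norm_num)
  have s5 : M 3 2 3 = M 3 1 0 := hM.sym 3 1 0 (by norm_num) (by norm_num)
  have s6 : M 4 3 0 = M 4 1 4 := hM.sym 4 1 4 (by norm_num) (by norm_num)
  have s7 : M 4 3 1 = M 4 1 3 := hM.sym 4 1 3 (by norm_num) (by norm_num)
  have s8 : M 4 3 2 = M 4 1 2 := hM.sym 4 1 2 (by norm_num) (by norm_num)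
  have s9 : M 4 3 3 = M 4 1 1 := hM.sym 4 1 1 (by norm_num) (by norm_num)
  have s10 : M 4 3 4 = M 4 1 0 := hM.sym 4 1 0 (by norm_num) (by norm_num)
  have s11 : M 4 2 3 = M 4 2 1 := hM.sym 4 2 1 (by norm_num) (by norm_num)
  have s12 : M 4 2 4 = M 4 2 0 := hM.sym 4 2 0 (by norm_num) (by norm_num)
  have f000 : M 0 0 0 = (l : ℂ) + (l : ℂ) ^ 2 := mat_00 h hl hl2 hM 0
  have f010 : M 0 1 0 = 0 := hM.out 0 1 0 (by norm_num)
  have f020 : M 0 2 0 = 0 := hM.out 0 2 0 (by norm_num)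
  have f030 : M 0 3 0 = 0 := hM.out 0 3 0 (by norm_num)
  have f040 : M 0 4 0 = 0 := hM.out 0 4 0 (by norm_num)
  have f100 : M 1 0 0 = (l : ℂ) + (l : ℂ) ^ 6 := mat_00 h hl hl2 hM 1
  have f101 : M 1 0 1 = 0 := mat_low h hl hl2 hM 1 1 (by norm_num) (by norm_num)
  have f110 : M 1 1 0 = 0 := mat_top h hl hl2 hM 1 0 (by norm_num)
  have f111 : M 1 1 1 = (l : ℂ) + (l : ℂ) ^ 6 := mat_NN h hl hl2 hM 1
  have f120 : M 1 2 0 = 0 := hM.out 1 2 0 (by norm_num)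
  have f121 : M 1 2 1 = 0 := hM.out 1 2 1 (by norm_num)
  have f130 : M 1 3 0 = 0 := hM.out 1 3 0 (by norm_num)
  have f131 : M 1 3 1 = 0 := hM.out 1 3 1 (by norm_num)
  have f140 : M 1 4 0 = 0 := hM.out 1 4 0 (by norm_num)
  have f141 : M 1 4 1 = 0 := hM.out 1 4 1 (by norm_num)
  have f200 : M 2 0 0 = (l : ℂ) + (l : ℂ) ^ 10 := mat_00 h hl hl2 hM 2
  have f201 : M 2 0 1 = 0 := mat_low h hl hl2 hM 2 1 (by norm_num) (by norm_num)
  have f202 : M 2 0 2 = 0 := mat_low h hl hl2 hM 2 2 (by norm_num) (by norm_num)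
  have f220 : M 2 2 0 = 0 := mat_top h hl hl2 hM 2 0 (by norm_num)
  have f221 : M 2 2 1 = 0 := mat_top h hl hl2 hM 2 1 (by norm_num)
  have f222 : M 2 2 2 = (l : ℂ) + (l : ℂ) ^ 10 := mat_NN h hl hl2 hM 2
  have f230 : M 2 3 0 = 0 := hM.out 2 3 0 (by norm_num)
  have f231 : M 2 3 1 = 0 := hM.out 2 3 1 (by norm_num)
  have f232 : M 2 3 2 = 0 := hM.out 2 3 2 (by norm_num)
  have f240 : M 2 4 0 = 0 := hM.out 2 4 0 (by norm_num)
  have f241 : M 2 4 1 = 0 := hM.out 2 4 1 (by norm_num)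
  have f242 : M 2 4 2 = 0 := hM.out 2 4 2 (by norm_num)
  have f300 : M 3 0 0 = (l : ℂ) + (l : ℂ) ^ 14 := mat_00 h hl hl2 hM 3
  have f301 : M 3 0 1 = 0 := mat_low h hl hl2 hM 3 1 (by norm_num) (by norm_num)
  have f302 : M 3 0 2 = 0 := mat_low h hl hl2 hM 3 2 (by norm_num) (by norm_num)
  have f303 : M 3 0 3 = 0 := mat_low h hl hl2 hM 3 3 (by norm_num) (by norm_num)
  have f330 : M 3 3 0 = 0 := mat_top h hl hl2 hM 3 0 (by norm_num)
  have f331 : M 3 3 1 = 0 := mat_top h hl hl2 hM 3 1 (by norm_num)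
  have f332 : M 3 3 2 = 0 := mat_top h hl hl2 hM 3 2 (by norm_num)
  have f333 : M 3 3 3 = (l : ℂ) + (l : ℂ) ^ 14 := mat_NN h hl hl2 hM 3
  have f340 : M 3 4 0 = 0 := hM.out 3 4 0 (by norm_num)
  have f341 : M 3 4 1 = 0 := hM.out 3 4 1 (by norm_num)
  have f342 : M 3 4 2 = 0 := hM.out 3 4 2 (by norm_num)
  have f343 : M 3 4 3 = 0 := hM.out 3 4 3 (by norm_num)
  have f400 : M 4 0 0 = (l : ℂ) + (l : ℂ) ^ 18 := mat_00 h hl hl2 hM 4
  have f401 : M 4 0 1 = 0 := mat_low h hl hl2 hM 4 1 (by norm_num) (by norm_num)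
  have f402 : M 4 0 2 = 0 := mat_low h hl hl2 hM 4 2 (by norm_num) (by norm_num)
  have f403 : M 4 0 3 = 0 := mat_low h hl hl2 hM 4 3 (by norm_num) (by norm_num)
  have f404 : M 4 0 4 = 0 := mat_low h hl hl2 hM 4 4 (by norm_num) (by norm_num)
  have f440 : M 4 4 0 = 0 := mat_top h hl hl2 hM 4 0 (by norm_num)
  have f441 : M 4 4 1 = 0 := mat_top h hl hl2 hM 4 1 (by norm_num)
  have f442 : M 4 4 2 = 0 := mat_top h hl hl2 hM 4 2 (by norm_num)
  have f443 : M 4 4 3 = 0 := mat_top h hl hl2 hM 4 3 (by norm_num)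
  have f444 : M 4 4 4 = (l : ℂ) + (l : ℂ) ^ 18 := mat_NN h hl hl2 hM 4
  rcases lt_or_ge 4 r with hr4 | hr4
  · have hK : Ko 3 1 r = 0 := by
      obtain ⟨t, rfl⟩ : ∃ t, r = t + 5 := ⟨r - 5, by omega⟩
      rfl
    have hne : r ≠ 1 := by omega
    refine ⟨0, ?_⟩
    simp only [kp]
    rw [pc_deg hM 3 1 r hr4, hK, if_neg hne]
    push_cast
    ring
  interval_cases r
  · refine ⟨0, ?_⟩
    simp only [kp]
    rw [pc_mn0 h hl hl2 hM 3 1 (by norm_num)]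
    simp only [Ko]
    push_cast
    norm_num
    try ring
  · refine KuO_fin _ ((l : ℤ) * (-59520 * Lc l a k 3 2 - 2285568 * Lc l a k 5 0 + 4783872 * Lc l a k 3 4 + 3145531392 * Lc l a k 5 2 + 53952380928 * Lc l a k 7 0 - 129140352 * Lc l a k 3 6 - 742793682944 * Lc l a k 5 4 - 145100407046144 * Lc l a k 7 2 - 1390972772548608 * Lc l a k 9 0)) _ _ ?_ d4
    simp only [kp, pc, Finset.sum_range_succ, Finset.sum_range_zero, zero_add, Nat.choose]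
    norm_num [Nat.choose, a20, a21, b0, b1, b2, b3, c0, c1, c2, c3, c4, c5, c6, c7, s1, s2, s3, s4, s5, s6, s7, s8, s9, s10, s11, s12, f000, f010, f020, f030, f040, f100, f101, f110, f111, f120, f121, f130, f131, f140, f141, f200, f201, f202, f220, f221, f222, f230, f231, f232, f240, f241, f242, f300, f301, f302, f303, f330, f331, f332, f333, f340, f341, f342, f343, f400, f401, f402, f403, f404, f440, f441, f442, f443, f444]
    try ring
  · refine KuO_fin _ ((l : ℤ) * (7680 * Lc l a k 3 2 + 294912 * Lc l a k 5 0 - 602624 * Lc l a k 3 4 - 392626176 * Lc l a k 5 2 - 6763315200 * Lc l a k 7 0 + 17408 * Lc l a k 3 6 + 1114112 * Lc l a k 5 4 - 356515840 * Lc l a k 7 2 + 13690208256 * Lc l a k 9 0)) _ _ ?_ d5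
    simp only [kp, pc, Finset.sum_range_succ, Finset.sum_range_zero, zero_add, Nat.choose]
    norm_num [Nat.choose, a20, a21, b0, b1, b2, b3, c0, c1, c2, c3, c4, c5, c6, c7, s1, s2, s3, s4, s5, s6, s7, s8, s9, s10, s11, s12, f000, f010, f020, f030, f040, f100, f101, f110, f111, f120, f121, f130, f131, f140, f141, f200, f201, f202, f220, f221, f222, f230, f231, f232, f240, f241, f242, f300, f301, f302, f303, f330, f331, f332, f333, f340, f341, f342, f343, f400, f401, f402, f403, f404, f440, f441, f442, f443, f444]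
    try ring
  · refine KuO_fin _ ((l : ℤ) * (-4096 * Lc l a k 3 4 - 3145728 * Lc l a k 5 2 - 50331648 * Lc l a k 7 0 + 4096 * Lc l a k 3 6 + 262144 * Lc l a k 5 4 - 83886080 * Lc l a k 7 2 + 3221225472 * Lc l a k 9 0)) _ _ ?_ d6
    simp only [kp, pc, Finset.sum_range_succ, Finset.sum_range_zero, zero_add, Nat.choose]
    norm_num [Nat.choose, a20, a21, b0, b1, b2, b3, c0, c1, c2, c3, c4, c5, c6, c7, s1, s2, s3, s4, s5, s6, s7, s8, s9, s10, s11, s12, f000, f010, f020, f030, f040, f100, f101, f110, f111, f120, f121, f130, f131, f140, f141, f200, f201, f202, f220, f221, f222, f230, f231, f232, f240, f241, f242, f300, f301, f302, f303, f330, f331, f332, f333, f340, f341, f342, f343, f400, f401, f402, f403, f404, f440, f441, f442, f443, f444]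
    try ring
  · refine ⟨0, ?_⟩
    simp [kp, Ko, pc, Finset.sum_range_succ, Nat.choose, a20, a21, b0, b1, b2, b3, c0, c1, c2, c3, c4, c5, c6, c7, s1, s2, s3, s4, s5, s6, s7, s8, s9, s10, s11, s12, f000, f010, f020, f030, f040, f100, f101, f110, f111, f120, f121, f130, f131, f140, f141, f200, f201, f202, f220, f221, f222, f230, f231, f232, f240, f241, f242, f300, f301, f302, f303, f330, f331, f332, f333, f340, f341, f342, f343, f400, f401, f402, f403, f404, f440, f441, f442, f443, f444]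

theorem kuo22 (h : Core A Y) (q : Qd A Y a k) (hl : l.Prime) (hl2 : l ≠ 2) (hM : MatD l A Y 1 M) (r : ℕ) :
    ∃ z : ℤ, kp l 1 (pc M) 2 2 r = (((l : ℤ) * Lc l a k 3 1 * Ko 2 2 r + 2 ^ 12 * z : ℤ) : ℂ) := by
  obtain ⟨d1, d2, d3, d4, d5, d6, d7, d8, d9⟩ := KuO_lin4 (l := l) q
  obtain ⟨a20, a21⟩ := ent21 h q hl hl2 hM
  obtain ⟨b0, b1, b2, b3⟩ := ent31 h q hl hl2 hM
  obtain ⟨c0, c1, c2, c3, c4, c5, c6, c7⟩ := ent41 h q hl hl2 hM
  have s1 : M 2 1 2 = M 2 1 0 := hM.sym 2 1 0 (by norm_num) (by norm_num)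
  have s2 : M 3 2 0 = M 3 1 3 := hM.sym 3 1 3 (by norm_num) (by norm_num)
  have s3 : M 3 2 1 = M 3 1 2 := hM.sym 3 1 2 (by norm_num) (by norm_num)
  have s4 : M 3 2 2 = M 3 1 1 := hM.sym 3 1 1 (by norm_num) (by norm_num)
  have s5 : M 3 2 3 = M 3 1 0 := hM.sym 3 1 0 (by norm_num) (by norm_num)
  have s6 : M 4 3 0 = M 4 1 4 := hM.sym 4 1 4 (by norm_num) (by norm_num)
  have s7 : M 4 3 1 = M 4 1 3 := hM.sym 4 1 3 (by norm_num) (by norm_num)
  have s8 : M 4 3 2 = M 4 1 2 := hM.sym 4 1 2 (by norm_num) (by norm_num)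
  have s9 : M 4 3 3 = M 4 1 1 := hM.sym 4 1 1 (by norm_num) (by norm_num)
  have s10 : M 4 3 4 = M 4 1 0 := hM.sym 4 1 0 (by norm_num) (by norm_num)
  have s11 : M 4 2 3 = M 4 2 1 := hM.sym 4 2 1 (by norm_num) (by norm_num)
  have s12 : M 4 2 4 = M 4 2 0 := hM.sym 4 2 0 (by norm_num) (by norm_num)
  have f000 : M 0 0 0 = (l : ℂ) + (l : ℂ) ^ 2 := mat_00 h hl hl2 hM 0
  have f010 : M 0 1 0 = 0 := hM.out 0 1 0 (by norm_num)
  have f020 : M 0 2 0 = 0 := hM.out 0 2 0 (by norm_num)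
  have f030 : M 0 3 0 = 0 := hM.out 0 3 0 (by norm_num)
  have f040 : M 0 4 0 = 0 := hM.out 0 4 0 (by norm_num)
  have f100 : M 1 0 0 = (l : ℂ) + (l : ℂ) ^ 6 := mat_00 h hl hl2 hM 1
  have f101 : M 1 0 1 = 0 := mat_low h hl hl2 hM 1 1 (by norm_num) (by norm_num)
  have f110 : M 1 1 0 = 0 := mat_top h hl hl2 hM 1 0 (by norm_num)
  have f111 : M 1 1 1 = (l : ℂ) + (l : ℂ) ^ 6 := mat_NN h hl hl2 hM 1
  have f120 : M 1 2 0 = 0 := hM.out 1 2 0 (by norm_num)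
  have f121 : M 1 2 1 = 0 := hM.out 1 2 1 (by norm_num)
  have f130 : M 1 3 0 = 0 := hM.out 1 3 0 (by norm_num)
  have f131 : M 1 3 1 = 0 := hM.out 1 3 1 (by norm_num)
  have f140 : M 1 4 0 = 0 := hM.out 1 4 0 (by norm_num)
  have f141 : M 1 4 1 = 0 := hM.out 1 4 1 (by norm_num)
  have f200 : M 2 0 0 = (l : ℂ) + (l : ℂ) ^ 10 := mat_00 h hl hl2 hM 2
  have f201 : M 2 0 1 = 0 := mat_low h hl hl2 hM 2 1 (by norm_num) (by norm_num)
  have f202 : M 2 0 2 = 0 := mat_low h hl hl2 hM 2 2 (by norm_num) (by norm_num)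
  have f220 : M 2 2 0 = 0 := mat_top h hl hl2 hM 2 0 (by norm_num)
  have f221 : M 2 2 1 = 0 := mat_top h hl hl2 hM 2 1 (by norm_num)
  have f222 : M 2 2 2 = (l : ℂ) + (l : ℂ) ^ 10 := mat_NN h hl hl2 hM 2
  have f230 : M 2 3 0 = 0 := hM.out 2 3 0 (by norm_num)
  have f231 : M 2 3 1 = 0 := hM.out 2 3 1 (by norm_num)
  have f232 : M 2 3 2 = 0 := hM.out 2 3 2 (by norm_num)
  have f240 : M 2 4 0 = 0 := hM.out 2 4 0 (by norm_num)
  have f241 : M 2 4 1 = 0 := hM.out 2 4 1 (by norm_num)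
  have f242 : M 2 4 2 = 0 := hM.out 2 4 2 (by norm_num)
  have f300 : M 3 0 0 = (l : ℂ) + (l : ℂ) ^ 14 := mat_00 h hl hl2 hM 3
  have f301 : M 3 0 1 = 0 := mat_low h hl hl2 hM 3 1 (by norm_num) (by norm_num)
  have f302 : M 3 0 2 = 0 := mat_low h hl hl2 hM 3 2 (by norm_num) (by norm_num)
  have f303 : M 3 0 3 = 0 := mat_low h hl hl2 hM 3 3 (by norm_num) (by norm_num)
  have f330 : M 3 3 0 = 0 := mat_top h hl hl2 hM 3 0 (by norm_num)
  have f331 : M 3 3 1 = 0 := mat_top h hl hl2 hM 3 1 (by norm_num)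
  have f332 : M 3 3 2 = 0 := mat_top h hl hl2 hM 3 2 (by norm_num)
  have f333 : M 3 3 3 = (l : ℂ) + (l : ℂ) ^ 14 := mat_NN h hl hl2 hM 3
  have f340 : M 3 4 0 = 0 := hM.out 3 4 0 (by norm_num)
  have f341 : M 3 4 1 = 0 := hM.out 3 4 1 (by norm_num)
  have f342 : M 3 4 2 = 0 := hM.out 3 4 2 (by norm_num)
  have f343 : M 3 4 3 = 0 := hM.out 3 4 3 (by norm_num)
  have f400 : M 4 0 0 = (l : ℂ) + (l : ℂ) ^ 18 := mat_00 h hl hl2 hM 4
  have f401 : M 4 0 1 = 0 := mat_low h hl hl2 hM 4 1 (by norm_num) (by norm_num)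
  have f402 : M 4 0 2 = 0 := mat_low h hl hl2 hM 4 2 (by norm_num) (by norm_num)
  have f403 : M 4 0 3 = 0 := mat_low h hl hl2 hM 4 3 (by norm_num) (by norm_num)
  have f404 : M 4 0 4 = 0 := mat_low h hl hl2 hM 4 4 (by norm_num) (by norm_num)
  have f440 : M 4 4 0 = 0 := mat_top h hl hl2 hM 4 0 (by norm_num)
  have f441 : M 4 4 1 = 0 := mat_top h hl hl2 hM 4 1 (by norm_num)
  have f442 : M 4 4 2 = 0 := mat_top h hl hl2 hM 4 2 (by norm_num)
  have f443 : M 4 4 3 = 0 := mat_top h hl hl2 hM 4 3 (by norm_num)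
  have f444 : M 4 4 4 = (l : ℂ) + (l : ℂ) ^ 18 := mat_NN h hl hl2 hM 4
  rcases lt_or_ge 4 r with hr4 | hr4
  · have hK : Ko 2 2 r = 0 := by
      obtain ⟨t, rfl⟩ : ∃ t, r = t + 5 := ⟨r - 5, by omega⟩
      rfl
    have hne : r ≠ 2 := by omega
    refine ⟨0, ?_⟩
    simp only [kp]
    rw [pc_deg hM 2 2 r hr4, hK, if_neg hne]
    push_cast
    ring
  interval_cases r
  · refine ⟨0, ?_⟩
    simp only [kp]
    rw [pc_mn0 h hl hl2 hM 2 2 (by norm_num)]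
    simp only [Ko]
    push_cast
    norm_num
    try ring
  · refine KuO_fin _ ((l : ℤ) * (2560 * Lc l a k 3 2 + 98304 * Lc l a k 5 0 - 3072 * Lc l a k 3 4 + 393216 * Lc l a k 5 2 - 12582912 * Lc l a k 7 0 + 512 * Lc l a k 3 6 + 32768 * Lc l a k 5 4 - 10485760 * Lc l a k 7 2 + 402653184 * Lc l a k 9 0)) _ _ ?_ d7
    simp only [kp, pc, Finset.sum_range_succ, Finset.sum_range_zero, zero_add, Nat.choose]
    norm_num [Nat.choose, a20, a21, b0, b1, b2, b3, c0, c1, c2, c3, c4, c5, c6, c7, s1, s2, s3, s4, s5, s6, s7, s8, s9, s10, s11, s12, f000, f010, f020, f030, f040, f100, f101, f110, f111, f120, f121, f130, f131, f140, f141, f200, f201, f202, f220, f221, f222, f230, f231, f232, f240, f241, f242, f300, f301, f302, f303, f330, f331, f332, f333, f340, f341, f342, f343, f400, f401, f402, f403, f404, f440, f441, f442, f443, f444]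
    try ring
  · refine KuO_fin _ ((l : ℤ) * (-79360 * Lc l a k 3 2 - 3047424 * Lc l a k 5 0 + 6378496 * Lc l a k 3 4 + 4194041856 * Lc l a k 5 2 + 71936507904 * Lc l a k 7 0 - 129142272 * Lc l a k 3 6 - 742793805824 * Lc l a k 5 4 - 145100367724544 * Lc l a k 7 2 - 1390974282498048 * Lc l a k 9 0)) _ _ ?_ d8
    simp only [kp, pc, Finset.sum_range_succ, Finset.sum_range_zero, zero_add, Nat.choose]
    norm_num [Nat.choose, a20, a21, b0, b1, b2, b3, c0, c1, c2, c3, c4, c5, c6, c7, s1, s2, s3, s4, s5, s6, s7, s8, s9, s10, s11, s12, f000, f010, f020, f030, f040, f100, f101, f110, f111, f120, f121, f130, f131, f140, f141, f200, f201, f202, f220, f221, f222, f230, f231, f232, f240, f241, f242, f300, f301, f302, f303, f330, f331, f332, f333, f340, f341, f342, f343, f400, f401, f402, f403, f404, f440, f441, f442, f443, f444]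
    try ring
  · refine KuO_fin _ ((l : ℤ) * (2560 * Lc l a k 3 2 + 98304 * Lc l a k 5 0 - 3072 * Lc l a k 3 4 + 393216 * Lc l a k 5 2 - 12582912 * Lc l a k 7 0 + 512 * Lc l a k 3 6 + 32768 * Lc l a k 5 4 - 10485760 * Lc l a k 7 2 + 402653184 * Lc l a k 9 0)) _ _ ?_ d9
    simp only [kp, pc, Finset.sum_range_succ, Finset.sum_range_zero, zero_add, Nat.choose]
    norm_num [Nat.choose, a20, a21, b0, b1, b2, b3, c0, c1, c2, c3, c4, c5, c6, c7, s1, s2, s3, s4, s5, s6, s7, s8, s9, s10, s11, s12, f000, f010, f020, f030, f040, f100, f101, f110, f111, f120, f121, f130, f131, f140, f141, f200, f201, f202, f220, f221, f222, f230, f231, f232, f240, f241, f242, f300, f301, f302, f303, f330, f331, f332, f333, f340, f341, f342, f343, f400, f401, f402, f403, f404, f440, f441, f442, f443, f444]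
    try ring
  · refine ⟨0, ?_⟩
    simp [kp, Ko, pc, Finset.sum_range_succ, Nat.choose, a20, a21, b0, b1, b2, b3, c0, c1, c2, c3, c4, c5, c6, c7, s1, s2, s3, s4, s5, s6, s7, s8, s9, s10, s11, s12, f000, f010, f020, f030, f040, f100, f101, f110, f111, f120, f121, f130, f131, f140, f141, f200, f201, f202, f220, f221, f222, f230, f231, f232, f240, f241, f242, f300, f301, f302, f303, f330, f331, f332, f333, f340, f341, f342, f343, f400, f401, f402, f403, f404, f440, f441, f442, f443, f444]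

end Pool.Agent.Lib.MP_06b9d2_tln
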