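import Pool.Agent.Lib.MP_06b9d2_tln.KuZ
import Pool.Agent.Lib.MP_06b9d2_tln.KuO
import Pool.Agent.Lib.MP_06b9d2_tl2.PcI

/-!
Module TLN-KpU. The universal congruence for `kp l e (pc M)`, all primes `l ≠ 2`. (Model: `datQ` in `MP_06b9d2_tl2/Dat.lean`.)

`K = Kz` (`e = 0`) or `Ko` (`e = 1`). The bound is `v (2 ^ 10 m! n!)`. `m + n = 0, 1`: `kp = 0` (as in `KpB`: `mat_00`, `pc_m00`, `pc_101`, `pc_sym`, `pc_deg`), `K = 0`. `m + n = 2`: `(2,0,0)`, `(0,2,2)`, `(2,0,2)`, `(1,1,0)`, `(1,1,2)`, `(0,2,0)`: `0` (`pc_m00`, `pc_202`, `pc_110`, `pc_sym`). `(2,0,1)`, `(0,2,1)`: `pc_201`, `ent20`: difference `0`;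
`ent21`: `l (2560 Lc 3 2 + 98304 Lc 5 0) - 2560 l Lc 3 1 = l (20480 z + 98304 Lc 5 0)`, divisible by `2 ^ 11`. `(1,1,1)`: `pc 1 1 1 - l ^ (2 e) (l ^ 4 - 1) ^ 2 = -(M 2 0 0 - M 2 1 1)` (`pc_dif`, `pc_m00`), `mat_00`: `e = 0`: `-2176 l Lc 3 1`: difference `0`; `e = 1`: `-l (19840 Lc 3 2 + 761856 Lc 5 0) + 19840 l Lc 3 1 = -l (158720 z + 761856 Lc 5 0)`, divisible by `2 ^ 10`.
`m + n = 3, 4`: `kuz30`, .. and `pc_sym` (also for `kp`: `kp n m (m + n - r) = kp m n r` for `r ≤ m + n`; the tables are symmetric in this sense; `r > m + n`: everything is `0`), `v (m! n!)`: `3! = 2 * 3`, `4! = 8 * 3`, `2! 2! = 4`, `3! 1! = 2 * 3`. `m + n = 5`: `K = 0`, `pcP`: `v ≤ v 2 ^ 13`, `(l ^ 4 - 1) ^ 5` in `2 ^ 20`; `v (m! n!) ≥ v 2 ^ 3`.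
`m + n ≥ 6`: `K = 0`, `pcP`, `2 ^ (4 (m + n))`, `v (m! n!) ≥ v 2 ^ (m + n - 1)`, `10 + (m + n - 1) ≤ (5 (m + n) + 1) / 2`.
-/

namespace Pool.Agent.Lib.MP_06b9d2_tln

open PowerSeries Pool.Agent.L1
open Pool.Agent.Lib.MP_06b9d2_ssp (PO)
open Pool.Agent.Lib.MP_06b9d2_tls (Lv2 mo2 Two Tl U V)

open Pool.Agent.Lib.MP_06b9d2_tl2 (Core MatD pc Qd Lc)
open Pool.Agent.Lib.MP_06b9d2_tl2 (v_f v_fact v_dvd v_int lrel pc_m00 pc_101 pc_202 pc_110 pc_201 pc_dif
  mat_00 ent20 ent21 pc_sym pc_deg pcP)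

variable {A Y : ℂ⟦X⟧} {a k : ℤ⟦X⟧} {l e : ℕ} {M : ℕ → ℕ → ℕ → ℂ} {O : ValuationSubring ℂ}

private theorem u_v_ex {z : ℤ} {x : ℂ} {k : ℕ} (hx : x = ((2 ^ k * z : ℤ) : ℂ)) :
    O.valuation x ≤ O.valuation 2 ^ k := by
  rw [hx, ← map_pow]
  exact v_dvd O _ k (Dvd.intro _ rfl)

private theorem u_v_fac {h2 : O.valuation 2 < 1} (m n : ℕ) :
    O.valuation 2 ^ (m + n - 1) ≤ O.valuation (((m.factorial * n.factorial : ℕ)) : ℂ) := by
  refine (v_fact h2 (m + n)).trans ?_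
  obtain ⟨c, hc⟩ := Nat.factorial_mul_factorial_dvd_factorial_add m n
  rw [hc]
  push_cast
  rw [map_mul]
  have hc1 : O.valuation (c : ℂ) ≤ 1 := by
    have := v_int O (c : ℤ)
    rwa [Int.cast_natCast] at this
  exact mul_le_of_le_one_right' hc1

private theorem u_l_odd (hl : l.Prime) (hl2 : l ≠ 2) : ¬ (2 : ℤ) ∣ (l : ℤ) := by
  intro h
  have h1 : 2 ∣ l := by exact_mod_cast h
  exact hl2 ((Nat.prime_dvd_prime_iff_eq Nat.prime_two hl).1 h1).symm

private theorem u_l4 (hl : l.Prime) (hl2 : l ≠ 2) : (2 : ℤ) ^ 4 ∣ (l : ℤ) ^ 4 - 1 := by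
  have hlo := u_l_odd hl hl2
  obtain ⟨t, ht⟩ : ∃ t : ℤ, (l : ℤ) = 2 * t + 1 := ⟨(l : ℤ) / 2, by omega⟩
  rw [ht]
  obtain ⟨s, hs⟩ : ∃ s : ℤ, t * (t + 1) = 2 * s := by
    obtain ⟨s, hs⟩ := Int.even_mul_succ_self t
    exact ⟨s, by rw [hs]; ring⟩
  refine ⟨s * (2 * t ^ 2 + 2 * t + 1), ?_⟩
  have : (2 * t + 1) ^ 4 - 1 = 8 * (t * (t + 1)) * (2 * t ^ 2 + 2 * t + 1) := by ring
  rw [this, hs]
  ring

private theorem u_big (h2 : O.valuation 2 < 1) (f x : ℂ) (k j : ℕ)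
    (hx : O.valuation x ≤ O.valuation 2 ^ k) (hf : O.valuation 2 ^ j ≤ O.valuation f)
    (hk : 10 + j ≤ k) : O.valuation x ≤ O.valuation (2 ^ 10 * f) := by
  rw [map_mul, map_pow]
  calc O.valuation x ≤ O.valuation 2 ^ k := hx
    _ ≤ O.valuation 2 ^ (10 + j) := pow_le_pow_of_le_one zero_le h2.le hk
    _ = O.valuation 2 ^ 10 * O.valuation 2 ^ j := by rw [← pow_add]
    _ ≤ _ := mul_le_mul' le_rfl hf

/-- the coefficient of the universal operator -/
private def uK (e m n r : ℕ) : ℤ := if e = 0 then Kz m n r else Ko m n r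

private theorem uK_big (e m n r : ℕ) (h : 5 ≤ m + n) : uK e m n r = 0 := by
  unfold uK
  split_ifs
  · unfold Kz
    split <;> first | rfl | (exfalso; omega)
  · unfold Ko
    split <;> first | rfl | (exfalso; omega)

private theorem uK_deg (e m n r : ℕ) (h : m + n < r) : uK e m n r = 0 := by
  unfold uK
  split_ifs
  · unfold Kz
    split <;> first | rfl | (exfalso; omega)
  · unfold Ko
    split <;> first | rfl | (exfalso; omega)

private theorem uK_sym (e m n r : ℕ) (h : r ≤ m + n) : uK e n m (m + n - r) = uK e m n r := by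
  rcases Nat.lt_or_ge 4 (m + n) with h5 | h5
  · rw [uK_big e m n r (by omega), uK_big e n m _ (by omega)]
  · unfold uK
    have hm : m ≤ 4 := by omega
    have hn : n ≤ 4 := by omega
    have hr : r ≤ 4 := by omega
    split_ifs
    · interval_cases m <;> interval_cases n <;> first | omega | (interval_cases r <;> first | rfl | omega)
    · interval_cases m <;> interval_cases n <;> first | omega | (interval_cases r <;> first | rfl | omega)

/-- the difference -/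
private noncomputable def uD (l e : ℕ) (a k : ℤ⟦X⟧) (M : ℕ → ℕ → ℕ → ℂ) (m n r : ℕ) : ℂ :=
  kp l e (pc M) m n r - (((l : ℤ) * Lc l a k 3 1 * uK e m n r : ℤ) : ℂ)

private theorem kp_sym (hM : MatD l A Y e M) (m n r : ℕ) (h : r ≤ m + n) :
    kp l e (pc M) n m (m + n - r) = kp l e (pc M) m n r := by
  unfold kp
  rw [pc_sym hM m n r h, Nat.add_comm n m]
  congr 1
  by_cases hr : r = n
  · rw [if_pos hr, if_pos (by omega)]
  · rw [if_neg hr, if_neg (by omega)]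

private theorem uD_sym (hM : MatD l A Y e M) (m n r : ℕ) (h : r ≤ m + n) :
    uD l e a k M n m (m + n - r) = uD l e a k M m n r := by
  unfold uD
  rw [kp_sym hM m n r h, uK_sym e m n r h]

private theorem uD_deg (hM : MatD l A Y e M) (m n r : ℕ) (h : m + n < r) :
    uD l e a k M m n r = 0 := by
  unfold uD kp
  rw [uK_deg e m n r h, pc_deg hM m n r h, if_neg (by omega)]
  simp

private theorem kp_v (hl : l.Prime) (hl2 : l ≠ 2) (m n r : ℕ) (hmn : 0 < m + n) :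
    O.valuation (if r = n then (if m + n = 0 then (l : ℂ) else 0) +
      (l : ℂ) ^ (2 * e) * ((l : ℂ) ^ 4 - 1) ^ (m + n) else 0) ≤ O.valuation 2 ^ (4 * (m + n)) := by
  by_cases hr : r = n
  · rw [if_pos hr, if_neg (by omega), zero_add]
    obtain ⟨c, hc'⟩ := u_l4 hl hl2
    have e1 : (l : ℂ) ^ (2 * e) * ((l : ℂ) ^ 4 - 1) ^ (m + n) =
        ((2 ^ (4 * (m + n)) * ((l : ℤ) ^ (2 * e) * c ^ (m + n)) : ℤ) : ℂ) := by
      have e2 : (l : ℂ) ^ 4 - 1 = (2 : ℂ) ^ 4 * (c : ℂ) := by exact_mod_cast hc'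
      rw [e2, mul_pow, ← pow_mul]
      push_cast
      ring
    exact u_v_ex e1
  · rw [if_neg hr, map_zero]
    exact zero_le

private theorem uD_big (h : Core A Y) (h2 : O.valuation 2 < 1) (hl : l.Prime) (hl2 : l ≠ 2)
    (hM : MatD l A Y e M) (m n r : ℕ) (hmn : 5 ≤ m + n) :
    O.valuation (uD l e a k M m n r) ≤ O.valuation 2 ^ ((5 * (m + n) + 1) / 2) := by
  unfold uD kp
  rw [uK_big e m n r hmn, mul_zero, Int.cast_zero, sub_zero]
  refine (Valuation.map_sub _ _ _).trans (max_le (pcP h h2 hl hl2 hM m n r) ?_)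
  exact (kp_v hl hl2 m n r (by omega)).trans (pow_le_pow_of_le_one zero_le h2.le (by omega))

private theorem uD_ex {z : ℤ} {m n r j : ℕ}
    (hx : kp l e (pc M) m n r = (((l : ℤ) * Lc l a k 3 1 * uK e m n r + 2 ^ j * z : ℤ) : ℂ)) :
    O.valuation (uD l e a k M m n r) ≤ O.valuation 2 ^ j := by
  refine u_v_ex (z := z) ?_
  unfold uD
  rw [hx]
  push_cast
  ring

private theorem uD_30 (h : Core A Y) (q : Qd A Y a k) (hl : l.Prime) (hl2 : l ≠ 2) (he : e ≤ 1)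
    (hM : MatD l A Y e M) (r : ℕ) : O.valuation (uD l e a k M 3 0 r) ≤ O.valuation 2 ^ 11 := by
  interval_cases e
  · obtain ⟨z, hz⟩ := kuz30 h q hl hl2 hM r
    exact uD_ex hz
  · obtain ⟨z, hz⟩ := kuo30 h q hl hl2 hM r
    exact uD_ex hz

private theorem uD_21 (h : Core A Y) (q : Qd A Y a k) (hl : l.Prime) (hl2 : l ≠ 2) (he : e ≤ 1)
    (hM : MatD l A Y e M) (r : ℕ) : O.valuation (uD l e a k M 2 1 r) ≤ O.valuation 2 ^ 11 := by
  interval_cases e
  · obtain ⟨z, hz⟩ := kuz21 h q hl hl2 hM r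
    exact uD_ex hz
  · obtain ⟨z, hz⟩ := kuo21 h q hl hl2 hM r
    exact uD_ex hz

private theorem uD_40 (h : Core A Y) (q : Qd A Y a k) (hl : l.Prime) (hl2 : l ≠ 2) (he : e ≤ 1)
    (hM : MatD l A Y e M) (r : ℕ) : O.valuation (uD l e a k M 4 0 r) ≤ O.valuation 2 ^ 13 := by
  interval_cases e
  · obtain ⟨z, hz⟩ := kuz40 h q hl hl2 hM r
    exact uD_ex hz
  · obtain ⟨z, hz⟩ := kuo40 h q hl hl2 hM r
    exact uD_ex hz

private theorem uD_31 (h : Core A Y) (q : Qd A Y a k) (hl : l.Prime) (hl2 : l ≠ 2) (he : e ≤ 1)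
    (hM : MatD l A Y e M) (r : ℕ) : O.valuation (uD l e a k M 3 1 r) ≤ O.valuation 2 ^ 11 := by
  interval_cases e
  · obtain ⟨z, hz⟩ := kuz31 h q hl hl2 hM r
    exact uD_ex hz
  · obtain ⟨z, hz⟩ := kuo31 h q hl hl2 hM r
    exact uD_ex hz

private theorem uD_22 (h : Core A Y) (q : Qd A Y a k) (hl : l.Prime) (hl2 : l ≠ 2) (he : e ≤ 1)
    (hM : MatD l A Y e M) (r : ℕ) : O.valuation (uD l e a k M 2 2 r) ≤ O.valuation 2 ^ 12 := by
  interval_cases e
  · obtain ⟨z, hz⟩ := kuz22 h q hl hl2 hM r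
    exact uD_ex hz
  · obtain ⟨z, hz⟩ := kuo22 h q hl hl2 hM r
    exact uD_ex hz

private theorem uD_00 (h : Core A Y) (hl : l.Prime) (hl2 : l ≠ 2) (he : e ≤ 1)
    (hM : MatD l A Y e M) (r : ℕ) : uD l e a k M 0 0 r = 0 := by
  rcases Nat.eq_zero_or_pos r with h0 | h0
  · rw [h0]
    have h1 := mat_00 h hl hl2 hM 0
    have hK : uK e 0 0 0 = 0 := by
      unfold uK
      split_ifs <;> rfl
    have hp : pc M 0 0 0 = M 0 0 0 := by simp [pc, Finset.sum_range_succ]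
    unfold uD kp
    rw [hK, hp, h1]
    simp
  · exact uD_deg hM 0 0 r (by omega)

private theorem uD_10 (h : Core A Y) (hl : l.Prime) (hl2 : l ≠ 2) (he : e ≤ 1)
    (hM : MatD l A Y e M) (r : ℕ) : uD l e a k M 1 0 r = 0 := by
  rcases Nat.lt_or_ge 1 r with h0 | h0
  · exact uD_deg hM 1 0 r (by omega)
  have hK : uK e 1 0 r = 0 := by
    unfold uK
    interval_cases r <;> split_ifs <;> rfl
  unfold uD kp
  rw [hK]
  interval_cases r
  · rw [pc_m00 h hl hl2 hM 1 (by norm_num)]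
    simp
  · rw [(pc_101 h hl hl2 hM).1]
    simp

private theorem uD_20 (h : Core A Y) (q : Qd A Y a k) (hl : l.Prime) (hl2 : l ≠ 2) (he : e ≤ 1)
    (hM : MatD l A Y e M) (r : ℕ) : O.valuation (uD l e a k M 2 0 r) ≤ O.valuation 2 ^ 11 := by
  rcases Nat.lt_or_ge 2 r with h0 | h0
  · rw [uD_deg hM 2 0 r (by omega), map_zero]
    exact zero_le
  interval_cases r
  · have hK : uK e 2 0 0 = 0 := by
      unfold uK
      split_ifs <;> rfl
    have : uD l e a k M 2 0 0 = 0 := by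
      unfold uD kp
      rw [hK, pc_m00 h hl hl2 hM 2 (by norm_num)]
      simp
    rw [this, map_zero]
    exact zero_le
  · obtain ⟨z₁, z₂, z₃, z₄, z₅, -, -, h3, -, -⟩ := lrel q l
    interval_cases e
    · have : uD l 0 a k M 2 0 1 = 0 := by
        unfold uD kp
        have hK : uK 0 2 0 1 = 1024 := rfl
        rw [hK, pc_201 h hl hl2 hM, (ent20 h q hl hl2 hM).1]
        push_cast
        simp
        ring
      rw [this, map_zero]
      exact zero_le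
    · refine u_v_ex (z := (l : ℤ) * (10 * z₃ + 48 * Lc l a k 5 0)) ?_
      unfold uD kp
      have hK : uK 1 2 0 1 = 2560 := rfl
      rw [hK, pc_201 h hl hl2 hM, (ent21 h q hl hl2 hM).1, h3]
      push_cast
      simp
      ring
  · have hK : uK e 2 0 2 = 0 := by
      unfold uK
      split_ifs <;> rfl
    have : uD l e a k M 2 0 2 = 0 := by
      unfold uD kp
      rw [hK, (pc_202 h hl hl2 hM).1]
      simp
    rw [this, map_zero]
    exact zero_le

private theorem uD_11 (h : Core A Y) (q : Qd A Y a k) (hl : l.Prime) (hl2 : l ≠ 2) (he : e ≤ 1)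
    (hM : MatD l A Y e M) (r : ℕ) : O.valuation (uD l e a k M 1 1 r) ≤ O.valuation 2 ^ 10 := by
  rcases Nat.lt_or_ge 2 r with h0 | h0
  · rw [uD_deg hM 1 1 r (by omega), map_zero]
    exact zero_le
  interval_cases r
  · have hK : uK e 1 1 0 = 0 := by
      unfold uK
      split_ifs <;> rfl
    have : uD l e a k M 1 1 0 = 0 := by
      unfold uD kp
      rw [hK, (pc_110 h hl hl2 hM).1]
      simp
    rw [this, map_zero]
    exact zero_le
  · obtain ⟨z₁, z₂, z₃, z₄, z₅, -, -, h3, -, -⟩ := lrel q l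
    have hd := pc_dif h hl hl2 hM
    rw [pc_m00 h hl hl2 hM 2 (by norm_num), mat_00 h hl hl2 hM 2] at hd
    interval_cases e
    · have : uD l 0 a k M 1 1 1 = 0 := by
        unfold uD kp
        have hK : uK 0 1 1 1 = -2176 := rfl
        rw [(ent20 h q hl hl2 hM).2] at hd
        rw [hK]
        push_cast at hd ⊢
        simp
        linear_combination -hd
      rw [this, map_zero]
      exact zero_le
    · refine u_v_ex (z := -((l : ℤ) * (155 * z₃ + 744 * Lc l a k 5 0))) ?_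
      unfold uD kp
      have hK : uK 1 1 1 1 = -19840 := rfl
      rw [(ent21 h q hl hl2 hM).2, h3] at hd
      rw [hK]
      push_cast at hd ⊢
      simp
      linear_combination -hd
  · have hK : uK e 1 1 2 = 0 := by
      unfold uK
      split_ifs <;> rfl
    have : uD l e a k M 1 1 2 = 0 := by
      unfold uD kp
      rw [hK, (pc_110 h hl hl2 hM).2]
      simp
    rw [this, map_zero]
    exact zero_le

theorem kp_u (h : Core A Y) (h2 : O.valuation 2 < 1) (q : Qd A Y a k) (hl : l.Prime) (hl2 : l ≠ 2) (he : e ≤ 1)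
    (hM : MatD l A Y e M) (m n r : ℕ) :
    O.valuation (kp l e (pc M) m n r -
      (((l : ℤ) * Lc l a k 3 1 * (if e = 0 then Kz m n r else Ko m n r) : ℤ) : ℂ)) ≤
      O.valuation (2 ^ 10 * ((m.factorial * n.factorial : ℕ) : ℂ)) := by
  change O.valuation (uD l e a k M m n r) ≤ O.valuation (2 ^ 10 * ((m.factorial * n.factorial : ℕ) : ℂ))
  obtain ⟨v2, v3, v4, v5⟩ := v_f h2
  have v1 : O.valuation ((Nat.factorial 1 : ℕ) : ℂ) = 1 := by simp
  have v0 : O.valuation ((Nat.factorial 0 : ℕ) : ℂ) = 1 := by simp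
  rcases Nat.lt_or_ge (m + n) r with hrr | hrr
  · rw [uD_deg hM m n r hrr, map_zero]
    exact zero_le
  rcases Nat.lt_or_ge 5 (m + n) with h6 | h6
  · refine u_big h2 _ _ ((5 * (m + n) + 1) / 2) (m + n - 1) (uD_big h h2 hl hl2 hM m n r (by omega))
      (u_v_fac (h2 := h2) m n) ?_
    omega
  rcases Nat.eq_or_lt_of_le h6 with h5 | h5
  · refine u_big h2 _ _ ((5 * (m + n) + 1) / 2) 3 (uD_big h h2 hl hl2 hM m n r (by omega)) ?_ (by omega)
    have h7 : O.valuation 2 ^ 3 = O.valuation (((m + n).factorial : ℕ) : ℂ) := by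
      rw [h5]
      exact v5.symm
    rw [h7]
    obtain ⟨c, hc'⟩ := Nat.factorial_mul_factorial_dvd_factorial_add m n
    rw [hc']
    push_cast
    rw [map_mul]
    have hc1 : O.valuation (c : ℂ) ≤ 1 := by
      have := v_int O (c : ℤ)
      rwa [Int.cast_natCast] at this
    exact mul_le_of_le_one_right' hc1
  -- reduction to `n ≤ m`
  have main : ∀ m n r : ℕ, n ≤ m → m + n ≤ 4 → r ≤ m + n →
      O.valuation (uD l e a k M m n r) ≤ O.valuation (2 ^ 10 * ((m.factorial * n.factorial : ℕ) : ℂ)) := by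
    intro m n r hnm hmn hr
    have hz : ∀ x : ℂ, x = 0 → ∀ y : ℂ, O.valuation x ≤ O.valuation y := by
      intro x hx y
      rw [hx, map_zero]
      exact zero_le
    have hc : (m = 0 ∧ n = 0) ∨ (m = 1 ∧ n = 0) ∨ (m = 1 ∧ n = 1) ∨ (m = 2 ∧ n = 0) ∨ (m = 2 ∧ n = 1) ∨
        (m = 2 ∧ n = 2) ∨ (m = 3 ∧ n = 0) ∨ (m = 3 ∧ n = 1) ∨ (m = 4 ∧ n = 0) := by omega
    rcases hc with ⟨rfl, rfl⟩ | ⟨rfl, rfl⟩ | ⟨rfl, rfl⟩ | ⟨rfl, rfl⟩ | ⟨rfl, rfl⟩ | ⟨rfl, rfl⟩ | ⟨rfl, rfl⟩ |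
      ⟨rfl, rfl⟩ | ⟨rfl, rfl⟩
    · exact hz _ (uD_00 h hl hl2 he hM r) _
    · exact hz _ (uD_10 h hl hl2 he hM r) _
    · refine u_big h2 _ _ 10 0 (uD_11 h q hl hl2 he hM r) ?_ (by omega)
      rw [Nat.cast_mul, map_mul, v1, pow_zero, mul_one]
    · refine u_big h2 _ _ 11 1 (uD_20 h q hl hl2 he hM r) ?_ (by omega)
      rw [Nat.cast_mul, map_mul, v0, v2, pow_one, mul_one]
    · refine u_big h2 _ _ 11 1 (uD_21 h q hl hl2 he hM r) ?_ (by omega)
      rw [Nat.cast_mul, map_mul, v1, v2, pow_one, mul_one]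
    · refine u_big h2 _ _ 12 2 (uD_22 h q hl hl2 he hM r) ?_ (by omega)
      rw [Nat.cast_mul, map_mul, v2, pow_two]
    · refine u_big h2 _ _ 11 1 (uD_30 h q hl hl2 he hM r) ?_ (by omega)
      rw [Nat.cast_mul, map_mul, v0, v3, pow_one, mul_one]
    · refine u_big h2 _ _ 11 1 (uD_31 h q hl hl2 he hM r) ?_ (by omega)
      rw [Nat.cast_mul, map_mul, v1, v3, pow_one, mul_one]
    · refine u_big h2 _ _ 13 3 (uD_40 h q hl hl2 he hM r) ?_ (by omega)
      rw [Nat.cast_mul, map_mul, v0, v4, mul_one]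
  rcases Nat.le_total n m with hnm | hnm
  · exact main m n r hnm (by omega) hrr
  · have h1 := main n m (m + n - r) hnm (by omega) (by omega)
    rw [uD_sym hM m n r hrr, Nat.mul_comm] at h1
    exact h1

end Pool.Agent.Lib.MP_06b9d2_tln
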