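import Pool.Agent.Lib.MP_06b9d2_tln.PrM
import Pool.Agent.Lib.MP_06b9d2_tln.OpB
import Pool.Agent.Lib.MP_06b9d2_tln.KpU
import Pool.Agent.Lib.MP_06b9d2_tln.Ar1
import Pool.Agent.Lib.MP_06b9d2_tln.Ar2

/-!
Module TLN-PrU. The primes `l ≡ 3` modulo `8` and `l ≡ 7` modulo `16` and the universal operator.

`c = 1 + l ^ k / l`, `k = 4 N + 2 e`, `c' = Lc l a k 3 1`, `ρ = 3` (`e = 0`), `1` (`e = 1`), `K = Kz` or `Ko`. `act_l`: `act f = c f + (1 / l) op (kp ..) N f`; `kp = l c' K + κ''` with `κ''` bounded by `kp_u`: `op_lin`, `op_err` (`B = 2 ^ 10`): `act f = c f + c' op K N f + (2 ^ 10 / l) g`, and `op K N f = (128 / ρ) Ru e N f`. Put `r0 = 0` (`l ≡ 3` mod `8`), `1` (`l ≡ 7` mod `16`),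
`v c = v (2 ^ (2 + r0))` (`arC`). `c' 128 / ρ = c 2 ^ 5 y`, `y = 4 c' / (c ρ)`, `y - 1 = (4 l c' - ρ l c) / (l c ρ)`, `l c = l + l ^ k`: the numerator is divisible by `2 ^ (4 + r0)` (`ar_b3`, `ar_b7` with `cl3'`, `cl7'`), the denominator has the valuation of `2 ^ (2 + r0)`: `y = 1 + 4 y'`, `y'` in `O`. The error: `2 ^ 10 = c 2 ^ 7 (..)` as `10 ≥ 9 + r0`.
-/

namespace Pool.Agent.Lib.MP_06b9d2_tln

open PowerSeries Pool.Agent.L1
open Pool.Agent.Lib.MP_06b9d2_ssp (PO PO_const PO_add PO_mul)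
open Pool.Agent.Lib.MP_06b9d2_tls (Lv2 mo2 Two Tl U V)

open Pool.Agent.Lib.MP_06b9d2_tl2 (Core MatD pc Qd Lc)

variable {A Y : ℂ⟦X⟧} {a k : ℤ⟦X⟧} {l e : ℕ} {M : ℕ → ℕ → ℕ → ℂ} {O : ValuationSubring ℂ}

private theorem PrU_odd {O : ValuationSubring ℂ} (h2 : O.valuation 2 < 1) (u : ℤ) (hu : u % 2 = 1) :
    O.valuation (u : ℂ) = 1 := by
  obtain ⟨b, hb⟩ : ∃ b : ℤ, u = 2 * b + 1 := ⟨u / 2, by omega⟩
  have hb1 : O.valuation ((b : ℤ) : ℂ) ≤ 1 := (O.valuation_le_one_iff _).2 (intCast_mem O b)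
  have h : O.valuation (2 * (b : ℂ)) < 1 := by
    rw [map_mul]
    exact lt_of_le_of_lt (mul_le_of_le_one_right' hb1) h2
  have e : (u : ℂ) = 1 + 2 * (b : ℂ) := by
    rw [hb]; push_cast; ring
  rw [e]
  exact Valuation.map_one_add_of_lt _ h

private theorem PrU_dat (q : Qd A Y a k) (he : e ≤ 1) (hk : coeff l k = 1 + (l : ℤ))
    (h3 : l % 8 = 3 ∨ l % 16 = 7) (N : ℕ) : ∃ (j0 : ℕ) (w : ℤ), j0 ≤ 3 ∧ w % 2 = 1 ∧
      (l : ℤ) + 1 = 2 ^ j0 * w ∧ (2 : ℤ) ^ (j0 + 2) ∣ 4 * l * Lc l a k 3 1 -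
        (if e = 0 then 3 else 1) * ((l : ℤ) + (l : ℤ) ^ (4 * N + 2 * e)) := by
  rcases h3 with h3 | h3
  · refine ⟨2, ((l : ℤ) + 1) / 4, by norm_num, by omega, by omega, ?_⟩
    have := ar_b3 l N e he h3 _ (cl3' q l hk h3)
    norm_num at this ⊢
    exact this
  · refine ⟨3, ((l : ℤ) + 1) / 8, by norm_num, by omega, by omega, ?_⟩
    have := ar_b7 l N e he h3 _ (cl7' q l hk h3)
    norm_num at this ⊢
    exact this

theorem clsU (h : Core A Y) (h2 : O.valuation 2 < 1) (q : Qd A Y a k) (hl : l.Prime) (he : e ≤ 1)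
    (hM : MatD l A Y e M) (hk : coeff l k = 1 + (l : ℤ)) (h3 : l % 8 = 3 ∨ l % 16 = 7) (N : ℕ) :
    Cls O 5 2 (Ru e N) (mtx l M N) (1 + (l : ℂ) ^ (4 * N + 2 * e) / l) 1 := by
  have hl2 : l ≠ 2 := by omega
  have hlo : l % 2 = 1 := by omega
  obtain ⟨j0, w, hj0, hw, hlw, hdv⟩ := PrU_dat q he hk h3 N
  have hv := arC h2 l (4 * N + 2 * e) j0 w hlo (by omega) hw hlw
  set L : ℤ := Lc l a k 3 1 with hL
  set c : ℂ := 1 + (l : ℂ) ^ (4 * N + 2 * e) / l with hc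
  obtain ⟨ρ, hρ, hρ1, hρ0⟩ : ∃ ρ : ℤ, (if e = 0 then (3 : ℤ) else 1) = ρ ∧ ρ % 2 = 1 ∧
      (if e = 0 then (3 : ℂ) else 1) = (ρ : ℂ) := by
    by_cases h0 : e = 0
    · exact ⟨3, by rw [if_pos h0], by norm_num, by rw [if_pos h0]; norm_num⟩
    · exact ⟨1, by rw [if_neg h0], by norm_num, by rw [if_neg h0]; norm_num⟩
  have hl0 : (l : ℂ) ≠ 0 := by
    have : l ≠ 0 := by omega
    exact_mod_cast this
  have h20 : O.valuation (2 : ℂ) ≠ 0 := (Valuation.ne_zero_iff _).2 two_ne_zero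
  have hvl : O.valuation (l : ℂ) = 1 := by
    have := PrU_odd h2 (l : ℤ) (by omega)
    simpa using this
  have hvρ : O.valuation (ρ : ℂ) = 1 := PrU_odd h2 ρ hρ1
  have hρz : (ρ : ℂ) ≠ 0 := by
    intro h0
    rw [h0, map_zero] at hvρ
    exact zero_ne_one hvρ
  have hc0 : c ≠ 0 := by
    intro h0
    rw [h0, map_zero, map_pow] at hv
    exact pow_ne_zero j0 h20 hv.symm
  intro f hf
  obtain ⟨g0, hg0, hg1⟩ := op_err (O := O) (N := N) (2 ^ 10) (by norm_num)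
    (fun m n r => kp l e (pc M) m n r -
      (((l : ℤ) * L * (if e = 0 then Kz m n r else Ko m n r) : ℤ) : ℂ))
    (fun m n r => kp_u h h2 q hl hl2 he hM m n r) f hf
  -- the two coefficients
  obtain ⟨n0, hn0⟩ := hdv
  rw [hρ] at hn0
  have hnum : 4 * (l : ℂ) * (L : ℂ) - ρ * ((l : ℂ) * c) = 2 ^ (j0 + 2) * (n0 : ℂ) := by
    have e1 : (l : ℂ) * c = (l : ℂ) + (l : ℂ) ^ (4 * N + 2 * e) := by
      rw [hc]
      field_simp
    rw [e1]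
    exact_mod_cast hn0
  have hvn : O.valuation ((n0 : ℤ) : ℂ) ≤ 1 := (O.valuation_le_one_iff _).2 (intCast_mem O n0)
  have hα : O.valuation ((4 * (l : ℂ) * (L : ℂ) - ρ * ((l : ℂ) * c)) / (4 * (l * c * ρ))) ≤ 1 := by
    rw [hnum, map_div₀]
    refine div_le_one_of_le₀ ?_ zero_le
    rw [map_mul, map_mul, map_mul, map_mul, hvl, hvρ, hv, one_mul, mul_one, pow_add, map_mul]
    have e4 : (2 : ℂ) ^ 2 = 4 := by norm_num
    rw [e4, mul_comm (O.valuation (2 ^ j0))]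
    exact mul_le_of_le_one_right' hvn
  have hβ : O.valuation (2 ^ 3 / (l * c)) ≤ 1 := by
    rw [map_div₀]
    refine div_le_one_of_le₀ ?_ zero_le
    rw [map_mul, hvl, one_mul, hv, map_pow, map_pow]
    exact pow_le_pow_right_of_le_one' h2.le hj0
  have hR := (ro_u (O := O) h2 e N).po f hf
  refine ⟨fun s => (4 * (l : ℂ) * (L : ℂ) - ρ * ((l : ℂ) * c)) / (4 * (l * c * ρ)) * Ru e N f s +
      2 ^ 3 / (l * c) * g0 s, PO_add (PO_mul (PO_const _ hα) hR) (PO_mul (PO_const _ hβ) hg0), fun s => ?_⟩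
  have hop : op (kp l e (pc M)) N f ((s : ℕ) : ℤ) = 2 ^ 10 * g0 ((s : ℕ) : ℤ) +
      (l : ℂ) * L * op (fun m n r => (((if e = 0 then Kz m n r else Ko m n r) : ℤ) : ℂ)) N f ((s : ℕ) : ℤ) := by
    rw [← hg1, ← op_lin]
    congr 1
    funext m n r
    push_cast
    ring
  have hRu : op (fun m n r => (((if e = 0 then Kz m n r else Ko m n r) : ℤ) : ℂ)) N f ((s : ℕ) : ℤ) =
      128 / ρ * Ru e N f ((s : ℕ) : ℤ) := by
    unfold Ru
    rw [hρ0]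
    field_simp
  rw [act_l h hl hl2 hM N f s, hop, hRu, ← hc]
  field_simp
  ring

end Pool.Agent.Lib.MP_06b9d2_tln
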