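import Pool.Agent.Lib.MP_06b9d2_tln.ClA
import Pool.Agent.Lib.MP_06b9d2_tls.TwoQ

/-!
Module TLN-TwE. The eigenspaces have dimension at most two.

`two_er`: `twoKey` (`MP_06b9d2_tls/TwoM.lean`, `M = 1`) and `finQ` (`MP_06b9d2_tls/TwoQ.lean`) with `p = 2`, as in `twoQ`: for an eigenvector `x` of `ex M` (`EgG (ex M) N lam x`): multiply the equation for `j` by `f j` and sum: `lam * muM 1 N x 0 f = ∑_s x_s (act M f s)` (`muM 1 N x 0 f = ∑_{s ≤ N} x_s f s`, the filter is trivial, `Nat.mod_one`;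
`Fin.sum_univ_eq_sum_range`), which is `muM 1 N x 0 (fun s => (d + W (s ^ 2 - N s)) f s) + 2 W (muM 1 N x 0 g)`, and `muM 1 N x 0 g` is in `O` (`hn.mem`, `NmM`): this is `CgQ O N x lam d W 2`.
`two_odd`: `Cls O b 1 (Rq N) M c ε` with `ε = (n : ℂ)`, `n` odd: `act M f = c f + c 2 ^ b (ε q f + 2 g) = c f + W (q f + 2 (g / ε))`, `W = c 2 ^ b ε`, `1 / ε` in `O` (`v n = 1` for odd `n`).
`two_four`: `R f = u (s ^ 2 - N s) f + 2 g'` on `PO` (`hRu`), `ε = n`, `n % 4 = 2`: `n = 2 n'`: `act M f = c f + c 2 ^ b (n R f + 4 g) = c f + c 2 ^ (b + 1) n' (u q f + 2 (g' + g / n'))`, `W = c 2 ^ (b + 1) n' u`.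
-/

namespace Pool.Agent.Lib.MP_06b9d2_tln

open PowerSeries Pool.Agent.L1
open Pool.Agent.Lib.MP_06b9d2_ssp (PO PO_const PO_add PO_mul PO_id int_mem)
open Pool.Agent.Lib.MP_06b9d2_tls (Lv2 mo2 Two Tl U V PO_cg EgG NmM muM CgQ twoKey finQ)

variable {O : ValuationSubring ℂ} {N b : ℕ}

private theorem TwE_mu (x : ℕ → ℂ) (f : ℤ → ℂ) :
    muM 1 N x 0 f = ∑ s : Fin (N + 1), x (s : ℕ) * f ((s : ℕ) : ℤ) := by
  unfold muM
  rw [Finset.filter_true_of_mem (fun s _ => by rw [Nat.mod_one, Nat.mod_one])]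
  exact (Fin.sum_univ_eq_sum_range (fun s => x s * f (s : ℤ)) (N + 1)).symm

private theorem TwE_eg (M : Mt N) (lam : ℂ) (x : ℕ → ℂ) (hE : EgG (ex M) N lam x) (f : ℤ → ℂ) :
    lam * muM 1 N x 0 f = ∑ s : Fin (N + 1), x (s : ℕ) * act M f s := by
  rw [TwE_mu, Finset.mul_sum]
  have h1 : ∀ j : Fin (N + 1), lam * (x (j : ℕ) * f ((j : ℕ) : ℤ)) =
      ∑ s : Fin (N + 1), x (s : ℕ) * (M j s * f ((j : ℕ) : ℤ)) := by
    intro j
    have h2 := hE (j : ℕ) (Nat.lt_succ_iff.1 j.2)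
    rw [← Fin.sum_univ_eq_sum_range (fun s => ex M (j : ℕ) s * x s) (N + 1)] at h2
    rw [← mul_assoc, ← h2, Finset.sum_mul]
    refine Finset.sum_congr rfl fun s _ => ?_
    have h3 : ex M (j : ℕ) (s : ℕ) = M j s := by
      unfold ex
      rw [dif_pos ⟨j.2, s.2⟩]
    rw [h3]
    ring
  rw [Finset.sum_congr rfl fun j _ => h1 j, Finset.sum_comm]
  refine Finset.sum_congr rfl fun s _ => ?_
  unfold act
  rw [Finset.mul_sum]

private theorem TwE_odd (h2 : O.valuation 2 < 1) (n : ℤ) (hn : n % 2 = 1) :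
    O.valuation (n : ℂ) = 1 := by
  refine le_antisymm (int_mem O n) (not_lt.1 fun hlt => ?_)
  obtain ⟨k, hk⟩ : ∃ k : ℤ, n = 2 * k + 1 := ⟨n / 2, by omega⟩
  have h1 : (1 : ℂ) = (n : ℂ) - 2 * (k : ℂ) := by
    rw [hk]
    push_cast
    ring
  have h3 : O.valuation ((n : ℂ) - 2 * (k : ℂ)) < 1 := by
    refine Valuation.map_sub_lt _ hlt ?_
    rw [map_mul]
    exact mul_lt_one_of_lt_of_le h2 (int_mem O k)
  rw [← h1, map_one] at h3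
  exact lt_irrefl _ h3

private theorem TwE_inv (h2 : O.valuation 2 < 1) (n : ℤ) (hn : n % 2 = 1) {g : ℤ → ℂ}
    (hg : PO O g) : PO O (fun s => (n : ℂ)⁻¹ * g s) := by
  refine PO_mul (PO_const _ ?_) hg
  rw [map_inv₀, TwE_odd h2 n hn, inv_one]

theorem two_er (h2 : O.valuation 2 < 1) (M : Mt N) (d W : ℂ) (hW : W ≠ 0)
    (h : ∀ f : ℤ → ℂ, PO O f → ∃ g : ℤ → ℂ, PO O g ∧ ∀ s : Fin (N + 1), act M f s =
      d * f ((s : ℕ) : ℤ) + W * (Rq N f ((s : ℕ) : ℤ) + 2 * g ((s : ℕ) : ℤ))) : Two (ex M) N := by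
  intro lam
  refine twoKey 1 (by norm_num) N lam 0 0 (fun _ => 1) (fun s => (s : ℂ)) fun y hy hE e1 e2 =>
    finQ N lam d W 2 h2 hW y hy ?_ e1 e2
  intro f hf
  obtain ⟨g, hg, hh⟩ := h f hf
  refine ⟨muM 1 N y 0 g, (O.valuation_le_one_iff _).1 (hy.mem _ _ hg), ?_⟩
  rw [TwE_eg M lam y hE f, TwE_mu, TwE_mu, Finset.mul_sum, ← Finset.sum_add_distrib]
  refine Finset.sum_congr rfl fun s _ => ?_
  rw [hh s]
  unfold Rq
  ring

theorem two_odd (h2 : O.valuation 2 < 1) (M : Mt N) (c : ℂ) (hc : c ≠ 0) (n : ℕ) (hn : n % 2 = 1)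
    (h : Cls O b 1 (Rq N) M c (n : ℂ)) : Two (ex M) N := by
  have hn0 : (n : ℂ) ≠ 0 := by
    have : n ≠ 0 := by omega
    exact_mod_cast this
  refine two_er h2 M c (c * 2 ^ b * n) (mul_ne_zero (mul_ne_zero hc (pow_ne_zero _ two_ne_zero)) hn0) ?_
  intro f hf
  obtain ⟨g, hg, hh⟩ := h f hf
  refine ⟨fun s => ((n : ℤ) : ℂ)⁻¹ * g s, TwE_inv h2 (n : ℤ) (by omega) hg, fun s => ?_⟩
  rw [hh s]
  push_cast
  field_simp

theorem two_four (h2 : O.valuation 2 < 1) (M : Mt N) (c : ℂ) (hc : c ≠ 0) (n : ℕ) (hn : n % 4 = 2)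
    (R : (ℤ → ℂ) → ℤ → ℂ) (u : ℤ) (hu : u % 2 = 1)
    (hRu : ∀ f, PO O f → ∃ g : ℤ → ℂ, PO O g ∧ ∀ s : Fin (N + 1),
      R f ((s : ℕ) : ℤ) = u * Rq N f ((s : ℕ) : ℤ) + 2 * g ((s : ℕ) : ℤ))
    (h : Cls O b 2 R M c (n : ℂ)) : Two (ex M) N := by
  obtain ⟨m, hm⟩ : ∃ m : ℕ, n = 2 * m := ⟨n / 2, by omega⟩
  have hm2 : m % 2 = 1 := by omega
  have hmc : (n : ℂ) = 2 * (m : ℂ) := by rw [hm]; push_cast; ring
  have hm0 : (m : ℂ) ≠ 0 := by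
    have : m ≠ 0 := by omega
    exact_mod_cast this
  have hu0 : (u : ℂ) ≠ 0 := by
    have : u ≠ 0 := by omega
    exact_mod_cast this
  have hmu : ((m : ℤ) * u) % 2 = 1 := by
    rw [Int.mul_emod, hu]
    omega
  refine two_er h2 M c (c * 2 ^ (b + 1) * (m * u))
    (mul_ne_zero (mul_ne_zero hc (pow_ne_zero _ two_ne_zero)) (mul_ne_zero hm0 hu0)) ?_
  intro f hf
  obtain ⟨g, hg, hh⟩ := h f hf
  obtain ⟨g₁, hg₁, hh₁⟩ := hRu f hf
  have hg2 : PO O (fun s => (m : ℂ) * g₁ s + g s) := by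
    refine PO_add (PO_mul (PO_const _ ?_) hg₁) hg
    have := int_mem O (m : ℤ)
    push_cast at this
    exact this
  refine ⟨fun s => (((m : ℤ) * u : ℤ) : ℂ)⁻¹ * ((m : ℂ) * g₁ s + g s),
    TwE_inv h2 ((m : ℤ) * u) hmu hg2, fun s => ?_⟩
  rw [hh s, hh₁ s, hmc]
  push_cast
  rw [pow_succ]
  field_simp
  ring

end Pool.Agent.Lib.MP_06b9d2_tln
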