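import Pool.Agent.Lib.MP_06b9d2_tln.PP
import Pool.Agent.Lib.MP_06b9d2_tln.Asm
import Pool.Agent.Lib.MP_06b9d2_tln.TwE
import Pool.Agent.Lib.MP_06b9d2_tln.KerN
import Pool.Agent.Lib.MP_06b9d2_tln.PrA
import Pool.Agent.Lib.MP_06b9d2_tln.PrU
import Pool.Agent.Lib.MP_06b9d2_tln.Ar3
import Pool.Agent.Lib.MP_06b9d2_tl2.CoreS
import Pool.Agent.Lib.MP_06b9d2_tl2.Mat2
import Pool.Agent.Lib.MP_06b9d2_tl2.TwoL

/-!
Module TLN-Fin. The theorem for odd `n`.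

`core_ex`, `qd_ex`, `exists_O2` (`MP_06b9d2_tl2/TwoL.lean`), `matD_ex`, `kap_l` (`MP_06b9d2_tl2/Row.lean`): for every prime `l ≠ 2`: `κ_l = 1 + l`. `k = 4 N + 2 e` is even, `mo = mo2 (A + 3 Y) (8 (Y (A + Y))) e N`, `lv2'`; `rp_l`, `sy_l`.
`pgA` (`b = 5`, `m = 1`, `R = Rq N`): `p ^ v`: `p % 4 = 1`: `er7` and `er_cls` (`v c = v 2`, `arC`), `pp_odd` with `ε = 0`; `p % 4 = 3`, `v` even: `er7`, `pp_even` (`δ = 2 ^ 7`, `b + m = 6`); `p % 4 = 3`, `v` odd: `p % 32 ≠ 31`: `cls3`, `pp_odd` with `ε = 1`. Then `pg_n` with `P p := p % 4 = 3 ∧ n.factorization p % 2 = 1`, `nu3_odd`, `two_odd`.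
`pgB` (`b = 5`, `m = 2`, `R = Ru e N`, `ro_u`): the same with `er9` for `p % 4 = 1` (`2 ^ 9`, needed `c 2 ^ 7`), `clsU` for `p % 4 = 3`, `v` odd (`p % 16 ≠ 15`), `pp_even` (`δ = 2 ^ 7`, `b + m = 7`); `two_four` with `ru_q`.
`pgC` (`b = 8`, `m = 1`, `R = Rq N`): `p % 8 = 1`: `er10`, `er_cls` (`c 2 ^ 9`); `p % 8 = 5`: `cls5`, `ε = 1`; `p % 4 = 3`: `v` even (`nu3 n = 0`): `er7` and `pp_even`: `2 c 2 ^ 7` with `v c ≤ v 4` (`arC`; `4 ∣ p + 1`), `b + m = 9`. `pg_n` with `P p := p % 8 = 5 ∧ n.factorization p % 2 = 1`, `nu5_odd`, `two_odd`.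
Every prime factor of an odd `n` is odd. `HypN n`: `two_odd` / `two_four` give `Two (ex M) N`. `kerOne_of_hypN`.
-/

namespace Pool.Agent.Lib.MP_06b9d2_tln

open PowerSeries Pool.Agent.L1
open Pool.Agent.Lib.MP_06b9d2_ssp (PO)
open Pool.Agent.Lib.MP_06b9d2_tls (Lv2 mo2 Two Tl U V)

open Pool.Agent.Lib.MP_06b9d2_tls (KerOne)

open Pool.Agent.Lib.MP_06b9d2_tl2 (Core MatD pc Qd Lc core_ex qd_ex exists_O2 matD_ex kap_l)

private theorem Fin_vpow {O : ValuationSubring ℂ} (h2 : O.valuation 2 < 1) {i j : ℕ} (hij : i ≤ j) :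
    O.valuation ((2 : ℂ) ^ j) ≤ O.valuation ((2 : ℂ) ^ i) := by
  rw [map_pow, map_pow]
  exact pow_le_pow_right_of_le_one' h2.le hij

private theorem Fin_val {O : ValuationSubring ℂ} (h2 : O.valuation 2 < 1) (p k : ℕ) (hp : p % 2 = 1)
    (hk : k % 2 = 0) : 1 + (p : ℂ) ^ k / p ≠ 0 ∧ O.valuation (1 + (p : ℂ) ^ k / p) ≤ O.valuation 2 := by
  obtain ⟨j, w, hw, hpw⟩ := Nat.exists_eq_two_pow_mul_odd (n := p + 1) (by omega)
  have hj : 1 ≤ j := by
    rcases Nat.eq_zero_or_pos j with h0 | h0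
    · subst h0
      rw [pow_zero, one_mul] at hpw
      rcases hw with ⟨t, ht⟩
      omega
    · exact h0
  have hv := arC h2 p k j (w : ℤ) hp hk (by rcases hw with ⟨t, ht⟩; omega) (by exact_mod_cast hpw)
  constructor
  · intro h0
    rw [h0, map_zero] at hv
    exact pow_ne_zero j two_ne_zero ((O.valuation.zero_iff).1 hv.symm)
  · rw [hv]
    have := Fin_vpow h2 hj
    rwa [pow_one] at this

private theorem Fin_val1 {O : ValuationSubring ℂ} (h2 : O.valuation 2 < 1) (p k : ℕ) (hp : p % 4 = 1)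
    (hk : k % 2 = 0) : O.valuation (1 + (p : ℂ) ^ k / p) = O.valuation 2 := by
  have hv := arC h2 p k 1 (((p + 1) / 2 : ℕ) : ℤ) (by omega) hk (by omega) (by push_cast; omega)
  rwa [pow_one] at hv

/-- the bound of `er_cls` if `v c = v 2` -/
private theorem Fin_vc {O : ValuationSubring ℂ} {c : ℂ} (hc : O.valuation c = O.valuation 2) (n : ℕ) :
    O.valuation ((2 : ℂ) ^ (n + 1)) ≤ O.valuation (c * 2 ^ n) := by
  rw [map_mul, hc, ← map_mul]
  refine le_of_eq ?_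
  rw [pow_succ, mul_comm]

/-- the bounds of `pp_even` if `v c ≤ v 2` -/
private theorem Fin_ve {O : ValuationSubring ℂ} (h2 : O.valuation 2 < 1) {c : ℂ}
    (hc : O.valuation c ≤ O.valuation 2) {n : ℕ} (hn : n ≤ 9) :
    O.valuation (2 * c * 2 ^ 7) ≤ O.valuation ((2 : ℂ) ^ n) ∧
      O.valuation (((2 : ℂ) ^ 7) ^ 2) ≤ O.valuation ((2 : ℂ) ^ n) := by
  constructor
  · have h1 : O.valuation (2 * c * 2 ^ 7) ≤ O.valuation ((2 : ℂ) ^ 9) := by
      rw [map_mul, map_mul]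
      calc O.valuation 2 * O.valuation c * O.valuation ((2 : ℂ) ^ 7)
          ≤ O.valuation 2 * O.valuation 2 * O.valuation ((2 : ℂ) ^ 7) := by gcongr
        _ = O.valuation ((2 : ℂ) ^ 9) := by
          rw [← map_mul, ← map_mul]
          norm_num
    exact h1.trans (Fin_vpow h2 hn)
  · rw [← pow_mul]
    exact Fin_vpow h2 (by omega)

section
variable {A Y : ℂ⟦X⟧} {a k : ℤ⟦X⟧} {e : ℕ} {O : ValuationSubring ℂ}

private theorem Fin_pgA (h : Core A Y) (h2 : O.valuation 2 < 1) (q : Qd A Y a k) (he : e ≤ 1) (N p v : ℕ)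
    (hp : p.Prime) (hp2 : p % 2 = 1) (h31 : p % 32 = 31 → v % 2 = 0) :
    PG O N 5 1 (Rq N) (4 * N + 2 * e) (mo2 (A + 3 * Y) (8 * (Y * (A + Y))) e N) (p ^ v)
      (if p % 4 = 3 ∧ v % 2 = 1 then 1 else 0) := by
  have hne : p ≠ 2 := by
    rintro rfl
    omega
  have hk : (4 * N + 2 * e) % 2 = 0 := by omega
  obtain ⟨M, hM⟩ := matD_ex h hp hne e he
  obtain ⟨M1, hM1⟩ := matD_ex h hp hne 1 le_rfl
  have hkap := kap_l h q hp hne hM1
  have hv := Fin_val h2 p (4 * N + 2 * e) hp2 hk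
  rcases (by omega : p % 4 = 1 ∨ p % 4 = 3) with h4 | h4
  · have hE := er7 h h2 q hp hne he hM N
    have hC := er_cls (b := 5) (m := 1) (R := Rq N) hE (Fin_vc (Fin_val1 h2 p _ h4 hk) 6) hv.1
    have hP := pp_odd (b := 5) (m := 1) (ro_q N) h2 (by norm_num) (by norm_num) (by norm_num) p (4 * N + 2 * e) hp
      hne hk (ε := 0) (by simp) ⟨mtx p M N, rp_l h hp hne hM N, sy_l hM N, hC⟩ v
    rw [ite_self] at hP
    rwa [if_neg (by omega)]
  · rcases Nat.mod_two_eq_zero_or_one v with hv2 | hv2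
    · obtain ⟨t, rfl⟩ : ∃ t, v = 2 * t := ⟨v / 2, by omega⟩
      have hE := er7 h h2 q hp hne he hM N
      have hb := Fin_ve h2 hv.2 (n := 5 + 1) (by norm_num)
      rw [if_neg (by omega)]
      exact pp_even h2 p (4 * N + 2 * e) hp hne hk (2 ^ 7)
        ⟨mtx p M N, rp_l h hp hne hM N, sy_l hM N, hE⟩ hb.1 hb.2 t
    · have hC := cls3 h h2 q hp he hM hkap (by omega) N
      have hP := pp_odd (b := 5) (m := 1) (ro_q N) h2 (by norm_num) (by norm_num) (by norm_num) p (4 * N + 2 * e)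
        hp hne hk (ε := 1) (by simp) ⟨mtx p M N, rp_l h hp hne hM N, sy_l hM N, hC⟩ v
      rw [if_pos hv2] at hP
      rwa [if_pos ⟨h4, hv2⟩]

private theorem Fin_pgB (h : Core A Y) (h2 : O.valuation 2 < 1) (q : Qd A Y a k) (he : e ≤ 1) (N p v : ℕ)
    (hp : p.Prime) (hp2 : p % 2 = 1) (h15 : p % 16 = 15 → v % 2 = 0) :
    PG O N 5 2 (Ru e N) (4 * N + 2 * e) (mo2 (A + 3 * Y) (8 * (Y * (A + Y))) e N) (p ^ v)
      (if p % 4 = 3 ∧ v % 2 = 1 then 1 else 0) := by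
  have hne : p ≠ 2 := by
    rintro rfl
    omega
  have hk : (4 * N + 2 * e) % 2 = 0 := by omega
  obtain ⟨M, hM⟩ := matD_ex h hp hne e he
  obtain ⟨M1, hM1⟩ := matD_ex h hp hne 1 le_rfl
  have hkap := kap_l h q hp hne hM1
  have hv := Fin_val h2 p (4 * N + 2 * e) hp2 hk
  rcases (by omega : p % 4 = 1 ∨ p % 4 = 3) with h4 | h4
  · have hE := er9 h h2 q hp hne he hM hkap h4 N
    have hb := (Fin_vpow h2 (by norm_num : 8 ≤ 9)).trans (Fin_vc (Fin_val1 h2 p _ h4 hk) 7)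
    have hC := er_cls (b := 5) (m := 2) (R := Ru e N) hE hb hv.1
    have hP := pp_odd (b := 5) (m := 2) (ro_u h2 e N) h2 (by norm_num) (by norm_num) (by norm_num) p (4 * N + 2 * e)
      hp hne hk (ε := 0) (by simp) ⟨mtx p M N, rp_l h hp hne hM N, sy_l hM N, hC⟩ v
    rw [ite_self] at hP
    rwa [if_neg (by omega)]
  · rcases Nat.mod_two_eq_zero_or_one v with hv2 | hv2
    · obtain ⟨t, rfl⟩ : ∃ t, v = 2 * t := ⟨v / 2, by omega⟩
      have hE := er7 h h2 q hp hne he hM N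
      have hb := Fin_ve h2 hv.2 (n := 5 + 2) (by norm_num)
      rw [if_neg (by omega)]
      exact pp_even h2 p (4 * N + 2 * e) hp hne hk (2 ^ 7)
        ⟨mtx p M N, rp_l h hp hne hM N, sy_l hM N, hE⟩ hb.1 hb.2 t
    · have hC := clsU h h2 q hp he hM hkap (by omega) N
      have hP := pp_odd (b := 5) (m := 2) (ro_u h2 e N) h2 (by norm_num) (by norm_num) (by norm_num) p
        (4 * N + 2 * e) hp hne hk (ε := 1) (by simp) ⟨mtx p M N, rp_l h hp hne hM N, sy_l hM N, hC⟩ v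
      rw [if_pos hv2] at hP
      rwa [if_pos ⟨h4, hv2⟩]

private theorem Fin_pgC (h : Core A Y) (h2 : O.valuation 2 < 1) (q : Qd A Y a k) (he : e ≤ 1) (N p v : ℕ)
    (hp : p.Prime) (hp2 : p % 2 = 1) (h3 : p % 4 = 3 → v % 2 = 0) :
    PG O N 8 1 (Rq N) (4 * N + 2 * e) (mo2 (A + 3 * Y) (8 * (Y * (A + Y))) e N) (p ^ v)
      (if p % 8 = 5 ∧ v % 2 = 1 then 1 else 0) := by
  have hne : p ≠ 2 := by
    rintro rfl
    omega
  have hk : (4 * N + 2 * e) % 2 = 0 := by omega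
  obtain ⟨M, hM⟩ := matD_ex h hp hne e he
  obtain ⟨M1, hM1⟩ := matD_ex h hp hne 1 le_rfl
  have hkap := kap_l h q hp hne hM1
  have hv := Fin_val h2 p (4 * N + 2 * e) hp2 hk
  rcases (by omega : p % 8 = 1 ∨ p % 8 = 5 ∨ p % 4 = 3) with h8 | h8 | h4
  · have hE := er10 h h2 q hp hne he hM h8 N
    have hC := er_cls (b := 8) (m := 1) (R := Rq N) hE (Fin_vc (Fin_val1 h2 p _ (by omega) hk) 9) hv.1
    have hP := pp_odd (b := 8) (m := 1) (ro_q N) h2 (by norm_num) (by norm_num) (by norm_num) p (4 * N + 2 * e)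
      hp hne hk (ε := 0) (by simp) ⟨mtx p M N, rp_l h hp hne hM N, sy_l hM N, hC⟩ v
    rw [ite_self] at hP
    rwa [if_neg (by omega)]
  · have hC := cls5 h h2 q hp he hM hkap h8 N
    have hP := pp_odd (b := 8) (m := 1) (ro_q N) h2 (by norm_num) (by norm_num) (by norm_num) p (4 * N + 2 * e)
      hp hne hk (ε := 1) (by simp) ⟨mtx p M N, rp_l h hp hne hM N, sy_l hM N, hC⟩ v
    rcases Nat.mod_two_eq_zero_or_one v with hv2 | hv2
    · rw [if_neg (by omega)] at hP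
      rwa [if_neg (by omega)]
    · rw [if_pos hv2] at hP
      rwa [if_pos ⟨h8, hv2⟩]
  · obtain ⟨t, rfl⟩ : ∃ t, v = 2 * t := ⟨v / 2, by have := h3 h4; omega⟩
    have hE := er7 h h2 q hp hne he hM N
    have hb := Fin_ve h2 hv.2 (n := 8 + 1) (by norm_num)
    rw [if_neg (by omega)]
    exact pp_even h2 p (4 * N + 2 * e) hp hne hk (2 ^ 7)
      ⟨mtx p M N, rp_l h hp hne hM N, sy_l hM N, hE⟩ hb.1 hb.2 t

end

private theorem Fin_odd {n p : ℕ} (hn : n % 2 = 1) (hp : p ∈ n.primeFactors) : p % 2 = 1 := by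
  have h1 := Nat.dvd_of_mem_primeFactors hp
  rcases Nat.mod_two_eq_zero_or_one p with h0 | h0
  · have h3 : 2 ∣ n := (Nat.dvd_of_mod_eq_zero h0).trans h1
    omega
  · exact h0

/-- `n ≡ 3` modulo `4`, the primes `≡ 31` modulo `32` divide `n` to even powers -/
theorem hypA (n : ℕ) (h4 : n % 4 = 3) (h31 : ∀ p ∈ n.primeFactors, p % 32 = 31 → n.factorization p % 2 = 0) :
    HypN n := by
  obtain ⟨A, Y, h⟩ := core_ex
  obtain ⟨a, k, q⟩ := qd_ex h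
  obtain ⟨O, h2⟩ := exists_O2
  have hn2 : n % 2 = 1 := by omega
  refine ⟨A + 3 * Y, 8 * (Y * (A + Y)), lv2' h, fun e N he => ?_⟩
  have hG := pg_n (k := 4 * N + 2 * e) (mo := mo2 (A + 3 * Y) (8 * (Y * (A + Y))) e N) (O := O) (b := 5) (m := 1)
    (ro_q N) (by norm_num) (fun p => p % 4 = 3 ∧ n.factorization p % 2 = 1) n (by omega)
    (fun p hp => Fin_pgA h h2 q he N p (n.factorization p) (Nat.prime_of_mem_primeFactors hp) (Fin_odd hn2 hp)
      (h31 p hp))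
  obtain ⟨M, c, hRp, hSy, hc, hCls⟩ := hG
  exact ⟨M, hRp, hSy, two_odd h2 M c hc (nu3 n) ((nu3_odd n hn2).1 h4) hCls⟩

/-- `n` is odd, `nu3 n ≡ 2` modulo `4`, the primes `≡ 15` modulo `16` divide `n` to even powers -/
theorem hypB (n : ℕ) (h2 : n % 2 = 1) (hnu : nu3 n % 4 = 2)
    (h15 : ∀ p ∈ n.primeFactors, p % 16 = 15 → n.factorization p % 2 = 0) : HypN n := by
  obtain ⟨A, Y, h⟩ := core_ex
  obtain ⟨a, k, q⟩ := qd_ex h
  obtain ⟨O, hO⟩ := exists_O2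
  refine ⟨A + 3 * Y, 8 * (Y * (A + Y)), lv2' h, fun e N he => ?_⟩
  have hG := pg_n (k := 4 * N + 2 * e) (mo := mo2 (A + 3 * Y) (8 * (Y * (A + Y))) e N) (O := O) (b := 5) (m := 2)
    (ro_u hO e N) (by norm_num) (fun p => p % 4 = 3 ∧ n.factorization p % 2 = 1) n (by omega)
    (fun p hp => Fin_pgB h hO q he N p (n.factorization p) (Nat.prime_of_mem_primeFactors hp) (Fin_odd h2 hp)
      (h15 p hp))
  obtain ⟨M, c, hRp, hSy, hc, hCls⟩ := hG
  exact ⟨M, hRp, hSy, two_four hO M c hc (nu3 n) hnu (Ru e N) (if e = 0 then 51 else 155)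
    (by split_ifs <;> norm_num) (ru_q hO e N) hCls⟩

/-- `n ≡ 5` modulo `8`, the primes `≡ 3` modulo `4` divide `n` to even powers -/
theorem hypC (n : ℕ) (h8 : n % 8 = 5) (h3 : nu3 n = 0) : HypN n := by
  obtain ⟨A, Y, h⟩ := core_ex
  obtain ⟨a, k, q⟩ := qd_ex h
  obtain ⟨O, hO⟩ := exists_O2
  have hn2 : n % 2 = 1 := by omega
  have h3' : ∀ p ∈ n.primeFactors, p % 4 = 3 → n.factorization p % 2 = 0 := by
    intro p hp h4
    by_contra hcon
    have h5 := Finset.card_eq_zero.1 h3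
    have h6 : p ∈ n.primeFactors.filter fun p => p % 4 = 3 ∧ n.factorization p % 2 = 1 :=
      Finset.mem_filter.2 ⟨hp, h4, by omega⟩
    rw [h5] at h6
    exact absurd h6 (Finset.notMem_empty p)
  refine ⟨A + 3 * Y, 8 * (Y * (A + Y)), lv2' h, fun e N he => ?_⟩
  have hG := pg_n (k := 4 * N + 2 * e) (mo := mo2 (A + 3 * Y) (8 * (Y * (A + Y))) e N) (O := O) (b := 8) (m := 1)
    (ro_q N) (by norm_num) (fun p => p % 8 = 5 ∧ n.factorization p % 2 = 1) n (by omega)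
    (fun p hp => Fin_pgC h hO q he N p (n.factorization p) (Nat.prime_of_mem_primeFactors hp) (Fin_odd hn2 hp)
      (h3' p hp))
  obtain ⟨M, c, hRp, hSy, hc, hCls⟩ := hG
  exact ⟨M, hRp, hSy, two_odd hO M c hc (nu5 n) ((nu5_odd n hn2 h3).1 h8) hCls⟩

theorem kerOne_odd (n : ℕ) (h : (n % 4 = 3 ∧ ∀ p ∈ n.primeFactors, p % 32 = 31 → n.factorization p % 2 = 0) ∨
    (n % 2 = 1 ∧ nu3 n % 4 = 2 ∧ ∀ p ∈ n.primeFactors, p % 16 = 15 → n.factorization p % 2 = 0) ∨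
    (n % 8 = 5 ∧ nu3 n = 0)) : KerOne n := by
  have hn : n ≠ 0 := by
    rintro rfl
    simp [nu3] at h
  rcases h with ⟨h1, h3⟩ | ⟨h1, h3, h4⟩ | ⟨h1, h3⟩
  · exact kerOne_of_hypN hn (hypA n h1 h3)
  · exact kerOne_of_hypN hn (hypB n h1 h3 h4)
  · exact kerOne_of_hypN hn (hypC n h1 h3)

end Pool.Agent.Lib.MP_06b9d2_tln
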