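import Pool.Agent.Lib.MP_06b9d2_tln.ClA
import Pool.Agent.Lib.MP_06b9d2_tln.Luc

/-!
Module TLN-ClL. Prime powers: the classes of the Lucas polynomials.

Valuations: `hL : v (L - 1) ≤ v 2` (`L` is odd). Then `v L = 1` (`v 2 < 1`), `v (1 + L) ≤ v 2`, `1 + L ^ 2 = 2 (1 + 2 w)` with `w` in `O` (`L = 1 + 2 y`: `1 + L ^ 2 = 2 + 4 y + 4 y ^ 2`), so `v (1 + L ^ 2) = v 2`, and `v (L ^ 2 - 1) ≤ v 2`. `∑_{i ≤ 2 j} L ^ i = 1 + 2 (..)` is a unit (induction).
`cls_even`: `W = M ^ 2 - 2 L` (`aeval M (X ^ 2 - C (2 L))`), `Er W (1 + L ^ 2) δ`, `δ = 2 ^ (b + m)`. Claim `Er (aeval M (lu L (2 j))) (∑_{i ≤ 2 j} L ^ i) δ`: two step induction on `j` with `lu_zero`, `lu_two`, `lu_four`: `er_mul`, `er_add`, `er_smul` (all constants are in `O`), the constants: `(lu L e).eval (1 + L)` satisfies the same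
recursion (`lu_eval`, or evaluate `lu_four` at `1 + L`: `(1 + L) ^ 2 - 2 L = 1 + L ^ 2`). Then `er_cls` (`c` is a unit).
`cls_luc`: strong induction on `e` for all `M`, `L`, `ε`. First `cls_sq`: `M ^ 2 - 2 L`: `act M f = c (f + 2 ^ b h)`, `h = ε R f + 2 ^ m g` in `PO` (that is `cls_er`: `Er M c (c 2 ^ b)`), so `M ^ 2` (`er_mul`): error `δ` with `v δ = v (c ^ 2 2 ^ (b + 1))`: in detail the error terms are `2 c (c 2 ^ b) h + ..`: do it directly: `act (M * M) f = act M F`, `F = c f + c 2 ^ b h`,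
`act M F = c F + c 2 ^ b h'` where `h'` is the function for `F`: `h' = c h + c 2 ^ b h''` (linearity: the function of `f` is `h`, that of `h` is `h''`; `act M` is linear and `act M f = c f + c 2 ^ b h`, `act M h = c h + c 2 ^ b h''`), so `act (M * M) f = c ^ 2 f + 2 c ^ 2 2 ^ b h + c ^ 2 2 ^ (2 b) h''`; `1 ≤ b`: error `c ^ 2 2 ^ (b + 1)`,
and `v c ≤ v 2`: error `2 ^ (b + 3)`. Hence `Er (M ^ 2 - 2 L) (1 + L ^ 2) (2 ^ (b + 3))` for `c = 1 + L` and, as `v (1 + L ^ 2) = v 2`, `Cls (M ^ 2 - 2 L) (1 + L ^ 2) 0` for `m ≤ 2` (`er_cls`).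
`e = 2 j`: `cls_even`. `e = 2 j + 1`: `lu_odd`: `aeval M (lu L e) = M * aeval (M ^ 2 - 2 L) (lu (L ^ 2) j)` (`Polynomial.aeval_comp`), the induction hypothesis for `j`, `M ^ 2 - 2 L`, `L ^ 2`, `ε = 0`, `cls_mul`, `lu_eval_odd`.
-/

namespace Pool.Agent.Lib.MP_06b9d2_tln

open PowerSeries Pool.Agent.L1
open Pool.Agent.Lib.MP_06b9d2_ssp (PO)
open Pool.Agent.Lib.MP_06b9d2_tls (Lv2 mo2 Two Tl U V)

variable {O : ValuationSubring ℂ} {N b m : ℕ} {R : (ℤ → ℂ) → ℤ → ℂ}

private theorem ClL_div {x y : ℂ} (hy : y ≠ 0) (h : O.valuation x ≤ O.valuation y) :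
    ∃ z : ℂ, O.valuation z ≤ 1 ∧ x = y * z := by
  refine ⟨x / y, ?_, by field_simp⟩
  rw [map_div₀]
  exact div_le_one_of_le₀ h zero_le

private theorem ClL_lin (M : Mt N) (f g : ℤ → ℂ) (x y : ℂ) (s : Fin (N + 1)) :
    act M (fun s => x * f s + y * g s) s = x * act M f s + y * act M g s := by
  unfold act
  rw [Finset.mul_sum, Finset.mul_sum, ← Finset.sum_add_distrib]
  exact Finset.sum_congr rfl fun j _ => by ring

private theorem ClL_two (O : ValuationSubring ℂ) (k : ℕ) : O.valuation ((2 : ℂ) ^ k) ≤ 1 := by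
  have := Pool.Agent.Lib.MP_06b9d2_ssp.int_mem O ((2 : ℤ) ^ k)
  push_cast at this
  exact this

private theorem ClL_cmul {z : ℂ} {f : ℤ → ℂ} (hz : O.valuation z ≤ 1) (hf : PO O f) :
    PO O (fun s => z * f s) :=
  Pool.Agent.Lib.MP_06b9d2_ssp.PO_mul (Pool.Agent.Lib.MP_06b9d2_ssp.PO_const z hz) hf

private theorem ClL_aeval (M : Mt N) (L : ℂ) :
    Polynomial.aeval M (Polynomial.X ^ 2 - Polynomial.C (2 * L)) = M * M - (2 * L) • (1 : Mt N) := by
  rw [map_sub, map_pow, Polynomial.aeval_X, Polynomial.aeval_C, Algebra.algebraMap_eq_smul_one,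
    pow_two]

theorem odd_facts (h2 : O.valuation 2 < 1) {L : ℂ} (hL : O.valuation (L - 1) ≤ O.valuation 2) :
    O.valuation L = 1 ∧ O.valuation (1 + L) ≤ O.valuation 2 ∧ O.valuation (1 + L ^ 2) = O.valuation 2 ∧
      O.valuation (L ^ 2 - 1) ≤ O.valuation 2 ∧ ∀ j : ℕ, O.valuation (∑ i ∈ Finset.range (2 * j + 1), L ^ i) = 1 := by
  have h20 : O.valuation (2 : ℂ) ≠ 0 := (Valuation.ne_zero_iff _).2 (by norm_num)
  have hlt : O.valuation (L - 1) < 1 := hL.trans_lt h2
  have a1 : O.valuation L = 1 := by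
    have h := Valuation.map_one_add_of_lt O.valuation hlt
    rwa [add_sub_cancel] at h
  have a2 : O.valuation (1 + L) ≤ O.valuation 2 := by
    have e : 1 + L = 2 + (L - 1) := by ring
    rw [e]
    exact Valuation.map_add_le _ le_rfl hL
  obtain ⟨y, hy, hy'⟩ := ClL_div (O := O) (x := L - 1) (y := 2) (by norm_num) hL
  have hw : O.valuation (y + y ^ 2) ≤ 1 := by
    refine Valuation.map_add_le _ hy ?_
    rw [map_pow]
    exact pow_le_one₀ zero_le hy
  have a3 : O.valuation (1 + L ^ 2) = O.valuation 2 := by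
    have e : 1 + L ^ 2 = 2 * (1 + 2 * (y + y ^ 2)) := by
      have e1 : L = 1 + 2 * y := by
        rw [← hy']
        ring
      rw [e1]
      ring
    have h3 : O.valuation (2 * (y + y ^ 2)) < 1 := by
      rw [map_mul]
      exact lt_of_le_of_lt (mul_le_of_le_one_right' hw) h2
    rw [e, map_mul, Valuation.map_one_add_of_lt O.valuation h3, mul_one]
  have a4 : O.valuation (L ^ 2 - 1) ≤ O.valuation 2 := by
    have e : L ^ 2 - 1 = (L - 1) * (1 + L) := by ring
    rw [e, map_mul]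
    exact (mul_le_of_le_one_right' (a2.trans h2.le)).trans hL
  refine ⟨a1, a2, a3, a4, ?_⟩
  intro j
  induction j with
  | zero => simp
  | succ j ih =>
    have e : ∑ i ∈ Finset.range (2 * (j + 1) + 1), L ^ i =
        ∑ i ∈ Finset.range (2 * j + 1), L ^ i + L ^ (2 * j + 1) * (1 + L) := by
      have e1 : 2 * (j + 1) + 1 = 2 * j + 1 + 1 + 1 := by ring
      rw [e1, Finset.sum_range_succ, Finset.sum_range_succ]
      ring
    have h3 : O.valuation (L ^ (2 * j + 1) * (1 + L)) < 1 := by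
      rw [map_mul, map_pow, a1, one_pow, one_mul]
      exact a2.trans_lt h2
    rw [e, Valuation.map_add_eq_of_lt_left _ (by rw [ih]; exact h3)]
    exact ih

theorem cls_even (h2 : O.valuation 2 < 1) {L : ℂ} (hL : O.valuation (L - 1) ≤ O.valuation 2) (M : Mt N)
    (h : Er O (M * M - (2 * L) • (1 : Mt N)) (1 + L ^ 2) (2 ^ (b + m))) (j : ℕ) :
    Cls O b m R (Polynomial.aeval M (lu L (2 * j))) ((lu L (2 * j)).eval (1 + L)) 0 := by
  obtain ⟨a1, a2, a3, a4, a5⟩ := odd_facts h2 hL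
  have hv : ∀ j : ℕ, O.valuation ((lu L (2 * j)).eval (1 + L)) = 1 := by
    intro j
    rw [lu_eval]
    exact a5 j
  have hδ := ClL_two O (b + m)
  have key : ∀ j : ℕ,
      Er O (Polynomial.aeval M (lu L (2 * j))) ((lu L (2 * j)).eval (1 + L)) (2 ^ (b + m)) ∧
      Er O (Polynomial.aeval M (lu L (2 * j + 2))) ((lu L (2 * j + 2)).eval (1 + L))
        (2 ^ (b + m)) := by
    intro j
    induction j with
    | zero =>
      constructor
      · rw [mul_zero, lu_zero, map_one, Polynomial.eval_one]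
        exact er_one
      · rw [mul_zero, zero_add, lu_two, map_add, ClL_aeval, Polynomial.aeval_C,
          Algebra.algebraMap_eq_smul_one, Polynomial.eval_add, Polynomial.eval_C]
        have e1 : (Polynomial.X ^ 2 - Polynomial.C (2 * L)).eval (1 + L) = 1 + L ^ 2 := by
          rw [Polynomial.eval_sub, Polynomial.eval_pow, Polynomial.eval_X, Polynomial.eval_C]
          ring
        rw [e1]
        refine er_add h ?_
        have h3 := er_smul L (er_one (O := O) (N := N) (δ := 2 ^ (b + m)))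
        rw [mul_one] at h3
        refine er_mono h3 ?_
        rw [map_mul, a1, one_mul]
    | succ j ih =>
      obtain ⟨ih1, ih2⟩ := ih
      refine ⟨ih2, ?_⟩
      have e0 : 2 * (j + 1) + 2 = 2 * j + 4 := by ring
      rw [e0, lu_four, map_sub, map_mul (Polynomial.aeval M), map_mul (Polynomial.aeval M),
        ClL_aeval, Polynomial.aeval_C,
        Algebra.algebraMap_eq_smul_one, Polynomial.eval_sub, Polynomial.eval_mul,
        Polynomial.eval_mul, Polynomial.eval_C, smul_mul_assoc, one_mul]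
      have e1 : (Polynomial.X ^ 2 - Polynomial.C (2 * L)).eval (1 + L) = 1 + L ^ 2 := by
        rw [Polynomial.eval_sub, Polynomial.eval_pow, Polynomial.eval_X, Polynomial.eval_C]
        ring
      rw [e1]
      have hv1 : O.valuation ((lu L (2 * j + 2)).eval (1 + L)) = 1 := hv (j + 1)
      have h3 : Er O ((M * M - (2 * L) • (1 : Mt N)) * Polynomial.aeval M (lu L (2 * j + 2)))
          ((1 + L ^ 2) * (lu L (2 * j + 2)).eval (1 + L)) (2 ^ (b + m)) := by
        refine er_mul h ih2 ?_ ?_ ?_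
        · rw [map_mul, hv1, mul_one]
        · rw [map_mul, a3]
          exact mul_le_of_le_one_left' h2.le
        · rw [map_mul]
          exact mul_le_of_le_one_left' hδ
      have h4 : Er O ((-(L ^ 2)) • Polynomial.aeval M (lu L (2 * j)))
          (-(L ^ 2) * (lu L (2 * j)).eval (1 + L)) (2 ^ (b + m)) := by
        refine er_mono (er_smul (-(L ^ 2)) ih1) ?_
        rw [map_mul, Valuation.map_neg, map_pow, a1, one_pow, one_mul]
      have h5 := er_add h3 h4
      rw [neg_smul, ← sub_eq_add_neg, neg_mul, ← sub_eq_add_neg] at h5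
      exact h5
  refine er_cls (key j).1 ?_ ?_
  · rw [map_mul, hv j, one_mul]
  · intro h0
    have h3 := hv j
    rw [h0, map_zero] at h3
    exact zero_ne_one h3

theorem cls_sq (hR : RO O R) (h2 : O.valuation 2 < 1) {L : ℂ} (hL : O.valuation (L - 1) ≤ O.valuation 2)
    (hb : 1 ≤ b) {M : Mt N} {ε : ℂ} (hε : O.valuation ε ≤ 1) (h : Cls O b m R M (1 + L) ε) :
    Er O (M * M - (2 * L) • (1 : Mt N)) (1 + L ^ 2) (2 ^ (b + 3)) := by
  obtain ⟨a1, a2, a3, a4, a5⟩ := odd_facts h2 hL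
  obtain ⟨z, hz, hz'⟩ := ClL_div (O := O) (x := 1 + L) (y := 2) (by norm_num) a2
  obtain ⟨b', rfl⟩ : ∃ b', b = b' + 1 := ⟨b - 1, by omega⟩
  intro f hf
  obtain ⟨g, hg, e⟩ := h f hf
  have hh : PO O (fun s => ε * R f s + 2 ^ m * g s) :=
    Pool.Agent.Lib.MP_06b9d2_ssp.PO_add (ClL_cmul hε (hR.po f hf)) (ClL_cmul (ClL_two O m) hg)
  obtain ⟨g', hg', e'⟩ := h _ hh
  have hh' : PO O (fun s => ε * R (fun s => ε * R f s + 2 ^ m * g s) s + 2 ^ m * g' s) :=
    Pool.Agent.Lib.MP_06b9d2_ssp.PO_add (ClL_cmul hε (hR.po _ hh)) (ClL_cmul (ClL_two O m) hg')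
  have hz2 : O.valuation (z ^ 2) ≤ 1 := by
    rw [map_pow]
    exact pow_le_one₀ zero_le hz
  refine ⟨fun s => z ^ 2 * (ε * R f s + 2 ^ m * g s) + (z ^ 2 * 2 ^ b') *
    (ε * R (fun s => ε * R f s + 2 ^ m * g s) s + 2 ^ m * g' s),
    Pool.Agent.Lib.MP_06b9d2_ssp.PO_add (ClL_cmul hz2 hh) (ClL_cmul ?_ hh'), fun s => ?_⟩
  · rw [map_mul]
    exact mul_le_one' hz2 (ClL_two O b')
  · have e1 : M * M - (2 * L) • (1 : Mt N) = M * M + (-(2 * L)) • (1 : Mt N) := by
      rw [neg_smul, sub_eq_add_neg]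
    rw [e1, act_add, act_smul, act_one,
      act_mul M M f (fun s => (1 + L) * f s + ((1 + L) * 2 ^ (b' + 1)) * (ε * R f s + 2 ^ m * g s))
        (fun s => by rw [e s]; ring) s, ClL_lin, e s, e' s]
    have hL' : L = 2 * z - 1 := by
      rw [← hz']
      ring
    rw [hL']
    ring

theorem cls_luc (hR : RO O R) (h2 : O.valuation 2 < 1) (hb : 1 ≤ b) (hm : m ≤ 2) (hmb : m ≤ b) (e : ℕ) :
    ∀ {L : ℂ} (_ : O.valuation (L - 1) ≤ O.valuation 2) {M : Mt N} {ε : ℂ} (_ : O.valuation ε ≤ 1)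
      (_ : Cls O b m R M (1 + L) ε),
      Cls O b m R (Polynomial.aeval M (lu L e)) ((lu L e).eval (1 + L)) (if e % 2 = 1 then ε else 0) := by
  have h20 : O.valuation (2 : ℂ) ≠ 0 := (Valuation.ne_zero_iff _).2 (by norm_num)
  induction e using Nat.strong_induction_on with
  | _ e ih =>
    intro L hL M ε hε h
    obtain ⟨a1, a2, a3, a4, a5⟩ := odd_facts h2 hL
    have hsq := cls_sq hR h2 hL hb hε h
    rcases Nat.even_or_odd' e with ⟨j, rfl | rfl⟩
    · rw [if_neg (by omega)]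
      refine cls_even h2 hL M (er_mono hsq ?_) j
      rw [map_pow, map_pow]
      exact pow_le_pow_of_le_one zero_le h2.le (by omega)
    · rw [if_pos (by omega)]
      have hW : Cls O b m R (M * M - (2 * L) • (1 : Mt N)) (1 + L ^ 2) 0 := by
        refine er_cls hsq ?_ ?_
        · rw [map_mul, a3, map_pow, map_pow, ← pow_succ']
          exact pow_le_pow_of_le_one zero_le h2.le (by omega)
        · intro h0
          rw [h0, map_zero] at a3
          exact h20 a3.symm
      have h3 := ih j (by omega) a4 (by rw [map_zero]; exact zero_le_one) hW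
      have h4 := cls_mul hR hmb h h3 hε (by
        split_ifs
        · rw [map_zero]
          exact zero_le_one
        · rw [map_zero]
          exact zero_le_one)
      rw [lu_odd, map_mul, Polynomial.aeval_X, Polynomial.aeval_comp, ClL_aeval]
      have e1 := lu_eval_odd L j
      rw [lu_odd] at e1
      rw [e1]
      have e2 : ε + (if j % 2 = 1 then (0 : ℂ) else 0) = ε := by
        split_ifs <;> exact add_zero ε
      rw [e2] at h4
      exact h4

end Pool.Agent.Lib.MP_06b9d2_tln
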