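import Pool.Agent.Lib.MP_06b9d2_tls.MainL
import Pool.Agent.Lib.MP_06b9d2_tl2.Defs

/-!
MP_06b9d2_nt, board TLN: simple spectrum of `T_n` for composite `n` by the prime `2`. Definitions.

`O` is a valuation ring of `ℂ` with `O.valuation 2 < 1`, `PO O f` says that `f : ℤ → ℂ` is a polynomial
function over `O`. A matrix `M` with indices `0, …, N` acts on functions by `(act M f) s = ∑ j, M j s f j`.
-/

namespace Pool.Agent.Lib.MP_06b9d2_tln

open PowerSeries Pool.Agent.L1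
open Pool.Agent.Lib.MP_06b9d2_ssp (PO)
open Pool.Agent.Lib.MP_06b9d2_tls (Lv2 mo2 Two Tl)

/-- the Hecke operator `T_n` in weight `k` on power series -/
noncomputable def TN (n k : ℕ) : ℂ⟦X⟧ →ₗ[ℂ] ℂ⟦X⟧ where
  toFun f := PowerSeries.mk fun m =>
    ∑ d ∈ (Nat.gcd m n).divisors, ((d : ℂ) ^ k / d) * coeff (m * n / d ^ 2) f
  map_add' f g := by
    ext m
    simp only [coeff_mk, map_add, mul_add, Finset.sum_add_distrib]
  map_smul' r f := by
    ext m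
    simp only [coeff_mk, map_smul, smul_eq_mul, RingHom.id_apply, Finset.mul_sum]
    exact Finset.sum_congr rfl fun d _ => by ring

/-- matrices with the indices `0, …, N` -/
abbrev Mt (N : ℕ) : Type := Matrix (Fin (N + 1)) (Fin (N + 1)) ℂ

/-- a matrix as a function of two natural numbers -/
noncomputable def ex {N : ℕ} (M : Mt N) (j s : ℕ) : ℂ :=
  if h : j < N + 1 ∧ s < N + 1 then M ⟨j, h.1⟩ ⟨s, h.2⟩ else 0

/-- the linear map `T` acts on `mo 0, …, mo N` by the matrix `M` -/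
def Rp {N : ℕ} (mo : ℕ → ℂ⟦X⟧) (T : ℂ⟦X⟧ →ₗ[ℂ] ℂ⟦X⟧) (M : Mt N) : Prop :=
  ∀ s : Fin (N + 1), T (mo (s : ℕ)) = ∑ j : Fin (N + 1), M j s • mo (j : ℕ)

/-- `M` is symmetric under the reversal of the indices -/
def Sy {N : ℕ} (M : Mt N) : Prop := ∀ j s, M (Fin.rev j) (Fin.rev s) = M j s

/-- the action on functions -/
noncomputable def act {N : ℕ} (M : Mt N) (f : ℤ → ℂ) (s : Fin (N + 1)) : ℂ :=
  ∑ j : Fin (N + 1), M j s * f ((j : ℕ) : ℤ)

/-- `M` acts on the polynomial functions as `c + δ (..)` -/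
def Er (O : ValuationSubring ℂ) {N : ℕ} (M : Mt N) (c δ : ℂ) : Prop :=
  ∀ f : ℤ → ℂ, PO O f → ∃ g : ℤ → ℂ, PO O g ∧
    ∀ s : Fin (N + 1), act M f s = c * f ((s : ℕ) : ℤ) + δ * g ((s : ℕ) : ℤ)

/-- `R` is a linear operator on functions which preserves the polynomial functions over `O` -/
structure RO (O : ValuationSubring ℂ) (R : (ℤ → ℂ) → ℤ → ℂ) : Prop where
  po : ∀ f, PO O f → PO O (R f)
  add : ∀ f g, R (fun s => f s + g s) = fun s => R f s + R g s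
  smul : ∀ (z : ℂ) f, R (fun s => z * f s) = fun s => z * R f s

/-- `M` acts on the polynomial functions as `c (1 + 2 ^ b (ε R + 2 ^ m (..)))` -/
def Cls (O : ValuationSubring ℂ) {N : ℕ} (b m : ℕ) (R : (ℤ → ℂ) → ℤ → ℂ) (M : Mt N) (c ε : ℂ) : Prop :=
  ∀ f : ℤ → ℂ, PO O f → ∃ g : ℤ → ℂ, PO O g ∧ ∀ s : Fin (N + 1),
    act M f s = c * (f ((s : ℕ) : ℤ) + 2 ^ b * (ε * R f ((s : ℕ) : ℤ) + 2 ^ m * g ((s : ℕ) : ℤ)))

/-- multiplication by `s ^ 2 - N s` -/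
noncomputable def Rq (N : ℕ) (f : ℤ → ℂ) (s : ℤ) : ℂ := ((s : ℂ) ^ 2 - N * s) * f s

/-- the Lucas polynomials: `T_{l ^ e}` is `lu L e` at `T_l`, `L = l ^ (k - 1)` -/
noncomputable def lu (L : ℂ) : ℕ → Polynomial ℂ
  | 0 => 1
  | 1 => Polynomial.X
  | (e + 2) => Polynomial.X * lu L (e + 1) - Polynomial.C L * lu L e

/-- `T_n` (weight `k`) acts on `mo 0, …, mo N` by a symmetric matrix of the class `Cls O b m R` with
coefficient `ε` -/
def PG (O : ValuationSubring ℂ) (N b m : ℕ) (R : (ℤ → ℂ) → ℤ → ℂ) (k : ℕ) (mo : ℕ → ℂ⟦X⟧) (n : ℕ) (ε : ℂ) :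
    Prop :=
  ∃ (M : Mt N) (c : ℂ), Rp mo (TN n k) M ∧ Sy M ∧ c ≠ 0 ∧ Cls O b m R M c ε

/-- `pc - (the value for the branches with β_i = l ^ 4 β, γ_i = l ^ 4 γ)` -/
noncomputable def kp (l e : ℕ) (κ : ℕ → ℕ → ℕ → ℂ) (m n r : ℕ) : ℂ :=
  κ m n r - if r = n then (if m + n = 0 then (l : ℂ) else 0) + (l : ℂ) ^ (2 * e) * ((l : ℂ) ^ 4 - 1) ^ (m + n)
    else 0

/-- the function `C(N - s, m) C(s, n)` as a polynomial function -/
noncomputable def dm (N m n : ℕ) (s : ℤ) : ℂ :=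
  ((∏ i ∈ Finset.range m, ((N : ℂ) - (s : ℂ) - (i : ℂ))) * ∏ i ∈ Finset.range n, ((s : ℂ) - (i : ℂ))) /
    ((m.factorial * n.factorial : ℕ) : ℂ)

/-- the operator `∑ κ m n r C(N - s, m) C(s, n) f(s - n + r)` -/
noncomputable def op (κ : ℕ → ℕ → ℕ → ℂ) (N : ℕ) (f : ℤ → ℂ) (s : ℤ) : ℂ :=
  ∑ m ∈ Finset.range (N + 1), ∑ n ∈ Finset.range (N + 1), ∑ r ∈ Finset.range (m + n + 1),
    κ m n r * (dm N m n s * f (s - n + r))

/-- the coefficients of the universal operator (`e = 0`): those of the prime `3`, divided by `3` -/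
def Kz : ℕ → ℕ → ℕ → ℤ
  | 1, 1, 1 => -2176
  | 2, 0, 1 => 1024
  | 0, 2, 1 => 1024
  | 3, 0, 1 => 129536
  | 0, 3, 2 => 129536
  | 3, 0, 2 => 4096
  | 0, 3, 1 => 4096
  | 2, 1, 1 => -172544
  | 1, 2, 2 => -172544
  | 2, 1, 2 => -1024
  | 1, 2, 1 => -1024
  | 4, 0, 1 => 13824000
  | 0, 4, 3 => 13824000
  | 4, 0, 2 => 2015232
  | 0, 4, 2 => 2015232
  | 3, 1, 1 => -13824000
  | 1, 3, 3 => -13824000
  | 3, 1, 2 => -135168
  | 1, 3, 2 => -135168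
  | 2, 2, 2 => -13651968
  | _, _, _ => 0

/-- the coefficients of the universal operator (`e = 1`) -/
def Ko : ℕ → ℕ → ℕ → ℤ
  | 1, 1, 1 => -19840
  | 2, 0, 1 => 2560
  | 0, 2, 1 => 2560
  | 3, 0, 1 => 590336
  | 0, 3, 2 => 590336
  | 3, 0, 2 => 4096
  | 0, 3, 1 => 4096
  | 2, 1, 1 => -1554944
  | 1, 2, 2 => -1554944
  | 2, 1, 2 => -1024
  | 1, 2, 1 => -1024
  | 4, 0, 1 => 78336000
  | 0, 4, 3 => 78336000
  | 4, 0, 2 => 5259264
  | 0, 4, 2 => 5259264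
  | 3, 1, 1 => -124416000
  | 1, 3, 3 => -124416000
  | 3, 1, 2 => -577536
  | 1, 3, 2 => -577536
  | 2, 2, 2 => -122843136
  | _, _, _ => 0

/-- the universal operator: for the primes `l ≡ 3` modulo `8` or `7` modulo `16` the operator `T_l` is
`c_l (1 + 32 (Ru + 4 (..)))` -/
noncomputable def Ru (e N : ℕ) (f : ℤ → ℂ) (s : ℤ) : ℂ :=
  (if e = 0 then 3 else 1) / 128 * op (fun m n r => (((if e = 0 then Kz m n r else Ko m n r) : ℤ) : ℂ)) N f s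

/-- the matrix of `T_l` -/
noncomputable def mtx (l : ℕ) (M : ℕ → ℕ → ℕ → ℂ) (N : ℕ) : Mt N := Matrix.of fun j s => M N j s / l

/-- the number of primes `p ≡ 3` modulo `4` which divide `n` to an odd power -/
def nu3 (n : ℕ) : ℕ := (n.primeFactors.filter fun p => p % 4 = 3 ∧ n.factorization p % 2 = 1).card

/-- the number of primes `p ≡ 5` modulo `8` which divide `n` to an odd power -/
def nu5 (n : ℕ) : ℕ := (n.primeFactors.filter fun p => p % 8 = 5 ∧ n.factorization p % 2 = 1).card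

/-- what is used about `n` -/
def HypN (n : ℕ) : Prop := ∃ a g : ℂ⟦X⟧, Lv2 a g ∧ ∀ e N : ℕ, e ≤ 1 →
  ∃ M : Mt N, Rp (mo2 a g e N) (TN n (4 * N + 2 * e)) M ∧ Sy M ∧ Two (ex M) N

end Pool.Agent.Lib.MP_06b9d2_tln
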