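import Pool.Agent.Lib.MP_06b9d2_tln.Defs
import Pool.Agent.Lib.MP_06b9d2_tl2.PcI
import Pool.Agent.Lib.MP_06b9d2_tl2.P3z
import Pool.Agent.Lib.MP_06b9d2_tl2.P3o
import Pool.Agent.Lib.MP_06b9d2_tl2.P4z
import Pool.Agent.Lib.MP_06b9d2_tl2.P4o

/-!
Module TLN-KpB. Bounds for `kp l e (pc M)`. (The model is `datQ` in `MP_06b9d2_tl2/Dat.lean`; see the header there.)

`kp m n r = pc M m n r - [r = n] ([m + n = 0] l + l ^ (2 e) (l ^ 4 - 1) ^ (m + n))`. `16 ∣ l ^ 4 - 1`, so the second part is in `2 ^ (4 (m + n))` (`p3z_l`, `p3o_16` are private: repeat).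
`kp_bd`: `(m, n) = (0, 0)`: `pc M 0 0 0 = M 0 0 0 = l + l ^ (2 e)` (`mat_00`), so `kp 0 0 0 = 0`, `pc_deg`. `m + n = 1`: `pc_m00`, `pc_101`, `pc_sym`, `pc_deg`: `0`. `m + n = 2`: `(2,0,0)`, `(0,2,2)`: `0` by `pc_m00`, `pc_sym`; `(2,0,1)`, `(0,2,1)`: `pc_201`, `ent20`, `ent21` (`v ≤ v (2 ^ (9 + r0))`, `Lc 3 2 = Lc 3 1 + 8 z` by `lrel`); the others `0`;
`(1,1,1)` is excluded. `m + n = 3`: `v ≤ v (2 ^ (9 + r0))`, `2 ^ 12`, needed `2 ^ (8 + r0) * 2`. `m + n = 4`: `p40z`, .. and `2 ^ 16`; needed `2 ^ (8 + r0) m! n!`, at most `2 ^ (11 + r0)`. `m + n = 5`: `pcP` (`2 ^ 13`), `2 ^ 20`; `v (m! n!) ≥ v 2 ^ 3`. `m + n ≥ 6`: `pcP` and `2 ^ (4 (m + n))`, `v (m! n!) ≥ v 2 ^ (m + n - 1)`.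
`kp_one`: `pc M 1 1 1 - l ^ (2 e) (l ^ 4 - 1) ^ 2 = pc M 1 1 1 - pc M 2 0 0 = -(M 2 0 0 - M 2 1 1)` (`pc_m00`, `pc_dif`), `mat_00`, `ent20` / `ent21`: `e = 0`: `u = 17`, `z = 0`; `e = 1`: `w = 155 Lc 3 2 + 5952 Lc 5 0 = 155 Lc 3 1 + 8 z`.
-/

namespace Pool.Agent.Lib.MP_06b9d2_tln

open PowerSeries Pool.Agent.L1
open Pool.Agent.Lib.MP_06b9d2_ssp (PO)
open Pool.Agent.Lib.MP_06b9d2_tls (Lv2 mo2 Two Tl U V)

open Pool.Agent.Lib.MP_06b9d2_tl2 (Core MatD pc Qd Lc)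

variable {A Y : ℂ⟦X⟧} {a k : ℤ⟦X⟧} {l e : ℕ} {M : ℕ → ℕ → ℕ → ℂ} {O : ValuationSubring ℂ}

open Pool.Agent.Lib.MP_06b9d2_tl2 (pc_m00 pc_dif mat_00 ent20 ent21 pc_101 pc_202 pc_110 pc_201 pc_sym pc_deg v_f v_fact
  v_dvd v_exact v_int pcP lrel p30z p21z p40z p31z p22z p30o p21o p40o p31o p22o)

private theorem KpB_lc (q : Qd A Y a k) (l r0 : ℕ) (hr : r0 ≤ 2) (u : ℤ) (hc : Lc l a k 3 1 = 2 ^ r0 * u) :
    ∃ z : ℤ, Lc l a k 3 2 = 2 ^ r0 * (u + 2 * z) := by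
  obtain ⟨z₁, z₂, z₃, z₄, z₅, -, -, h3, -, -⟩ := lrel q l
  refine ⟨2 ^ (2 - r0) * z₃, ?_⟩
  rw [h3, hc]
  interval_cases r0 <;> norm_num <;> ring

private theorem KpB_of (f x : ℂ) (r0 k j : ℕ) (h2 : O.valuation 2 < 1)
    (hx : O.valuation x ≤ O.valuation 2 ^ k) (hf : O.valuation 2 ^ j ≤ O.valuation f)
    (hk : 8 + r0 + j ≤ k) : O.valuation x ≤ O.valuation (2 ^ (8 + r0) * f) := by
  rw [map_mul, map_pow]
  calc O.valuation x ≤ O.valuation 2 ^ k := hx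
    _ ≤ O.valuation 2 ^ (8 + r0 + j) := pow_le_pow_of_le_one zero_le h2.le hk
    _ = O.valuation 2 ^ (8 + r0) * O.valuation 2 ^ j := pow_add _ _ _
    _ ≤ _ := mul_le_mul' le_rfl hf

private theorem KpB_ex {z : ℤ} {x : ℂ} {k : ℕ} (hx : x = ((2 ^ k * z : ℤ) : ℂ)) :
    O.valuation x ≤ O.valuation 2 ^ k := by
  rw [hx, ← map_pow]
  exact v_dvd O _ k (Dvd.intro _ rfl)

private theorem KpB_fac (h2 : O.valuation 2 < 1) (m n : ℕ) :
    O.valuation 2 ^ (m + n - 1) ≤ O.valuation (((m.factorial * n.factorial : ℕ)) : ℂ) := by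
  refine (v_fact h2 (m + n)).trans ?_
  obtain ⟨c, hc⟩ := Nat.factorial_mul_factorial_dvd_factorial_add m n
  rw [hc]
  push_cast
  rw [map_mul]
  have hc1 : O.valuation (c : ℂ) ≤ 1 := by
    have := v_int O (c : ℤ)
    rwa [Int.cast_natCast] at this
  exact mul_le_of_le_one_right' hc1

private theorem KpB_l4 (hl : l.Prime) (hl2 : l ≠ 2) : (2 : ℤ) ^ 4 ∣ (l : ℤ) ^ 4 - 1 := by
  have hlo : ¬ (2 : ℤ) ∣ (l : ℤ) := by
    intro h
    have h1 : 2 ∣ l := by exact_mod_cast h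
    exact hl2 ((Nat.prime_dvd_prime_iff_eq Nat.prime_two hl).1 h1).symm
  obtain ⟨t, ht⟩ : ∃ t : ℤ, (l : ℤ) = 2 * t + 1 := ⟨(l : ℤ) / 2, by omega⟩
  rw [ht]
  obtain ⟨s, hs⟩ : ∃ s : ℤ, t * (t + 1) = 2 * s := by
    obtain ⟨s, hs⟩ := Int.even_mul_succ_self t
    exact ⟨s, by rw [hs]; ring⟩
  refine ⟨s * (2 * t ^ 2 + 2 * t + 1), ?_⟩
  have : (2 * t + 1) ^ 4 - 1 = 8 * (t * (t + 1)) * (2 * t ^ 2 + 2 * t + 1) := by ring
  rw [this, hs]
  ring

/-- the second part is small -/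
private theorem KpB_sec (hl : l.Prime) (hl2 : l ≠ 2) (d : ℕ) :
    O.valuation ((l : ℂ) ^ (2 * e) * ((l : ℂ) ^ 4 - 1) ^ d) ≤ O.valuation 2 ^ (4 * d) := by
  obtain ⟨c, hc'⟩ := KpB_l4 hl hl2
  have e1 : (l : ℂ) ^ (2 * e) * ((l : ℂ) ^ 4 - 1) ^ d =
      ((2 ^ (4 * d) * ((l : ℤ) ^ (2 * e) * c ^ d) : ℤ) : ℂ) := by
    have e2 : (l : ℂ) ^ 4 - 1 = (2 : ℂ) ^ 4 * (c : ℂ) := by exact_mod_cast hc'
    rw [e2, mul_pow, ← pow_mul]
    push_cast
    ring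
  exact KpB_ex e1

private theorem KpB_kp (h2 : O.valuation 2 < 1) (hl : l.Prime) (hl2 : l ≠ 2) (κ : ℕ → ℕ → ℕ → ℂ) (m n r j : ℕ)
    (hmn : 0 < m + n) (hk : O.valuation (κ m n r) ≤ O.valuation 2 ^ j) (hj : j ≤ 4 * (m + n)) :
    O.valuation (kp l e κ m n r) ≤ O.valuation 2 ^ j := by
  unfold kp
  rw [if_neg (by omega : ¬ m + n = 0), zero_add]
  split_ifs with h
  · refine (O.valuation.map_sub _ _).trans (max_le hk ?_)
    exact (KpB_sec hl hl2 (m + n)).trans (pow_le_pow_of_le_one zero_le h2.le hj)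
  · rw [sub_zero]
    exact hk

private theorem KpB_ne (κ : ℕ → ℕ → ℕ → ℂ) (m n r : ℕ) (h : r ≠ n) : kp l e κ m n r = κ m n r := by
  unfold kp
  rw [if_neg h, sub_zero]

private theorem KpB_eq (κ : ℕ → ℕ → ℕ → ℂ) (m n : ℕ) (hmn : 0 < m + n)
    (h : κ m n n = (l : ℂ) ^ (2 * e) * ((l : ℂ) ^ 4 - 1) ^ (m + n)) : kp l e κ m n n = 0 := by
  unfold kp
  rw [if_pos rfl, if_neg (by omega : ¬ m + n = 0), zero_add, h, sub_self]

theorem kp_bd (h : Core A Y) (h2 : O.valuation 2 < 1) (q : Qd A Y a k) (hl : l.Prime) (hl2 : l ≠ 2) (he : e ≤ 1)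
    (hM : MatD l A Y e M) (r0 : ℕ) (hr : r0 ≤ 2) (hc : (2 : ℤ) ^ r0 ∣ Lc l a k 3 1) (m n r : ℕ)
    (h1 : ¬ (m = 1 ∧ n = 1 ∧ r = 1)) : O.valuation (kp l e (pc M) m n r) ≤
      O.valuation (2 ^ (8 + r0) * ((m.factorial * n.factorial : ℕ) : ℂ)) := by
  obtain ⟨v2, v3, v4, v5⟩ := v_f h2
  obtain ⟨u, hcu⟩ := hc
  have hdv : (2 : ℤ) ^ r0 ∣ Lc l a k 3 1 := ⟨u, hcu⟩
  have sym : ∀ m n r : ℕ, r ≤ m + n → pc M n m (m + n - r) = pc M m n r := fun m n r hrr =>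
    pc_sym hM m n r hrr
  have v1 : O.valuation ((Nat.factorial 1 : ℕ) : ℂ) = 1 := by simp
  have v0 : O.valuation ((Nat.factorial 0 : ℕ) : ℂ) = 1 := by simp
  -- the entries of degree three and four
  have p30 : ∀ r, O.valuation (pc M 3 0 r) ≤ O.valuation 2 ^ (9 + r0) := by
    intro r
    interval_cases e
    · obtain ⟨z, hz⟩ := p30z h q hl hl2 hM r0 hr hdv r
      exact KpB_ex hz
    · obtain ⟨z, hz⟩ := p30o h q hl hl2 hM r0 hr hdv r
      exact KpB_ex hz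
  have p21 : ∀ r, O.valuation (pc M 2 1 r) ≤ O.valuation 2 ^ (9 + r0) := by
    intro r
    interval_cases e
    · obtain ⟨z, hz⟩ := p21z h q hl hl2 hM r0 hr hdv r
      exact KpB_ex hz
    · obtain ⟨z, hz⟩ := p21o h q hl hl2 hM r0 hr hdv r
      exact KpB_ex hz
  have p40 : ∀ r, O.valuation (pc M 4 0 r) ≤ O.valuation 2 ^ (11 + r0) := by
    intro r
    interval_cases e
    · obtain ⟨z, hz⟩ := p40z h q hl hl2 hM r0 hr hdv r
      exact KpB_ex hz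
    · obtain ⟨z, hz⟩ := p40o h q hl hl2 hM r0 hr hdv r
      exact KpB_ex hz
  have p31 : ∀ r, O.valuation (pc M 3 1 r) ≤ O.valuation 2 ^ (9 + r0) := by
    intro r
    interval_cases e
    · obtain ⟨z, hz⟩ := p31z h q hl hl2 hM r0 hr hdv r
      exact KpB_ex hz
    · obtain ⟨z, hz⟩ := p31o h q hl hl2 hM r0 hr hdv r
      exact KpB_ex hz
  have p22 : ∀ r, O.valuation (pc M 2 2 r) ≤ O.valuation 2 ^ (10 + r0) := by
    intro r
    interval_cases e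
    · obtain ⟨z, hz⟩ := p22z h q hl hl2 hM r0 hr hdv r
      exact KpB_ex hz
    · obtain ⟨z, hz⟩ := p22o h q hl hl2 hM r0 hr hdv r
      exact KpB_ex hz
  have p201 : O.valuation (pc M 2 0 1) ≤ O.valuation 2 ^ (9 + r0) := by
    rw [pc_201 h hl hl2 hM]
    obtain ⟨z, hz⟩ := KpB_lc q l r0 hr u hcu
    interval_cases e
    · rw [(ent20 h q hl hl2 hM).1, hcu]
      have e1 : (((l : ℤ) * (1024 * (2 ^ r0 * u)) : ℤ) : ℂ) = ((2 ^ (9 + r0) * ((l : ℤ) * (2 * u)) : ℤ) : ℂ) := by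
        push_cast
        ring
      exact KpB_ex e1
    · rw [(ent21 h q hl hl2 hM).1, hz]
      have h4 : (2 : ℂ) ^ r0 * 2 ^ (2 - r0) = 4 := by
        rw [← pow_add]
        have : r0 + (2 - r0) = 2 := by omega
        rw [this]
        norm_num
      have e1 : (((l : ℤ) * (2560 * (2 ^ r0 * (u + 2 * z)) + 98304 * Lc l a k 5 0) : ℤ) : ℂ) =
          ((2 ^ (9 + r0) * ((l : ℤ) * (5 * (u + 2 * z) + 2 ^ (2 - r0) * (48 * Lc l a k 5 0))) : ℤ) : ℂ) := by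
        push_cast
        rw [pow_add]
        linear_combination (-(l : ℂ) * 512 * 48 * (Lc l a k 5 0 : ℂ)) * h4
      exact KpB_ex e1
  have hz : ∀ x : ℂ, x = 0 → ∀ y : ℂ, O.valuation x ≤ O.valuation y := by
    intro x hx y
    rw [hx, map_zero]
    exact zero_le
  rcases Nat.lt_or_ge (m + n) r with hrr | hrr
  · refine hz _ ?_ _
    rw [KpB_ne _ _ _ _ (by omega)]
    exact pc_deg hM m n r hrr
  rcases Nat.lt_or_ge 5 (m + n) with h6 | h6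
  · refine KpB_of _ _ r0 ((5 * (m + n) + 1) / 2) (m + n - 1) h2
      (KpB_kp h2 hl hl2 _ m n r _ (by omega) (pcP h h2 hl hl2 hM m n r) (by omega)) (KpB_fac h2 m n) ?_
    omega
  rcases Nat.eq_or_lt_of_le h6 with h5 | h5
  · refine KpB_of _ _ r0 ((5 * (m + n) + 1) / 2) 3 h2
      (KpB_kp h2 hl hl2 _ m n r _ (by omega) (pcP h h2 hl hl2 hM m n r) (by omega)) ?_ (by omega)
    have h7 : O.valuation 2 ^ 3 = O.valuation (((m + n).factorial : ℕ) : ℂ) := by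
      rw [h5]
      exact v5.symm
    rw [h7]
    obtain ⟨c, hc'⟩ := Nat.factorial_mul_factorial_dvd_factorial_add m n
    rw [hc']
    push_cast
    rw [map_mul]
    have hc1 : O.valuation (c : ℂ) ≤ 1 := by
      have := v_int O (c : ℤ)
      rwa [Int.cast_natCast] at this
    exact mul_le_of_le_one_right' hc1
  have hm5 : m ≤ 4 := by omega
  have hn5 : n ≤ 4 := by omega
  interval_cases m <;> interval_cases n
  · -- (0,0)
    refine hz _ ?_ _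
    have hr0 : r = 0 := by omega
    rw [hr0]
    have e0 : pc M 0 0 0 = M 0 0 0 := by simp [pc]
    unfold kp
    rw [e0, mat_00 h hl hl2 hM 0]
    simp
  · -- (0,1)
    refine hz _ ?_ _
    rcases Nat.eq_zero_or_pos r with h0 | h0
    · rw [h0, KpB_ne _ _ _ _ (by norm_num)]
      exact (pc_101 h hl hl2 hM).2
    · have hr1 : r = 1 := by omega
      rw [hr1]
      refine KpB_eq _ 0 1 (by norm_num) ?_
      have h7 := sym 1 0 0 (by omega)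
      exact h7.trans (pc_m00 h hl hl2 hM 1 (by norm_num))
  · -- (0,2)
    rcases Nat.eq_zero_or_pos r with h0 | h0
    · refine hz _ ?_ _
      rw [h0, KpB_ne _ _ _ _ (by norm_num)]
      exact (pc_202 h hl hl2 hM).2
    rcases Nat.lt_or_ge r 2 with h3 | h3
    · have hr1 : r = 1 := by omega
      rw [hr1, KpB_ne _ _ _ _ (by norm_num)]
      have h7 := sym 2 0 1 (by omega)
      have h8 : 2 + 0 - 1 = 1 := rfl
      rw [h8] at h7
      rw [h7]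
      refine KpB_of _ _ r0 (9 + r0) 1 h2 p201 ?_ (by omega)
      rw [Nat.cast_mul, map_mul, v0, v2, one_mul, pow_one]
    · have hr2 : r = 2 := by omega
      refine hz _ ?_ _
      rw [hr2]
      refine KpB_eq _ 0 2 (by norm_num) ?_
      have h7 := sym 2 0 0 (by omega)
      exact h7.trans (pc_m00 h hl hl2 hM 2 (by norm_num))
  · -- (0,3)
    have h7 := sym 3 0 (3 - r) (by omega)
    have h8 : 3 + 0 - (3 - r) = r := by omega
    rw [h8] at h7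
    refine KpB_of _ _ r0 (9 + r0) 1 h2
      (KpB_kp h2 hl hl2 _ 0 3 r _ (by omega) (by rw [h7]; exact p30 _) (by omega)) ?_ (by omega)
    rw [Nat.cast_mul, map_mul, v0, v3, one_mul, pow_one]
  · -- (0,4)
    have h7 := sym 4 0 (4 - r) (by omega)
    have h8 : 4 + 0 - (4 - r) = r := by omega
    rw [h8] at h7
    refine KpB_of _ _ r0 (11 + r0) 3 h2
      (KpB_kp h2 hl hl2 _ 0 4 r _ (by omega) (by rw [h7]; exact p40 _) (by omega)) ?_ (by omega)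
    rw [Nat.cast_mul, map_mul, v0, v4, one_mul]
  · -- (1,0)
    refine hz _ ?_ _
    rcases Nat.eq_zero_or_pos r with h0 | h0
    · rw [h0]
      exact KpB_eq _ 1 0 (by norm_num) (pc_m00 h hl hl2 hM 1 (by norm_num))
    · have hr1 : r = 1 := by omega
      rw [hr1, KpB_ne _ _ _ _ (by norm_num)]
      exact (pc_101 h hl hl2 hM).1
  · -- (1,1)
    refine hz _ ?_ _
    rcases Nat.eq_zero_or_pos r with h0 | h0
    · rw [h0, KpB_ne _ _ _ _ (by norm_num)]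
      exact (pc_110 h hl hl2 hM).1
    · have hr2 : r = 2 := by omega
      rw [hr2, KpB_ne _ _ _ _ (by norm_num)]
      exact (pc_110 h hl hl2 hM).2
  · -- (1,2)
    have h7 := sym 2 1 (3 - r) (by omega)
    have h8 : 2 + 1 - (3 - r) = r := by omega
    rw [h8] at h7
    refine KpB_of _ _ r0 (9 + r0) 1 h2
      (KpB_kp h2 hl hl2 _ 1 2 r _ (by omega) (by rw [h7]; exact p21 _) (by omega)) ?_ (by omega)
    rw [Nat.cast_mul, map_mul, v1, v2, one_mul, pow_one]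
  · -- (1,3)
    have h7 := sym 3 1 (4 - r) (by omega)
    have h8 : 3 + 1 - (4 - r) = r := by omega
    rw [h8] at h7
    refine KpB_of _ _ r0 (9 + r0) 1 h2
      (KpB_kp h2 hl hl2 _ 1 3 r _ (by omega) (by rw [h7]; exact p31 _) (by omega)) ?_ (by omega)
    rw [Nat.cast_mul, map_mul, v1, v3, one_mul, pow_one]
  · omega
  · -- (2,0)
    rcases Nat.eq_zero_or_pos r with h0 | h0
    · refine hz _ ?_ _
      rw [h0]
      exact KpB_eq _ 2 0 (by norm_num) (pc_m00 h hl hl2 hM 2 (by norm_num))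
    rcases Nat.lt_or_ge r 2 with h3 | h3
    · have hr1 : r = 1 := by omega
      rw [hr1, KpB_ne _ _ _ _ (by norm_num)]
      refine KpB_of _ _ r0 (9 + r0) 1 h2 p201 ?_ (by omega)
      rw [Nat.cast_mul, map_mul, v0, v2, mul_one, pow_one]
    · refine hz _ ?_ _
      have hr2 : r = 2 := by omega
      rw [hr2, KpB_ne _ _ _ _ (by norm_num)]
      exact (pc_202 h hl hl2 hM).1
  · -- (2,1)
    refine KpB_of _ _ r0 (9 + r0) 1 h2
      (KpB_kp h2 hl hl2 _ 2 1 r _ (by omega) (p21 _) (by omega)) ?_ (by omega)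
    rw [Nat.cast_mul, map_mul, v1, v2, mul_one, pow_one]
  · -- (2,2)
    refine KpB_of _ _ r0 (10 + r0) 2 h2
      (KpB_kp h2 hl hl2 _ 2 2 r _ (by omega) (p22 _) (by omega)) ?_ (by omega)
    rw [Nat.cast_mul, map_mul, v2, pow_two]
  · omega
  · omega
  · -- (3,0)
    refine KpB_of _ _ r0 (9 + r0) 1 h2
      (KpB_kp h2 hl hl2 _ 3 0 r _ (by omega) (p30 _) (by omega)) ?_ (by omega)
    rw [Nat.cast_mul, map_mul, v0, v3, mul_one, pow_one]
  · -- (3,1)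
    refine KpB_of _ _ r0 (9 + r0) 1 h2
      (KpB_kp h2 hl hl2 _ 3 1 r _ (by omega) (p31 _) (by omega)) ?_ (by omega)
    rw [Nat.cast_mul, map_mul, v1, v3, mul_one, pow_one]
  · omega
  · omega
  · omega
  · -- (4,0)
    refine KpB_of _ _ r0 (11 + r0) 3 h2
      (KpB_kp h2 hl hl2 _ 4 0 r _ (by omega) (p40 _) (by omega)) ?_ (by omega)
    rw [Nat.cast_mul, map_mul, v0, v4, mul_one]
  · omega
  · omega
  · omega
  · omega

theorem kp_one (h : Core A Y) (q : Qd A Y a k) (hl : l.Prime) (hl2 : l ≠ 2) (he : e ≤ 1) (hM : MatD l A Y e M) :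
    ∃ u z : ℤ, u % 2 = 1 ∧ kp l e (pc M) 1 1 1 = ((-((l : ℤ) * (2 ^ 7 * (u * Lc l a k 3 1 + 8 * z))) : ℤ) : ℂ) := by
  have e1 : kp l e (pc M) 1 1 1 = -(M 2 0 0 - M 2 1 1) := by
    rw [← pc_dif h hl hl2 hM]
    unfold kp
    rw [if_pos rfl, if_neg (by norm_num), zero_add, pc_m00 h hl hl2 hM 2 (by norm_num)]
    ring
  rw [e1, mat_00 h hl hl2 hM 2]
  obtain ⟨z₁, z₂, z₃, z₄, z₅, -, -, h3, -, -⟩ := lrel q l
  interval_cases e
  · refine ⟨17, 0, by norm_num, ?_⟩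
    rw [(ent20 h q hl hl2 hM).2]
    push_cast
    ring
  · refine ⟨155, 155 * z₃ + 744 * Lc l a k 5 0, by norm_num, ?_⟩
    rw [(ent21 h q hl hl2 hM).2, h3]
    push_cast
    ring

end Pool.Agent.Lib.MP_06b9d2_tln
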