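import Pool.Agent.Lib.MP_06b9d2_tln.Defs
import Pool.Agent.Lib.MP_06b9d2_tl2.P3z
import Pool.Agent.Lib.MP_06b9d2_tl2.P4z

/-!
Module TLN-KuZ. The universal congruence for `e = 0`, `m + n = 3, 4`. (Model: `MP_06b9d2_tl2/P3z.lean`, `P4z.lean`: the explicit values of `pc`, see the headers there; copy the private lemmas.)

`kp m n r = pc M m n r - [r = n] (l ^ 4 - 1) ^ (m + n)` (`m + n > 0`, `e = 0`). With `L(i,j) = Lc l a k i j`, `L(3,3) = L(3,1) + 16 z₁`, `L(3,5) = L(3,1) + 32 z₂` (`lrel`), `K = Kz`: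
`pc 3 0 0 = (l^4-1)^3` (`K = 0`), `pc 3 0 1 = l (-3072 L(3,1) + 132608 L(3,3) + 25460736 L(5,1))`, `pc 3 0 2 = l (4096 L(3,3) + 786432 L(5,1))`, `pc 3 0 3 = 0`; `pc 2 1 0 = 0`, `pc 2 1 1 = (l^4-1)^3 + l (4352 L(3,1) - 176896 L(3,3) - 33964032 L(5,1))`, `pc 2 1 2 = l (-1024 L(3,1))`, `pc 2 1 3 = 0`;
`pc 4 0 1 = l (6144 L(3,1) - 530432 L(3,3) - 101842944 L(5,1) + 14348288 L(3,5) + 28623503360 L(5,3) + 2008215977984 L(7,1))`, `pc 4 0 2 = l (-16384 L(3,3) - 3145728 L(5,1) + 2031616 L(3,5) + 4040163328 L(5,3) + 283534950400 L(7,1))`, `pc 4 0 3 = l (8388608 L(5,3) + 536870912 L(7,1))`, `pc 4 0 4 = 0`;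
`pc 3 1 1 = (l^4-1)^4 + l (-6528 L(3,1) + 530688 L(3,3) + 101892096 L(5,1) - 14348160 L(3,5) - 28623552512 L(5,3) - 2008217550848 L(7,1))`, `pc 3 1 2 = l (3072 L(3,1) - 132608 L(3,3) - 25460736 L(5,1) - 5632 L(3,5) + 720896 L(5,3) - 23068672 L(7,1))`, `pc 3 1 3 = l (-4096 L(3,3) - 786432 L(5,1) + 4096 L(3,5) - 524288 L(5,3) + 16777216 L(7,1))`;
`pc 2 2 1 = pc 2 2 3 = l (1024 L(3,1) - 1024 L(3,5) + 131072 L(5,3) - 4194304 L(7,1))`, `pc 2 2 2 = (l^4-1)^4 + l (-8704 L(3,1) + 707584 L(3,3) + 135856128 L(5,1) - 14350848 L(3,5) - 28623208448 L(5,3) - 2008228560896 L(7,1))`; `pc 3 1 0 = pc 3 1 4 = pc 2 2 0 = pc 2 2 4 = 0`.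
In each case `kp m n r - l L(3,1) K m n r` is `l` times a combination of `z₁`, `z₂`, `L(5,1)`, `L(5,3)`, `L(7,1)` whose coefficients are divisible by the power of `2` in the statement (the coefficients of `L(3,1)` cancel).
-/

namespace Pool.Agent.Lib.MP_06b9d2_tln

open PowerSeries Pool.Agent.L1
open Pool.Agent.Lib.MP_06b9d2_ssp (PO)
open Pool.Agent.Lib.MP_06b9d2_tls (Lv2 mo2 Two Tl U V)

open Pool.Agent.Lib.MP_06b9d2_tl2 (Core MatD pc Qd Lc ent20 ent30 ent40 mat_00 mat_NN mat_low mat_top pc_deg pc_m00 pc_mn0 lrel)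

variable {A Y : ℂ⟦X⟧} {a k : ℤ⟦X⟧} {l : ℕ} {M : ℕ → ℕ → ℕ → ℂ}

private theorem kuz_3a (r : ℕ) : pc M 3 0 r = -M 0 r 0 + 3 * M 1 r 0 - 3 * M 2 r 0 + M 3 r 0 := by
  unfold pc
  simp [Finset.sum_range_succ, Nat.choose]
  ring

private theorem kuz_3b (r : ℕ) : pc M 2 1 (r + 1) =
    -(M 0 r 0 - 2 * M 1 r 0 + M 2 r 0) + (M 1 (r + 1) 1 - 2 * M 2 (r + 1) 1 + M 3 (r + 1) 1) := by
  unfold pc
  simp [Finset.sum_range_succ, Nat.choose]
  ring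

private theorem kuz_301 (h : Core A Y) (q : Qd A Y a k) (hl : l.Prime) (hl2 : l ≠ 2) (hM : MatD l A Y 0 M) :
    pc M 3 0 1 = (((l : ℤ) * (-3072 * Lc l a k 3 1 + 132608 * Lc l a k 3 3 + 25460736 * Lc l a k 5 1) : ℤ) : ℂ) := by
  obtain ⟨e20, e21⟩ := ent20 h q hl hl2 hM
  obtain ⟨e30, e31, e32, e33⟩ := ent30 h q hl hl2 hM
  rw [kuz_3a, hM.out 0 1 0 (by norm_num), mat_top h hl hl2 hM 1 0 (by norm_num), e20, e30]
  push_cast
  ring

private theorem kuz_302 (h : Core A Y) (q : Qd A Y a k) (hl : l.Prime) (hl2 : l ≠ 2) (hM : MatD l A Y 0 M) :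
    pc M 3 0 2 = (((l : ℤ) * (4096 * Lc l a k 3 3 + 786432 * Lc l a k 5 1) : ℤ) : ℂ) := by
  obtain ⟨e20, e21⟩ := ent20 h q hl hl2 hM
  obtain ⟨e30, e31, e32, e33⟩ := ent30 h q hl hl2 hM
  rw [kuz_3a, hM.out 0 2 0 (by norm_num), hM.out 1 2 0 (by norm_num),
    mat_top h hl hl2 hM 2 0 (by norm_num)]
  have h2 := hM.sym 3 1 3 (by norm_num) (by norm_num)
  rw [e33] at h2
  have h3 : M 3 2 0 = M 3 (3 - 1) (3 - 3) := rfl
  rw [h3, h2]
  ring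

private theorem kuz_303 (h : Core A Y) (hl : l.Prime) (hl2 : l ≠ 2) (hM : MatD l A Y 0 M) :
    pc M 3 0 3 = 0 := by
  rw [kuz_3a, hM.out 0 3 0 (by norm_num), hM.out 1 3 0 (by norm_num), hM.out 2 3 0 (by norm_num),
    mat_top h hl hl2 hM 3 0 (by norm_num)]
  simp

private theorem kuz_211 (h : Core A Y) (q : Qd A Y a k) (hl : l.Prime) (hl2 : l ≠ 2) (hM : MatD l A Y 0 M) :
    pc M 2 1 1 = (((((l : ℤ) ^ 4 - 1) ^ 3 +
      (l : ℤ) * (4352 * Lc l a k 3 1 - 176896 * Lc l a k 3 3 - 33964032 * Lc l a k 5 1)) : ℤ) : ℂ) := by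
  obtain ⟨e20, e21⟩ := ent20 h q hl hl2 hM
  obtain ⟨e30, e31, e32, e33⟩ := ent30 h q hl hl2 hM
  rw [kuz_3b 0, mat_00 h hl hl2 hM 0, mat_00 h hl hl2 hM 1, mat_00 h hl hl2 hM 2]
  simp only [Nat.zero_add]
  rw [mat_NN h hl hl2 hM 1, e21, e31]
  push_cast
  ring

private theorem kuz_212 (h : Core A Y) (q : Qd A Y a k) (hl : l.Prime) (hl2 : l ≠ 2) (hM : MatD l A Y 0 M) :
    pc M 2 1 2 = (((l : ℤ) * (-1024 * Lc l a k 3 1) : ℤ) : ℂ) := by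
  obtain ⟨e20, e21⟩ := ent20 h q hl hl2 hM
  obtain ⟨e30, e31, e32, e33⟩ := ent30 h q hl hl2 hM
  rw [kuz_3b 1, hM.out 0 1 0 (by norm_num), mat_top h hl hl2 hM 1 0 (by norm_num), e20]
  simp only [Nat.reduceAdd]
  rw [hM.out 1 2 1 (by norm_num), mat_top h hl hl2 hM 2 1 (by norm_num)]
  have h2 := hM.sym 3 1 2 (by norm_num) (by norm_num)
  rw [e32] at h2
  have h3 : M 3 2 1 = M 3 (3 - 1) (3 - 2) := rfl
  rw [h3, h2]
  push_cast
  ring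

private theorem kuz_213 (h : Core A Y) (hl : l.Prime) (hl2 : l ≠ 2) (hM : MatD l A Y 0 M) :
    pc M 2 1 3 = 0 := by
  rw [kuz_3b 2, hM.out 0 2 0 (by norm_num), hM.out 1 2 0 (by norm_num),
    mat_top h hl hl2 hM 2 0 (by norm_num)]
  simp only [Nat.reduceAdd]
  rw [hM.out 1 3 1 (by norm_num), hM.out 2 3 1 (by norm_num), mat_top h hl hl2 hM 3 1 (by norm_num)]
  simp

private theorem kuz_kz (m n r : ℕ) (h : m + n < r) : Kz m n r = 0 := by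
  unfold Kz
  split <;> first | omega | rfl

private theorem kuz_400 (h : Core A Y) (q : Qd A Y a k) (hl : l.Prime) (hl2 : l ≠ 2) (hM : MatD l A Y 0 M) :
    pc M 4 0 0 = ((((l : ℤ) ^ 4 - 1) ^ 4 + (l : ℤ) * (0) : ℤ) : ℂ) := by
  have e : pc M 4 0 0 = M 4 0 0 - 4 * M 3 0 0 + 6 * M 2 0 0 - 4 * M 1 0 0 + M 0 0 0 := by
    simp [pc, Finset.sum_range_succ, Nat.choose]
    try ring
  have v400 : M 4 0 0 = (l : ℂ) + (l : ℂ) ^ 16 := mat_00 h hl hl2 hM 4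
  have v300 : M 3 0 0 = (l : ℂ) + (l : ℂ) ^ 12 := mat_00 h hl hl2 hM 3
  have v200 : M 2 0 0 = (l : ℂ) + (l : ℂ) ^ 8 := mat_00 h hl hl2 hM 2
  have v100 : M 1 0 0 = (l : ℂ) + (l : ℂ) ^ 4 := mat_00 h hl hl2 hM 1
  have v000 : M 0 0 0 = (l : ℂ) + (l : ℂ) ^ 0 := mat_00 h hl hl2 hM 0
  rw [e]
  simp only [v000, v100, v200, v300, v400]
  push_cast
  ring

private theorem kuz_401 (h : Core A Y) (q : Qd A Y a k) (hl : l.Prime) (hl2 : l ≠ 2) (hM : MatD l A Y 0 M) :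
    pc M 4 0 1 = ((0 * ((l : ℤ) ^ 4 - 1) ^ 4 + (l : ℤ) * (6144 * Lc l a k 3 1 - 530432 * Lc l a k 3 3 - 101842944 * Lc l a k 5 1 + 14348288 * Lc l a k 3 5 + 28623503360 * Lc l a k 5 3 + 2008215977984 * Lc l a k 7 1) : ℤ) : ℂ) := by
  have e : pc M 4 0 1 = M 4 1 0 - 4 * M 3 1 0 + 6 * M 2 1 0 - 4 * M 1 1 0 + M 0 1 0 := by
    simp [pc, Finset.sum_range_succ, Nat.choose]
    try ring
  have v410 : M 4 1 0 = (((l : ℤ) * (14348288 * Lc l a k 3 5 + 28623503360 * Lc l a k 5 3 + 2008215977984 * Lc l a k 7 1) : ℤ) : ℂ) := (ent40 h q hl hl2 hM).1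
  have v310 : M 3 1 0 = (((l : ℤ) * (132608 * Lc l a k 3 3 + 25460736 * Lc l a k 5 1) : ℤ) : ℂ) := (ent30 h q hl hl2 hM).1
  have v210 : M 2 1 0 = (((l : ℤ) * (1024 * Lc l a k 3 1) : ℤ) : ℂ) := (ent20 h q hl hl2 hM).1
  have v110 : M 1 1 0 = 0 := mat_top h hl hl2 hM 1 0 (by norm_num)
  have v010 : M 0 1 0 = 0 := hM.out 0 1 0 (by norm_num)
  rw [e]
  simp only [v010, v110, v210, v310, v410]
  push_cast
  ring

private theorem kuz_402 (h : Core A Y) (q : Qd A Y a k) (hl : l.Prime) (hl2 : l ≠ 2) (hM : MatD l A Y 0 M) :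
    pc M 4 0 2 = ((0 * ((l : ℤ) ^ 4 - 1) ^ 4 + (l : ℤ) * (-16384 * Lc l a k 3 3 - 3145728 * Lc l a k 5 1 + 2031616 * Lc l a k 3 5 + 4040163328 * Lc l a k 5 3 + 283534950400 * Lc l a k 7 1) : ℤ) : ℂ) := by
  have e : pc M 4 0 2 = M 4 2 0 - 4 * M 3 2 0 + 6 * M 2 2 0 - 4 * M 1 2 0 + M 0 2 0 := by
    simp [pc, Finset.sum_range_succ, Nat.choose]
    try ring
  have v420 : M 4 2 0 = (((l : ℤ) * (2031616 * Lc l a k 3 5 + 4040163328 * Lc l a k 5 3 + 283534950400 * Lc l a k 7 1) : ℤ) : ℂ) := (ent40 h q hl hl2 hM).2.2.2.2.2.1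
  have v313 : M 3 1 3 = (((l : ℤ) * (4096 * Lc l a k 3 3 + 786432 * Lc l a k 5 1) : ℤ) : ℂ) := (ent30 h q hl hl2 hM).2.2.2
  have v320 : M 3 2 0 = M 3 1 3 := hM.sym 3 1 3 (by norm_num) (by norm_num)
  have v220 : M 2 2 0 = 0 := mat_top h hl hl2 hM 2 0 (by norm_num)
  have v120 : M 1 2 0 = 0 := hM.out 1 2 0 (by norm_num)
  have v020 : M 0 2 0 = 0 := hM.out 0 2 0 (by norm_num)
  rw [e]
  simp only [v020, v120, v220, v313, v320, v420]
  push_cast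
  ring

private theorem kuz_403 (h : Core A Y) (q : Qd A Y a k) (hl : l.Prime) (hl2 : l ≠ 2) (hM : MatD l A Y 0 M) :
    pc M 4 0 3 = ((0 * ((l : ℤ) ^ 4 - 1) ^ 4 + (l : ℤ) * (8388608 * Lc l a k 5 3 + 536870912 * Lc l a k 7 1) : ℤ) : ℂ) := by
  have e : pc M 4 0 3 = M 4 3 0 - 4 * M 3 3 0 + 6 * M 2 3 0 - 4 * M 1 3 0 + M 0 3 0 := by
    simp [pc, Finset.sum_range_succ, Nat.choose]
    try ring
  have v414 : M 4 1 4 = (((l : ℤ) * (8388608 * Lc l a k 5 3 + 536870912 * Lc l a k 7 1) : ℤ) : ℂ) := (ent40 h q hl hl2 hM).2.2.2.2.1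
  have v430 : M 4 3 0 = M 4 1 4 := hM.sym 4 1 4 (by norm_num) (by norm_num)
  have v330 : M 3 3 0 = 0 := mat_top h hl hl2 hM 3 0 (by norm_num)
  have v230 : M 2 3 0 = 0 := hM.out 2 3 0 (by norm_num)
  have v130 : M 1 3 0 = 0 := hM.out 1 3 0 (by norm_num)
  have v030 : M 0 3 0 = 0 := hM.out 0 3 0 (by norm_num)
  rw [e]
  simp only [v030, v130, v230, v330, v414, v430]
  push_cast
  ring

private theorem kuz_404 (h : Core A Y) (q : Qd A Y a k) (hl : l.Prime) (hl2 : l ≠ 2) (hM : MatD l A Y 0 M) :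
    pc M 4 0 4 = ((0 * ((l : ℤ) ^ 4 - 1) ^ 4 + (l : ℤ) * (0) : ℤ) : ℂ) := by
  have e : pc M 4 0 4 = M 4 4 0 - 4 * M 3 4 0 + 6 * M 2 4 0 - 4 * M 1 4 0 + M 0 4 0 := by
    simp [pc, Finset.sum_range_succ, Nat.choose]
    try ring
  have v440 : M 4 4 0 = 0 := mat_top h hl hl2 hM 4 0 (by norm_num)
  have v340 : M 3 4 0 = 0 := hM.out 3 4 0 (by norm_num)
  have v240 : M 2 4 0 = 0 := hM.out 2 4 0 (by norm_num)
  have v140 : M 1 4 0 = 0 := hM.out 1 4 0 (by norm_num)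
  have v040 : M 0 4 0 = 0 := hM.out 0 4 0 (by norm_num)
  rw [e]
  simp only [v040, v140, v240, v340, v440]
  push_cast
  ring

private theorem kuz_310 (h : Core A Y) (q : Qd A Y a k) (hl : l.Prime) (hl2 : l ≠ 2) (hM : MatD l A Y 0 M) :
    pc M 3 1 0 = ((0 * ((l : ℤ) ^ 4 - 1) ^ 4 + (l : ℤ) * (0) : ℤ) : ℂ) := by
  have e : pc M 3 1 0 = M 4 0 1 - 3 * M 3 0 1 + 3 * M 2 0 1 - M 1 0 1 := by
    simp [pc, Finset.sum_range_succ, Nat.choose]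
    try ring
  have v401 : M 4 0 1 = 0 := mat_low h hl hl2 hM 4 1 (by norm_num) (by norm_num)
  have v301 : M 3 0 1 = 0 := mat_low h hl hl2 hM 3 1 (by norm_num) (by norm_num)
  have v201 : M 2 0 1 = 0 := mat_low h hl hl2 hM 2 1 (by norm_num) (by norm_num)
  have v101 : M 1 0 1 = 0 := mat_low h hl hl2 hM 1 1 (by norm_num) (by norm_num)
  rw [e]
  simp only [v101, v201, v301, v401]
  push_cast
  ring

private theorem kuz_311 (h : Core A Y) (q : Qd A Y a k) (hl : l.Prime) (hl2 : l ≠ 2) (hM : MatD l A Y 0 M) :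
    pc M 3 1 1 = ((((l : ℤ) ^ 4 - 1) ^ 4 + (l : ℤ) * (-6528 * Lc l a k 3 1 + 530688 * Lc l a k 3 3 + 101892096 * Lc l a k 5 1 - 14348160 * Lc l a k 3 5 - 28623552512 * Lc l a k 5 3 - 2008217550848 * Lc l a k 7 1) : ℤ) : ℂ) := by
  have e : pc M 3 1 1 = M 4 1 1 - 3 * M 3 1 1 - M 3 0 0 + 3 * M 2 1 1 + 3 * M 2 0 0 - M 1 1 1 - 3 * M 1 0 0 + M 0 0 0 := by
    simp [pc, Finset.sum_range_succ, Nat.choose]
    try ring
  have v411 : M 4 1 1 = (((l : ℤ) * (1 + (l : ℤ) ^ 15 - 14348160 * Lc l a k 3 5 - 28623552512 * Lc l a k 5 3 - 2008217550848 * Lc l a k 7 1) : ℤ) : ℂ) := (ent40 h q hl hl2 hM).2.1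
  have v311 : M 3 1 1 = (((l : ℤ) * (1 + (l : ℤ) ^ 11 - 176896 * Lc l a k 3 3 - 33964032 * Lc l a k 5 1) : ℤ) : ℂ) := (ent30 h q hl hl2 hM).2.1
  have v300 : M 3 0 0 = (l : ℂ) + (l : ℂ) ^ 12 := mat_00 h hl hl2 hM 3
  have v211 : M 2 1 1 = (((l : ℤ) * (1 + (l : ℤ) ^ 7 - 2176 * Lc l a k 3 1) : ℤ) : ℂ) := (ent20 h q hl hl2 hM).2
  have v200 : M 2 0 0 = (l : ℂ) + (l : ℂ) ^ 8 := mat_00 h hl hl2 hM 2
  have v111 : M 1 1 1 = (l : ℂ) + (l : ℂ) ^ 4 := mat_NN h hl hl2 hM 1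
  have v100 : M 1 0 0 = (l : ℂ) + (l : ℂ) ^ 4 := mat_00 h hl hl2 hM 1
  have v000 : M 0 0 0 = (l : ℂ) + (l : ℂ) ^ 0 := mat_00 h hl hl2 hM 0
  rw [e]
  simp only [v000, v100, v111, v200, v211, v300, v311, v411]
  push_cast
  ring

private theorem kuz_312 (h : Core A Y) (q : Qd A Y a k) (hl : l.Prime) (hl2 : l ≠ 2) (hM : MatD l A Y 0 M) :
    pc M 3 1 2 = ((0 * ((l : ℤ) ^ 4 - 1) ^ 4 + (l : ℤ) * (3072 * Lc l a k 3 1 - 132608 * Lc l a k 3 3 - 25460736 * Lc l a k 5 1 - 5632 * Lc l a k 3 5 + 720896 * Lc l a k 5 3 - 23068672 * Lc l a k 7 1) : ℤ) : ℂ) := by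
  have e : pc M 3 1 2 = M 4 2 1 - 3 * M 3 2 1 - M 3 1 0 + 3 * M 2 2 1 + 3 * M 2 1 0 - M 1 2 1 - 3 * M 1 1 0 + M 0 1 0 := by
    simp [pc, Finset.sum_range_succ, Nat.choose]
    try ring
  have v421 : M 4 2 1 = (((l : ℤ) * (-5632 * Lc l a k 3 5 + 720896 * Lc l a k 5 3 - 23068672 * Lc l a k 7 1) : ℤ) : ℂ) := (ent40 h q hl hl2 hM).2.2.2.2.2.2.1
  have v312 : M 3 1 2 = 0 := (ent30 h q hl hl2 hM).2.2.1
  have v321 : M 3 2 1 = M 3 1 2 := hM.sym 3 1 2 (by norm_num) (by norm_num)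
  have v310 : M 3 1 0 = (((l : ℤ) * (132608 * Lc l a k 3 3 + 25460736 * Lc l a k 5 1) : ℤ) : ℂ) := (ent30 h q hl hl2 hM).1
  have v221 : M 2 2 1 = 0 := mat_top h hl hl2 hM 2 1 (by norm_num)
  have v210 : M 2 1 0 = (((l : ℤ) * (1024 * Lc l a k 3 1) : ℤ) : ℂ) := (ent20 h q hl hl2 hM).1
  have v121 : M 1 2 1 = 0 := hM.out 1 2 1 (by norm_num)
  have v110 : M 1 1 0 = 0 := mat_top h hl hl2 hM 1 0 (by norm_num)
  have v010 : M 0 1 0 = 0 := hM.out 0 1 0 (by norm_num)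
  rw [e]
  simp only [v010, v110, v121, v210, v221, v310, v312, v321, v421]
  push_cast
  ring

private theorem kuz_313 (h : Core A Y) (q : Qd A Y a k) (hl : l.Prime) (hl2 : l ≠ 2) (hM : MatD l A Y 0 M) :
    pc M 3 1 3 = ((0 * ((l : ℤ) ^ 4 - 1) ^ 4 + (l : ℤ) * (-4096 * Lc l a k 3 3 - 786432 * Lc l a k 5 1 + 4096 * Lc l a k 3 5 - 524288 * Lc l a k 5 3 + 16777216 * Lc l a k 7 1) : ℤ) : ℂ) := by
  have e : pc M 3 1 3 = M 4 3 1 - 3 * M 3 3 1 - M 3 2 0 + 3 * M 2 3 1 + 3 * M 2 2 0 - M 1 3 1 - 3 * M 1 2 0 + M 0 2 0 := by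
    simp [pc, Finset.sum_range_succ, Nat.choose]
    try ring
  have v413 : M 4 1 3 = (((l : ℤ) * (4096 * Lc l a k 3 5 - 524288 * Lc l a k 5 3 + 16777216 * Lc l a k 7 1) : ℤ) : ℂ) := (ent40 h q hl hl2 hM).2.2.2.1
  have v431 : M 4 3 1 = M 4 1 3 := hM.sym 4 1 3 (by norm_num) (by norm_num)
  have v331 : M 3 3 1 = 0 := mat_top h hl hl2 hM 3 1 (by norm_num)
  have v313 : M 3 1 3 = (((l : ℤ) * (4096 * Lc l a k 3 3 + 786432 * Lc l a k 5 1) : ℤ) : ℂ) := (ent30 h q hl hl2 hM).2.2.2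
  have v320 : M 3 2 0 = M 3 1 3 := hM.sym 3 1 3 (by norm_num) (by norm_num)
  have v231 : M 2 3 1 = 0 := hM.out 2 3 1 (by norm_num)
  have v220 : M 2 2 0 = 0 := mat_top h hl hl2 hM 2 0 (by norm_num)
  have v131 : M 1 3 1 = 0 := hM.out 1 3 1 (by norm_num)
  have v120 : M 1 2 0 = 0 := hM.out 1 2 0 (by norm_num)
  have v020 : M 0 2 0 = 0 := hM.out 0 2 0 (by norm_num)
  rw [e]
  simp only [v020, v120, v131, v220, v231, v313, v320, v331, v413, v431]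
  push_cast
  ring

private theorem kuz_314 (h : Core A Y) (q : Qd A Y a k) (hl : l.Prime) (hl2 : l ≠ 2) (hM : MatD l A Y 0 M) :
    pc M 3 1 4 = ((0 * ((l : ℤ) ^ 4 - 1) ^ 4 + (l : ℤ) * (0) : ℤ) : ℂ) := by
  have e : pc M 3 1 4 = M 4 4 1 - 3 * M 3 4 1 - M 3 3 0 + 3 * M 2 4 1 + 3 * M 2 3 0 - M 1 4 1 - 3 * M 1 3 0 + M 0 3 0 := by
    simp [pc, Finset.sum_range_succ, Nat.choose]
    try ring
  have v441 : M 4 4 1 = 0 := mat_top h hl hl2 hM 4 1 (by norm_num)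
  have v341 : M 3 4 1 = 0 := hM.out 3 4 1 (by norm_num)
  have v330 : M 3 3 0 = 0 := mat_top h hl hl2 hM 3 0 (by norm_num)
  have v241 : M 2 4 1 = 0 := hM.out 2 4 1 (by norm_num)
  have v230 : M 2 3 0 = 0 := hM.out 2 3 0 (by norm_num)
  have v141 : M 1 4 1 = 0 := hM.out 1 4 1 (by norm_num)
  have v130 : M 1 3 0 = 0 := hM.out 1 3 0 (by norm_num)
  have v030 : M 0 3 0 = 0 := hM.out 0 3 0 (by norm_num)
  rw [e]
  simp only [v030, v130, v141, v230, v241, v330, v341, v441]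
  push_cast
  ring

private theorem kuz_220 (h : Core A Y) (q : Qd A Y a k) (hl : l.Prime) (hl2 : l ≠ 2) (hM : MatD l A Y 0 M) :
    pc M 2 2 0 = ((0 * ((l : ℤ) ^ 4 - 1) ^ 4 + (l : ℤ) * (0) : ℤ) : ℂ) := by
  have e : pc M 2 2 0 = M 4 0 2 - 2 * M 3 0 2 + M 2 0 2 := by
    simp [pc, Finset.sum_range_succ, Nat.choose]
    try ring
  have v402 : M 4 0 2 = 0 := mat_low h hl hl2 hM 4 2 (by norm_num) (by norm_num)
  have v302 : M 3 0 2 = 0 := mat_low h hl hl2 hM 3 2 (by norm_num) (by norm_num)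
  have v202 : M 2 0 2 = 0 := mat_low h hl hl2 hM 2 2 (by norm_num) (by norm_num)
  rw [e]
  simp only [v202, v302, v402]
  push_cast
  ring

private theorem kuz_221 (h : Core A Y) (q : Qd A Y a k) (hl : l.Prime) (hl2 : l ≠ 2) (hM : MatD l A Y 0 M) :
    pc M 2 2 1 = ((0 * ((l : ℤ) ^ 4 - 1) ^ 4 + (l : ℤ) * (1024 * Lc l a k 3 1 - 1024 * Lc l a k 3 5 + 131072 * Lc l a k 5 3 - 4194304 * Lc l a k 7 1) : ℤ) : ℂ) := by
  have e : pc M 2 2 1 = M 4 1 2 - 2 * M 3 1 2 - 2 * M 3 0 1 + M 2 1 2 + 4 * M 2 0 1 - 2 * M 1 0 1 := by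
    simp [pc, Finset.sum_range_succ, Nat.choose]
    try ring
  have v412 : M 4 1 2 = (((l : ℤ) * (-1024 * Lc l a k 3 5 + 131072 * Lc l a k 5 3 - 4194304 * Lc l a k 7 1) : ℤ) : ℂ) := (ent40 h q hl hl2 hM).2.2.1
  have v312 : M 3 1 2 = 0 := (ent30 h q hl hl2 hM).2.2.1
  have v301 : M 3 0 1 = 0 := mat_low h hl hl2 hM 3 1 (by norm_num) (by norm_num)
  have v210 : M 2 1 0 = (((l : ℤ) * (1024 * Lc l a k 3 1) : ℤ) : ℂ) := (ent20 h q hl hl2 hM).1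
  have v212 : M 2 1 2 = M 2 1 0 := hM.sym 2 1 0 (by norm_num) (by norm_num)
  have v201 : M 2 0 1 = 0 := mat_low h hl hl2 hM 2 1 (by norm_num) (by norm_num)
  have v101 : M 1 0 1 = 0 := mat_low h hl hl2 hM 1 1 (by norm_num) (by norm_num)
  rw [e]
  simp only [v101, v201, v210, v212, v301, v312, v412]
  push_cast
  ring

private theorem kuz_222 (h : Core A Y) (q : Qd A Y a k) (hl : l.Prime) (hl2 : l ≠ 2) (hM : MatD l A Y 0 M) :
    pc M 2 2 2 = ((((l : ℤ) ^ 4 - 1) ^ 4 + (l : ℤ) * (-8704 * Lc l a k 3 1 + 707584 * Lc l a k 3 3 + 135856128 * Lc l a k 5 1 - 14350848 * Lc l a k 3 5 - 28623208448 * Lc l a k 5 3 - 2008228560896 * Lc l a k 7 1) : ℤ) : ℂ) := by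
  have e : pc M 2 2 2 = M 4 2 2 - 2 * M 3 2 2 - 2 * M 3 1 1 + M 2 2 2 + 4 * M 2 1 1 + M 2 0 0 - 2 * M 1 1 1 - 2 * M 1 0 0 + M 0 0 0 := by
    simp [pc, Finset.sum_range_succ, Nat.choose]
    try ring
  have v422 : M 4 2 2 = (((l : ℤ) * (1 + (l : ℤ) ^ 15 - 14350848 * Lc l a k 3 5 - 28623208448 * Lc l a k 5 3 - 2008228560896 * Lc l a k 7 1) : ℤ) : ℂ) := (ent40 h q hl hl2 hM).2.2.2.2.2.2.2
  have v311 : M 3 1 1 = (((l : ℤ) * (1 + (l : ℤ) ^ 11 - 176896 * Lc l a k 3 3 - 33964032 * Lc l a k 5 1) : ℤ) : ℂ) := (ent30 h q hl hl2 hM).2.1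
  have v322 : M 3 2 2 = M 3 1 1 := hM.sym 3 1 1 (by norm_num) (by norm_num)
  have v222 : M 2 2 2 = (l : ℂ) + (l : ℂ) ^ 8 := mat_NN h hl hl2 hM 2
  have v211 : M 2 1 1 = (((l : ℤ) * (1 + (l : ℤ) ^ 7 - 2176 * Lc l a k 3 1) : ℤ) : ℂ) := (ent20 h q hl hl2 hM).2
  have v200 : M 2 0 0 = (l : ℂ) + (l : ℂ) ^ 8 := mat_00 h hl hl2 hM 2
  have v111 : M 1 1 1 = (l : ℂ) + (l : ℂ) ^ 4 := mat_NN h hl hl2 hM 1
  have v100 : M 1 0 0 = (l : ℂ) + (l : ℂ) ^ 4 := mat_00 h hl hl2 hM 1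
  have v000 : M 0 0 0 = (l : ℂ) + (l : ℂ) ^ 0 := mat_00 h hl hl2 hM 0
  rw [e]
  simp only [v000, v100, v111, v200, v211, v222, v311, v322, v422]
  push_cast
  ring

private theorem kuz_223 (h : Core A Y) (q : Qd A Y a k) (hl : l.Prime) (hl2 : l ≠ 2) (hM : MatD l A Y 0 M) :
    pc M 2 2 3 = ((0 * ((l : ℤ) ^ 4 - 1) ^ 4 + (l : ℤ) * (1024 * Lc l a k 3 1 - 1024 * Lc l a k 3 5 + 131072 * Lc l a k 5 3 - 4194304 * Lc l a k 7 1) : ℤ) : ℂ) := by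
  have e : pc M 2 2 3 = M 4 3 2 - 2 * M 3 3 2 - 2 * M 3 2 1 + M 2 3 2 + 4 * M 2 2 1 + M 2 1 0 - 2 * M 1 2 1 - 2 * M 1 1 0 + M 0 1 0 := by
    simp [pc, Finset.sum_range_succ, Nat.choose]
    try ring
  have v412 : M 4 1 2 = (((l : ℤ) * (-1024 * Lc l a k 3 5 + 131072 * Lc l a k 5 3 - 4194304 * Lc l a k 7 1) : ℤ) : ℂ) := (ent40 h q hl hl2 hM).2.2.1
  have v432 : M 4 3 2 = M 4 1 2 := hM.sym 4 1 2 (by norm_num) (by norm_num)
  have v332 : M 3 3 2 = 0 := mat_top h hl hl2 hM 3 2 (by norm_num)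
  have v312 : M 3 1 2 = 0 := (ent30 h q hl hl2 hM).2.2.1
  have v321 : M 3 2 1 = M 3 1 2 := hM.sym 3 1 2 (by norm_num) (by norm_num)
  have v232 : M 2 3 2 = 0 := hM.out 2 3 2 (by norm_num)
  have v221 : M 2 2 1 = 0 := mat_top h hl hl2 hM 2 1 (by norm_num)
  have v210 : M 2 1 0 = (((l : ℤ) * (1024 * Lc l a k 3 1) : ℤ) : ℂ) := (ent20 h q hl hl2 hM).1
  have v121 : M 1 2 1 = 0 := hM.out 1 2 1 (by norm_num)
  have v110 : M 1 1 0 = 0 := mat_top h hl hl2 hM 1 0 (by norm_num)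
  have v010 : M 0 1 0 = 0 := hM.out 0 1 0 (by norm_num)
  rw [e]
  simp only [v010, v110, v121, v210, v221, v232, v312, v321, v332, v412, v432]
  push_cast
  ring

private theorem kuz_224 (h : Core A Y) (q : Qd A Y a k) (hl : l.Prime) (hl2 : l ≠ 2) (hM : MatD l A Y 0 M) :
    pc M 2 2 4 = ((0 * ((l : ℤ) ^ 4 - 1) ^ 4 + (l : ℤ) * (0) : ℤ) : ℂ) := by
  have e : pc M 2 2 4 = M 4 4 2 - 2 * M 3 4 2 - 2 * M 3 3 1 + M 2 4 2 + 4 * M 2 3 1 + M 2 2 0 - 2 * M 1 3 1 - 2 * M 1 2 0 + M 0 2 0 := by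
    simp [pc, Finset.sum_range_succ, Nat.choose]
    try ring
  have v442 : M 4 4 2 = 0 := mat_top h hl hl2 hM 4 2 (by norm_num)
  have v342 : M 3 4 2 = 0 := hM.out 3 4 2 (by norm_num)
  have v331 : M 3 3 1 = 0 := mat_top h hl hl2 hM 3 1 (by norm_num)
  have v242 : M 2 4 2 = 0 := hM.out 2 4 2 (by norm_num)
  have v231 : M 2 3 1 = 0 := hM.out 2 3 1 (by norm_num)
  have v220 : M 2 2 0 = 0 := mat_top h hl hl2 hM 2 0 (by norm_num)
  have v131 : M 1 3 1 = 0 := hM.out 1 3 1 (by norm_num)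
  have v120 : M 1 2 0 = 0 := hM.out 1 2 0 (by norm_num)
  have v020 : M 0 2 0 = 0 := hM.out 0 2 0 (by norm_num)
  rw [e]
  simp only [v020, v120, v131, v220, v231, v242, v331, v342, v442]
  push_cast
  ring

theorem kuz30 (h : Core A Y) (q : Qd A Y a k) (hl : l.Prime) (hl2 : l ≠ 2) (hM : MatD l A Y 0 M) (r : ℕ) :
    ∃ z : ℤ, kp l 0 (pc M) 3 0 r = (((l : ℤ) * Lc l a k 3 1 * Kz 3 0 r + 2 ^ 11 * z : ℤ) : ℂ) := by
  obtain ⟨z₁, z₂, _, _, _, h33, h35, _⟩ := lrel q l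
  rcases Nat.lt_or_ge 3 r with h3 | h3
  · refine ⟨0, ?_⟩
    rw [kuz_kz 3 0 r (by omega)]
    simp only [kp]
    rw [pc_deg hM 3 0 r (by omega), if_neg (by omega)]
    simp
  · interval_cases r
    · refine ⟨0, ?_⟩
      simp only [kp]
      rw [pc_m00 h hl hl2 hM 3 (by norm_num)]
      simp [Kz]
    · refine ⟨(l : ℤ) * (1036 * z₁ + 12432 * Lc l a k 5 1), ?_⟩
      simp only [kp]
      rw [kuz_301 h q hl hl2 hM, h33]
      simp only [Kz]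
      push_cast
      simp
      ring
    · refine ⟨(l : ℤ) * (32 * z₁ + 384 * Lc l a k 5 1), ?_⟩
      simp only [kp]
      rw [kuz_302 h q hl hl2 hM, h33]
      simp only [Kz]
      push_cast
      simp
      ring
    · refine ⟨0, ?_⟩
      simp only [kp]
      rw [kuz_303 h hl hl2 hM]
      simp [Kz]

theorem kuz21 (h : Core A Y) (q : Qd A Y a k) (hl : l.Prime) (hl2 : l ≠ 2) (hM : MatD l A Y 0 M) (r : ℕ) :
    ∃ z : ℤ, kp l 0 (pc M) 2 1 r = (((l : ℤ) * Lc l a k 3 1 * Kz 2 1 r + 2 ^ 11 * z : ℤ) : ℂ) := by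
  obtain ⟨z₁, z₂, _, _, _, h33, h35, _⟩ := lrel q l
  rcases Nat.lt_or_ge 3 r with h3 | h3
  · refine ⟨0, ?_⟩
    rw [kuz_kz 2 1 r (by omega)]
    simp only [kp]
    rw [pc_deg hM 2 1 r (by omega), if_neg (by omega)]
    simp
  · interval_cases r
    · refine ⟨0, ?_⟩
      simp only [kp]
      rw [pc_mn0 h hl hl2 hM 2 1 (by norm_num)]
      simp [Kz]
    · refine ⟨(l : ℤ) * (-1382 * z₁ - 16584 * Lc l a k 5 1), ?_⟩
      simp only [kp]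
      rw [kuz_211 h q hl hl2 hM, h33]
      simp only [Kz]
      push_cast
      simp
      ring
    · refine ⟨0, ?_⟩
      simp only [kp]
      rw [kuz_212 h q hl hl2 hM]
      simp only [Kz]
      push_cast
      simp
      ring
    · refine ⟨0, ?_⟩
      simp only [kp]
      rw [kuz_213 h hl hl2 hM]
      simp [Kz]

theorem kuz40 (h : Core A Y) (q : Qd A Y a k) (hl : l.Prime) (hl2 : l ≠ 2) (hM : MatD l A Y 0 M) (r : ℕ) :
    ∃ z : ℤ, kp l 0 (pc M) 4 0 r = (((l : ℤ) * Lc l a k 3 1 * Kz 4 0 r + 2 ^ 13 * z : ℤ) : ℂ) := by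
  obtain ⟨z₁, z₂, _, _, _, h33, h35, _⟩ := lrel q l
  rcases Nat.lt_or_ge 4 r with h4 | h4
  · refine ⟨0, ?_⟩
    rw [kuz_kz 4 0 r (by omega)]
    simp only [kp]
    rw [pc_deg hM 4 0 r (by omega), if_neg (by omega)]
    simp
  · interval_cases r
    · refine ⟨0, ?_⟩
      simp only [kp]
      rw [kuz_400 h q hl hl2 hM]
      try rw [h33]
      try rw [h35]
      simp only [Kz]
      push_cast
      simp
      try ring
    · refine ⟨(l : ℤ) * ((-1036) * z₁ + (56048) * z₂ + (-12432) * Lc l a k 5 1 + (3494080) * Lc l a k 5 3 + (245143552) * Lc l a k 7 1), ?_⟩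
      simp only [kp]
      rw [kuz_401 h q hl hl2 hM]
      try rw [h33]
      try rw [h35]
      simp only [Kz]
      push_cast
      simp
      try ring
    · refine ⟨(l : ℤ) * ((-32) * z₁ + (7936) * z₂ + (-384) * Lc l a k 5 1 + (493184) * Lc l a k 5 3 + (34611200) * Lc l a k 7 1), ?_⟩
      simp only [kp]
      rw [kuz_402 h q hl hl2 hM]
      try rw [h33]
      try rw [h35]
      simp only [Kz]
      push_cast
      simp
      try ring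
    · refine ⟨(l : ℤ) * ((1024) * Lc l a k 5 3 + (65536) * Lc l a k 7 1), ?_⟩
      simp only [kp]
      rw [kuz_403 h q hl hl2 hM]
      try rw [h33]
      try rw [h35]
      simp only [Kz]
      push_cast
      simp
      try ring
    · refine ⟨0, ?_⟩
      simp only [kp]
      rw [kuz_404 h q hl hl2 hM]
      try rw [h33]
      try rw [h35]
      simp only [Kz]
      push_cast
      simp
      try ring

theorem kuz31 (h : Core A Y) (q : Qd A Y a k) (hl : l.Prime) (hl2 : l ≠ 2) (hM : MatD l A Y 0 M) (r : ℕ) :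
    ∃ z : ℤ, kp l 0 (pc M) 3 1 r = (((l : ℤ) * Lc l a k 3 1 * Kz 3 1 r + 2 ^ 11 * z : ℤ) : ℂ) := by
  obtain ⟨z₁, z₂, _, _, _, h33, h35, _⟩ := lrel q l
  rcases Nat.lt_or_ge 4 r with h4 | h4
  · refine ⟨0, ?_⟩
    rw [kuz_kz 3 1 r (by omega)]
    simp only [kp]
    rw [pc_deg hM 3 1 r (by omega), if_neg (by omega)]
    simp
  · interval_cases r
    · refine ⟨0, ?_⟩
      simp only [kp]
      rw [kuz_310 h q hl hl2 hM]
      try rw [h33]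
      try rw [h35]
      simp only [Kz]
      push_cast
      simp
      try ring
    · refine ⟨(l : ℤ) * ((4146) * z₁ + (-224190) * z₂ + (49752) * Lc l a k 5 1 + (-13976344) * Lc l a k 5 3 + (-980574976) * Lc l a k 7 1), ?_⟩
      simp only [kp]
      rw [kuz_311 h q hl hl2 hM]
      try rw [h33]
      try rw [h35]
      simp only [Kz]
      push_cast
      simp
      try ring
    · refine ⟨(l : ℤ) * ((-1036) * z₁ + (-88) * z₂ + (-12432) * Lc l a k 5 1 + (352) * Lc l a k 5 3 + (-11264) * Lc l a k 7 1), ?_⟩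
      simp only [kp]
      rw [kuz_312 h q hl hl2 hM]
      try rw [h33]
      try rw [h35]
      simp only [Kz]
      push_cast
      simp
      try ring
    · refine ⟨(l : ℤ) * ((-32) * z₁ + (64) * z₂ + (-384) * Lc l a k 5 1 + (-256) * Lc l a k 5 3 + (8192) * Lc l a k 7 1), ?_⟩
      simp only [kp]
      rw [kuz_313 h q hl hl2 hM]
      try rw [h33]
      try rw [h35]
      simp only [Kz]
      push_cast
      simp
      try ring
    · refine ⟨0, ?_⟩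
      simp only [kp]
      rw [kuz_314 h q hl hl2 hM]
      try rw [h33]
      try rw [h35]
      simp only [Kz]
      push_cast
      simp
      try ring

theorem kuz22 (h : Core A Y) (q : Qd A Y a k) (hl : l.Prime) (hl2 : l ≠ 2) (hM : MatD l A Y 0 M) (r : ℕ) :
    ∃ z : ℤ, kp l 0 (pc M) 2 2 r = (((l : ℤ) * Lc l a k 3 1 * Kz 2 2 r + 2 ^ 12 * z : ℤ) : ℂ) := by
  obtain ⟨z₁, z₂, _, _, _, h33, h35, _⟩ := lrel q l
  rcases Nat.lt_or_ge 4 r with h4 | h4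
  · refine ⟨0, ?_⟩
    rw [kuz_kz 2 2 r (by omega)]
    simp only [kp]
    rw [pc_deg hM 2 2 r (by omega), if_neg (by omega)]
    simp
  · interval_cases r
    · refine ⟨0, ?_⟩
      simp only [kp]
      rw [kuz_220 h q hl hl2 hM]
      try rw [h33]
      try rw [h35]
      simp only [Kz]
      push_cast
      simp
      try ring
    · refine ⟨(l : ℤ) * ((-8) * z₂ + (32) * Lc l a k 5 3 + (-1024) * Lc l a k 7 1), ?_⟩
      simp only [kp]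
      rw [kuz_221 h q hl hl2 hM]
      try rw [h33]
      try rw [h35]
      simp only [Kz]
      push_cast
      simp
      try ring
    · refine ⟨(l : ℤ) * ((2764) * z₁ + (-112116) * z₂ + (33168) * Lc l a k 5 1 + (-6988088) * Lc l a k 5 3 + (-490290176) * Lc l a k 7 1), ?_⟩
      simp only [kp]
      rw [kuz_222 h q hl hl2 hM]
      try rw [h33]
      try rw [h35]
      simp only [Kz]
      push_cast
      simp
      try ring
    · refine ⟨(l : ℤ) * ((-8) * z₂ + (32) * Lc l a k 5 3 + (-1024) * Lc l a k 7 1), ?_⟩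
      simp only [kp]
      rw [kuz_223 h q hl hl2 hM]
      try rw [h33]
      try rw [h35]
      simp only [Kz]
      push_cast
      simp
      try ring
    · refine ⟨0, ?_⟩
      simp only [kp]
      rw [kuz_224 h q hl hl2 hM]
      try rw [h33]
      try rw [h35]
      simp only [Kz]
      push_cast
      simp
      try ring

end Pool.Agent.Lib.MP_06b9d2_tln
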