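import Pool.Agent.Lib.MP_06b9d2_tln.TNb
import Pool.Agent.Lib.MP_06b9d2_tln.ClL

/-!
Module TLN-PP. Prime powers.

`L = l ^ k / l = (x : ℂ)`, `x = l ^ k / l > 0` real; `hL`: `k` is even, `l` odd: `L - 1 = (l ^ k - l) / l`, `l ^ k - l` is an even integer and `l` an odd integer: `v (L - 1) ≤ v 2` (this is `odd_L`; the valuation of an odd integer is `1`: as in `v_odd` of `MP_06b9d2_tl2/Val.lean`, `v_dvd` for the numerator).
`pp_odd`: `M' = aeval M (lu L e)`: `rp_aeval` and `TN_lu`, `sy_aeval`, `lu_pos`, `cls_luc`. `pp_even`: `Er (M * M - 2 L) (1 + L ^ 2) (2 ^ (b + m))` from `Er M (1 + L) δ`: `act (M * M) f = c ^ 2 f + 2 c δ g + δ ^ 2 g''` (as in `cls_sq` of `ClL`: `act M f = c f + δ g`, `act M g = c g + δ g''`), `c = 1 + L`,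
`c ^ 2 - 2 L = 1 + L ^ 2`; then `cls_even`.
-/

namespace Pool.Agent.Lib.MP_06b9d2_tln

open PowerSeries Pool.Agent.L1
open Pool.Agent.Lib.MP_06b9d2_ssp (PO)
open Pool.Agent.Lib.MP_06b9d2_tls (Lv2 mo2 Two Tl U V)

variable {O : ValuationSubring ℂ} {N b m : ℕ} {R : (ℤ → ℂ) → ℤ → ℂ} {mo : ℕ → ℂ⟦X⟧}

private theorem pp_vint (O : ValuationSubring ℂ) (z : ℤ) : O.valuation (z : ℂ) ≤ 1 :=
  MP_06b9d2_ssp.int_mem O z

private theorem pp_vodd {O : ValuationSubring ℂ} (h2 : O.valuation 2 < 1) (z : ℤ) (hz : ¬ 2 ∣ z) :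
    O.valuation (z : ℂ) = 1 := by
  refine le_antisymm (pp_vint O z) (not_lt.1 fun hlt => ?_)
  have hc : IsCoprime (2 : ℤ) z := (Int.prime_two.coprime_iff_not_dvd).2 hz
  obtain ⟨a, b, hab⟩ := hc
  have h1 : (a : ℂ) * 2 + (b : ℂ) * z = 1 := by exact_mod_cast hab
  have h3 : O.valuation ((a : ℂ) * 2 + (b : ℂ) * z) < 1 := by
    refine lt_of_le_of_lt (Valuation.map_add O.valuation _ _) (max_lt ?_ ?_)
    · rw [map_mul]
      exact lt_of_le_of_lt (mul_le_of_le_one_left' (pp_vint O a)) h2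
    · rw [map_mul]
      exact lt_of_le_of_lt (mul_le_of_le_one_left' (pp_vint O b)) hlt
  rw [h1, map_one] at h3
  exact lt_irrefl _ h3

theorem odd_L (h2 : O.valuation 2 < 1) (l k : ℕ) (hl : l.Prime) (hl2 : l ≠ 2) (hk : k % 2 = 0) :
    O.valuation ((l : ℂ) ^ k / l - 1) ≤ O.valuation 2 := by
  have hodd : Odd (l : ℤ) := by
    rw [Int.odd_coe_nat]
    exact hl.odd_of_ne_two hl2
  have hl0 : (l : ℂ) ≠ 0 := Nat.cast_ne_zero.2 hl.ne_zero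
  have hn : (2 : ℤ) ∣ (l : ℤ) ^ k - l := even_iff_two_dvd.1 ((hodd.pow).sub_odd hodd)
  have hv : O.valuation (l : ℂ) = 1 := by
    have h := pp_vodd h2 (l : ℤ) (fun hd => (Int.not_even_iff_odd.2 hodd) (even_iff_two_dvd.2 hd))
    rwa [Int.cast_natCast] at h
  have e : (l : ℂ) ^ k / l - 1 = (((l : ℤ) ^ k - l : ℤ) : ℂ) / (l : ℂ) := by
    push_cast
    rw [sub_div, div_self hl0]
  rw [e, map_div₀, hv, div_one]
  obtain ⟨w, hw⟩ := hn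
  rw [hw, Int.cast_mul, map_mul]
  exact mul_le_of_le_one_right' (pp_vint O w)

private theorem pp_pos (l k : ℕ) (hl : l.Prime) (e : ℕ) :
    (lu ((l : ℂ) ^ k / l) e).eval (1 + (l : ℂ) ^ k / l) ≠ 0 := by
  have hx : (0 : ℝ) < (l : ℝ) ^ k / l := by
    have : (0 : ℝ) < l := Nat.cast_pos.2 hl.pos
    positivity
  have h := lu_pos ((l : ℝ) ^ k / l) hx e
  push_cast at h
  exact h

theorem pp_odd (hR : RO O R) (h2 : O.valuation 2 < 1) (hb : 1 ≤ b) (hm : m ≤ 2) (hmb : m ≤ b) (l k : ℕ)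
    (hl : l.Prime) (hl2 : l ≠ 2) (hk : k % 2 = 0) {ε : ℂ} (hε : O.valuation ε ≤ 1)
    (h : ∃ M : Mt N, Rp mo (TN l k) M ∧ Sy M ∧ Cls O b m R M (1 + (l : ℂ) ^ k / l) ε) (e : ℕ) :
    PG O N b m R k mo (l ^ e) (if e % 2 = 1 then ε else 0) := by
  obtain ⟨M, hRp, hSy, hCls⟩ := h
  refine ⟨Polynomial.aeval M (lu ((l : ℂ) ^ k / l) e),
    (lu ((l : ℂ) ^ k / l) e).eval (1 + (l : ℂ) ^ k / l), ?_, sy_aeval hSy _, pp_pos l k hl e,
    cls_luc hR h2 hb hm hmb e (odd_L h2 l k hl hl2 hk) hε hCls⟩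
  rw [TN_lu l k e hl]
  exact rp_aeval hRp _

private theorem pp_lin (M : Mt N) (a c : ℂ) (f g : ℤ → ℂ) (s : Fin (N + 1)) :
    act M (fun t => a * f t + c * g t) s = a * act M f s + c * act M g s := by
  unfold act
  rw [Finset.mul_sum, Finset.mul_sum, ← Finset.sum_add_distrib]
  exact Finset.sum_congr rfl fun j _ => by ring

private theorem pp_sq {L δ : ℂ} {M : Mt N} (h : Er O M (1 + L) δ)
    (h1 : O.valuation (2 * (1 + L) * δ) ≤ O.valuation (2 ^ (b + m)))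
    (h3 : O.valuation (δ ^ 2) ≤ O.valuation (2 ^ (b + m))) :
    Er O (M * M - (2 * L) • (1 : Mt N)) (1 + L ^ 2) (2 ^ (b + m)) := by
  intro f hf
  obtain ⟨g, hg, hfg⟩ := h f hf
  obtain ⟨g', hg', hgg⟩ := h g hg
  have h20 : (2 : ℂ) ^ (b + m) ≠ 0 := pow_ne_zero _ two_ne_zero
  have hv0 : O.valuation ((2 : ℂ) ^ (b + m)) ≠ 0 := (Valuation.ne_zero_iff _).2 h20
  have hdiv : ∀ z : ℂ, O.valuation z ≤ O.valuation ((2 : ℂ) ^ (b + m)) →
      O.valuation (z / 2 ^ (b + m)) ≤ 1 := by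
    intro z hz
    rw [map_div₀]
    exact div_le_one_of_le₀ hz zero_le
  refine ⟨fun s => 2 * (1 + L) * δ / 2 ^ (b + m) * g s + δ ^ 2 / 2 ^ (b + m) * g' s, ?_, fun s => ?_⟩
  · exact MP_06b9d2_ssp.PO_add (MP_06b9d2_ssp.PO_mul (MP_06b9d2_ssp.PO_const _ (hdiv _ h1)) hg)
      (MP_06b9d2_ssp.PO_mul (MP_06b9d2_ssp.PO_const _ (hdiv _ h3)) hg')
  · have e1 : M * M - (2 * L) • (1 : Mt N) = M * M + (-(2 * L)) • (1 : Mt N) := by
      rw [neg_smul, sub_eq_add_neg]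
    rw [e1, act_add, act_smul, act_one, act_mul M M f (fun t => (1 + L) * f t + δ * g t) hfg,
      pp_lin, hfg, hgg]
    field_simp
    ring

theorem pp_even (h2 : O.valuation 2 < 1) (l k : ℕ) (hl : l.Prime) (hl2 : l ≠ 2) (hk : k % 2 = 0) (δ : ℂ)
    (h : ∃ M : Mt N, Rp mo (TN l k) M ∧ Sy M ∧ Er O M (1 + (l : ℂ) ^ k / l) δ)
    (h1 : O.valuation (2 * (1 + (l : ℂ) ^ k / l) * δ) ≤ O.valuation (2 ^ (b + m)))
    (h3 : O.valuation (δ ^ 2) ≤ O.valuation (2 ^ (b + m))) (j : ℕ) :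
    PG O N b m R k mo (l ^ (2 * j)) 0 := by
  obtain ⟨M, hRp, hSy, hEr⟩ := h
  refine ⟨Polynomial.aeval M (lu ((l : ℂ) ^ k / l) (2 * j)),
    (lu ((l : ℂ) ^ k / l) (2 * j)).eval (1 + (l : ℂ) ^ k / l), ?_, sy_aeval hSy _,
    pp_pos l k hl (2 * j), cls_even h2 (odd_L h2 l k hl hl2 hk) M (pp_sq hEr h1 h3) j⟩
  rw [TN_lu l k (2 * j) hl]
  exact rp_aeval hRp _

end Pool.Agent.Lib.MP_06b9d2_tln
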