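import Pool.Agent.Lib.MP_06b9d2_tln.PrM
import Pool.Agent.Lib.MP_06b9d2_tln.OpB
import Pool.Agent.Lib.MP_06b9d2_tln.KpB

/-!
Module TLN-PrE. The action of `T_l`, all primes `l ≠ 2`.

`act_l`; `kp l e (pc M) = [(1,1,1)] y + κ''`, `y = kp 1 1 1`, `κ''` vanishes at `(1,1,1)` and is bounded by `kp_bd`: `op_lin`, `op_one`, `op_err` with `B = 2 ^ (8 + r0)`; `-y = l 2 ^ 7 (u Lc 3 1 + 8 z)` (`kp_one`); `1 / l` is a unit of `O` (odd integer; absorb it in `g`).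
-/

namespace Pool.Agent.Lib.MP_06b9d2_tln

open PowerSeries Pool.Agent.L1
open Pool.Agent.Lib.MP_06b9d2_ssp (PO)
open Pool.Agent.Lib.MP_06b9d2_tls (Lv2 mo2 Two Tl U V)

open Pool.Agent.Lib.MP_06b9d2_tl2 (Core MatD pc Qd Lc)

variable {A Y : ℂ⟦X⟧} {a k : ℤ⟦X⟧} {l e : ℕ} {M : ℕ → ℕ → ℕ → ℂ} {O : ValuationSubring ℂ}

theorem act_gen (h : Core A Y) (h2 : O.valuation 2 < 1) (q : Qd A Y a k) (hl : l.Prime) (hl2 : l ≠ 2) (he : e ≤ 1)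
    (hM : MatD l A Y e M) (r0 : ℕ) (hr : r0 ≤ 2) (hc : (2 : ℤ) ^ r0 ∣ Lc l a k 3 1) (N : ℕ) :
    ∃ u z : ℤ, u % 2 = 1 ∧ ∀ f : ℤ → ℂ, PO O f → ∃ g : ℤ → ℂ, PO O g ∧ ∀ s : Fin (N + 1),
      act (mtx l M N) f s = (1 + (l : ℂ) ^ (4 * N + 2 * e) / l) * f ((s : ℕ) : ℤ) +
        ((2 ^ 7 * (u * Lc l a k 3 1 + 8 * z) : ℤ) : ℂ) * Rq N f ((s : ℕ) : ℤ) +
        2 ^ (8 + r0) * g ((s : ℕ) : ℤ) := by
  obtain ⟨u, z, hu, hk1⟩ := kp_one h q hl hl2 he hM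
  refine ⟨u, z, hu, fun f hf => ?_⟩
  have hl0 : (l : ℂ) ≠ 0 := Nat.cast_ne_zero.mpr hl.ne_zero
  have hodd : ¬ (2 : ℤ) ∣ (l : ℤ) := by
    intro h2
    have h3 : 2 ∣ l := by exact_mod_cast h2
    exact hl2 ((Nat.prime_dvd_prime_iff_eq Nat.prime_two hl).mp h3).symm
  have hvl : O.valuation (l : ℂ) = 1 := by
    have := Pool.Agent.Lib.MP_06b9d2_tl2.v_odd h2 (l : ℤ) hodd
    simpa using this
  have hvi : O.valuation (1 / (l : ℂ)) ≤ 1 := by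
    rw [one_div, map_inv₀, hvl, inv_one]
  obtain ⟨g, hg, hgs⟩ := op_err (N := N) (2 ^ (8 + r0)) (pow_ne_zero _ two_ne_zero)
    (fun m n r => if m = 1 ∧ n = 1 ∧ r = 1 then 0 else kp l e (pc M) m n r) (by
      intro m n r
      by_cases h1 : m = 1 ∧ n = 1 ∧ r = 1
      · simp only [if_pos h1, map_zero]
        exact zero_le
      · simp only [if_neg h1]
        exact kp_bd h h2 q hl hl2 he hM r0 hr hc m n r h1) f hf
  refine ⟨fun s => 1 / (l : ℂ) * g s, Pool.Agent.Lib.MP_06b9d2_ssp.PO_mul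
    (Pool.Agent.Lib.MP_06b9d2_ssp.PO_const _ hvi) hg, fun s => ?_⟩
  have hs : (s : ℕ) ≤ N := Nat.lt_succ_iff.mp s.isLt
  have hfun : kp l e (pc M) = fun m n r =>
      (fun m n r => if m = 1 ∧ n = 1 ∧ r = 1 then 0 else kp l e (pc M) m n r) m n r +
        kp l e (pc M) 1 1 1 * (fun m n r => if m = 1 ∧ n = 1 ∧ r = 1 then (1 : ℂ) else 0) m n r := by
    funext m n r
    by_cases h1 : m = 1 ∧ n = 1 ∧ r = 1
    · obtain ⟨rfl, rfl, rfl⟩ := h1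
      simp
    · simp [h1]
  have hop : op (kp l e (pc M)) N f ((s : ℕ) : ℤ) = 2 ^ (8 + r0) * g ((s : ℕ) : ℤ) +
      kp l e (pc M) 1 1 1 * (-1 * Rq N f ((s : ℕ) : ℤ)) := by
    rw [hfun, op_lin, hgs, op_one 1 f s hs]
    simp
  rw [act_l h hl hl2 hM N f s, hop, hk1]
  push_cast
  field_simp
  ring

end Pool.Agent.Lib.MP_06b9d2_tln
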